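import Pool.Agent.V11294.Lu.Out

/-!
# `x` odd, `4 ∣ y`
-/

set_option autoImplicit false
set_option linter.unusedSectionVars false

open H385 (ZI RQ im1 nrm)

namespace Pool.Agent.V11294.Lu

open Pool.Agent.Y699
open Pool.Agent.H304R2.EC.A1 (prim prim_norm_odd norm_def' re_mul' im_mul')

theorem cast1 {e : ℤ} (h : e % 4 = 1) : (e : ZMod 4) = 1 := by
  have := (ZMod.intCast_eq_intCast_iff e 1 4).2 (by unfold Int.ModEq; omega)
  simpa using this

theorem cast3 {e : ℤ} (h : e % 4 = 3) : (e : ZMod 4) = -1 := by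
  have := (ZMod.intCast_eq_intCast_iff e (-1) 4).2 (by unfold Int.ModEq; omega)
  simpa using this

theorem castn {a : ℕ} {b : ZMod 4} (h : (a : ZMod 4) = b) : ((a : ℕ) : ZMod 4) = b := h

theorem y_fac {y' y0 : ℤ} {t : ℕ} (h : y' = 2 ^ t * y0) :
    (⟨y', 0⟩ : ZI) = p1 ^ (2 * t) * im1 ^ (3 * t) * ⟨y0, 0⟩ := by
  rw [pow_mul, pow_mul, ← mul_pow]
  have : p1 ^ 2 * im1 ^ 3 = ((2 : ℤ) : ZI) := by decide
  rw [this, h, ← Int.cast_pow]
  generalize (2 : ℤ) ^ t = T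
  ext <;> simp

theorem prim_of {z : ZI} {p q : ℤ} (h1 : z.re = 1 - 2 * q + 4 * p) (h2 : z.im = 2 * q) : prim z := by
  refine ⟨by omega, by omega⟩

theorem fA1 : ∀ (t u v w B q0 : ZMod 4), 2 * t * w = 0 →
    ((1 : ℕ) * (2 * (u + (B ^ 2 + 1) * w)) + (1 : ℕ) * (2 * (u + v)) +
      2 * (2 * (u + v)) * (2 * (u - w * B) - (u - v - w * B) + 2 * (u - v - w * B) ^ 2) -
      2 * ((u - w * B) - (u - v - w * B) - (u - v - w * B) ^ 2) -
      (2 : ℕ) * (2 * (u - w * B) - (u - v - w * B) + 2 * (u - v - w * B) ^ 2) +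
      2 * (2 * (u - w * B) - (u - v - w * B) + 2 * (u - v - w * B) ^ 2) +
      2 * (2 * t) * ((u - w * B) - (u - v - w * B) - (u - v - w * B) ^ 2) +
      2 * (3 * t) * (2 * (u - w * B) - (u - v - w * B) + 2 * (u - v - w * B) ^ 2)) -
    ((2 * t) * (2 * (u + (B ^ 2 + 1) * w)) + (3 * t) * (2 * (u + v)) +
      2 * (2 * (u + v)) * (2 * q0) - 2 * q0 - (2 : ℕ) * (2 * q0) + 2 * (1 : ℕ) * q0 + 2 * (1 : ℕ) * (2 * q0)) =
    2 * (u + v + w) := by
  decide +kernel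

theorem fA4 : ∀ (t u v w B q0 : ZMod 4), 2 * t * w = 0 → 2 * B = 2 →
    ((1 : ℕ) * (2 * (u + (B ^ 2 + 4) * w)) + (1 : ℕ) * (2 * (u + v)) +
      2 * (2 * (u + v)) * (2 * (u - w * B) - (u - v - w * B) + 2 * (u - v - w * B) ^ 2) -
      2 * ((u - w * B) - (u - v - w * B) - (u - v - w * B) ^ 2) -
      (2 : ℕ) * (2 * (u - w * B) - (u - v - w * B) + 2 * (u - v - w * B) ^ 2) +
      0 +
      2 * (2 * t) * ((u - w * B) - (u - v - w * B) - (u - v - w * B) ^ 2) +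
      2 * (3 * t) * (2 * (u - w * B) - (u - v - w * B) + 2 * (u - v - w * B) ^ 2)) -
    ((2 * t) * (2 * (u + (B ^ 2 + 4) * w)) + (3 * t) * (2 * (u + v)) +
      2 * (2 * (u + v)) * (2 * q0) - 2 * q0 - (2 : ℕ) * (2 * q0) + 2 * (1 : ℕ) * q0 + 2 * (1 : ℕ) * (2 * q0)) -
      (3 * (2 * (u + v)) + 2 * (2 * (u + (B ^ 2 + 4) * w))) =
    2 * (u + v + w) := by
  decide +kernel

/-- the square class modulo four -/
theorem sqz (u : ZMod 4) : 2 * u ^ 2 = 2 * u := by revert u; decide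

theorem d_even {p : ℕ} {c d : ℤ} (hp4 : p % 4 = 1) (hp : (p : ℤ) = c ^ 2 + d ^ 2) (hc : c % 4 = 1) : d % 2 = 0 := by
  have h1 := sq_odd (a := c) (by omega)
  rcases Int.emod_two_eq_zero_or_one d with h | h
  · exact h
  · have := sq_odd h; omega

theorem d_four {c d : ℤ} {P : ℤ} (hp : P = c ^ 2 + d ^ 2) (hc : c % 4 = 1) (hP : P % 8 = 1) : d % 4 = 0 := by
  have h1 := sq_odd (a := c) (by omega)
  rcases (by omega : d % 4 = 0 ∨ d % 4 = 2 ∨ d % 2 = 1) with h | h | h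
  · exact h
  · have := sq_two h; omega
  · have := sq_odd h; omega

theorem d_two {c d : ℤ} {P : ℤ} (hp : P = c ^ 2 + d ^ 2) (hc : c % 4 = 1) (hP : P % 8 = 5) : d % 4 = 2 := by
  have h1 := sq_odd (a := c) (by omega)
  rcases (by omega : d % 4 = 0 ∨ d % 4 = 2 ∨ d % 2 = 1) with h | h | h
  · have := sq_four h; omega
  · exact h
  · have := sq_odd h; omega

/-- the case `x` odd, `4 ∣ y` -/
theorem caseA {p : ℕ} [Fact p.Prime] {c d x y D bb κ : ℤ} (hp : (p : ℤ) = c ^ 2 + d ^ 2)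
    (hx : (p : ℤ) = x ^ 2 + D * y ^ 2) (hc : c % 4 = 1) (hx1 : x % 4 = 1) (hy : y % 4 = 0) (hyo : OddPartOne y)
    (hκ : κ = 1 ∨ κ = 4) (hD : D = bb ^ 2 + κ) (hbb : κ = 4 → bb % 2 = 1) :
    d % 4 = 0 ∧ (p : ℤ) % 8 = 1 ∧
    (κ = 1 → ((bb : ZMod p) + x * rt p c d / y) ^ (p / 4) =
      rt p c d ^ (2 * ((d / 4 + y / 4 : ℤ) : ZMod 4)).val) ∧
    (κ = 4 → (((bb : ZMod p) + x * rt p c d / y) / 2) ^ (p / 4) =
      rt p c d ^ (2 * ((d / 4 + y / 4 : ℤ) : ZMod 4)).val) := by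
  have hy0 := hyo.ne
  have h8 : (p : ℤ) % 8 = 1 := by
    have h1 := sq_odd (a := x) (by omega)
    obtain ⟨k, hk⟩ : ∃ k, y = 4 * k := ⟨y / 4, by omega⟩
    have h2 : D * y ^ 2 = 16 * (D * k ^ 2) := by rw [hk]; ring
    rw [hx, h2]; omega
  have hd := d_four hp hc h8
  refine ⟨hd, h8, ?_⟩
  obtain ⟨g, c', m, y', e, hg, g1, g2, g3, g4, g5, g6⟩ := red1 hp hx (by omega)
  have hc' : c' % 4 = 1 := by rw [mod_of_mul g1 hg, hc]
  have hm : m % 4 = 1 := by rw [mod_of_mul g2 hg]; omega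
  have he : e % 4 = 1 := by rw [mod_of_mul g4 hg]; omega
  have hy' : y' % 4 = 0 := by rw [mod_of_mul g3 hg]; omega
  obtain ⟨t, y0, hy1, hy2⟩ := hyo.div hg g3
  obtain ⟨u, hu⟩ : ∃ u, c' = 4 * u + 1 := ⟨c' / 4, by omega⟩
  obtain ⟨v, hv⟩ : ∃ v, m = 4 * v + 1 := ⟨m / 4, by omega⟩
  obtain ⟨w, hw⟩ : ∃ w, y' = 4 * w := ⟨y' / 4, by omega⟩
  obtain ⟨q0, hq0⟩ : ∃ q0, y0 = 4 * q0 + 1 := ⟨y0 / 4, by omega⟩
  obtain ⟨d4, hd4⟩ : ∃ d4, d = 4 * d4 := ⟨d / 4, by omega⟩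
  obtain ⟨β, hβ⟩ : ∃ β : ℤ, β = 2 * u ^ 2 + u - 2 * v ^ 2 - v - 2 * D * w ^ 2 := ⟨_, rfl⟩
  have hde : d * e = 4 * β := by
    have : 2 * (d * e) = 2 * (4 * β) := by rw [g5, hβ, hu, hv, hw]; ring
    linarith
  have htw : 2 * (t : ZMod 4) * (w : ZMod 4) = 0 := by
    have h4 : (4 : ZMod 4) = 0 := by decide
    rcases (by omega : t = 0 ∨ t = 1 ∨ t = 2 ∨ 3 ≤ t) with h | h | h | h
    · exfalso; rw [h, pow_zero, one_mul] at hy1; omega
    · exfalso; rw [h, pow_one] at hy1; omega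
    · rw [h]; push_cast; linear_combination (w : ZMod 4) * h4
    · obtain ⟨k, rfl⟩ : ∃ k, t = k + 3 := ⟨t - 3, by omega⟩
      have : w = 2 * (2 ^ k * y0) := by
        have : 4 * w = 4 * (2 * (2 ^ k * y0)) := by rw [← hw, hy1]; ring
        linarith
      rw [this]; push_cast; linear_combination (k + 3 : ZMod 4) * (2 ^ k * y0) * h4
  -- the three primary elements
  have sre : (⟨c' * m, e * d⟩ : ZI).re = 1 - 2 * (2 * β) + 4 * (4 * u * v + u + v + β) := by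
    show c' * m = _
    rw [hu, hv]; ring
  have sim : (⟨c' * m, e * d⟩ : ZI).im = 2 * (2 * β) := by
    show e * d = _
    linarith
  have nre : (⟨2 * (u + v - w * bb) + 1, 2 * (u - v - w * bb)⟩ : ZI).re = 1 - 2 * (u - v - w * bb) + 4 * (u - w * bb) := by
    show 2 * (u + v - w * bb) + 1 = _
    ring
  have nim : (⟨2 * (u + v - w * bb) + 1, 2 * (u - v - w * bb)⟩ : ZI).im = 2 * (u - v - w * bb) := rfl
  have yre : (⟨y0, 0⟩ : ZI).re = 1 - 2 * 0 + 4 * q0 := by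
    show y0 = _
    rw [hq0]; ring
  have yim : (⟨y0, 0⟩ : ZI).im = 2 * 0 := rfl
  have hβz : (d4 : ZMod 4) = β := by
    have h1 : d4 * e = β := by
      have : 4 * (d4 * e) = 4 * β := by rw [← hde, hd4]; ring
      linarith
    have h2 := congrArg (Int.cast : ℤ → ZMod 4) h1
    push_cast at h2
    rw [cast1 he, mul_one] at h2
    exact h2
  have hwz : ((y / 4 : ℤ) : ZMod 4) = w := by
    have : y / 4 = g * w := by
      have : y = 4 * (g * w) := by rw [g3, hw]; ring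
      omega
    rw [this]; push_cast; rw [cast1 hg, one_mul]
  have hdz : ((d / 4 : ℤ) : ZMod 4) = β := by
    have : d / 4 = d4 := by omega
    rw [this, hβz]
  have i1 := Iz_param sre sim
  have i2 := Wz_param sre sim
  have i3 := Iz_param nre nim
  have i4 := Wz_param nre nim
  have i5 := Iz_param yre yim
  have i6 := Wz_param yre yim
  obtain ⟨r1, r2⟩ := main1 (a := 1) (kν := 1) (kP := 2) (β := 2 * t) (kY := 3 * t)
    (S := ⟨c' * m, e * d⟩) (N := ⟨2 * (u + v - w * bb) + 1, 2 * (u - v - w * bb)⟩) (Y0 := ⟨y0, 0⟩)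
    hp hx (by omega) (by omega) hy0 hκ hD g1 g2 g3 g4 g5 g6 (by omega) (prim_of sre sim) (Or.inl rfl)
    (prim_of nre nim) (prim_of yre yim)
    (by
      have : p1 ^ 2 * im1 ^ 2 = (⟨0, -2⟩ : ZI) := by decide
      rw [this]
      ext
      · simp; ring
      · simp; ring)
    (by
      have : p1 ^ 1 * im1 ^ 1 = (⟨-1, 1⟩ : ZI) := by decide
      rw [this, hu, hv, hw]
      ext
      · simp; ring
      · simp; ring)
    (y_fac hy1)
  have z4 : (4 : ZMod 4) = 0 := by decide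
  have j1 : Iz (⟨c' * m, e * d⟩ : ZI) = 2 * ((u : ZMod 4) + v) := by
    rw [i1]; push_cast
    linear_combination ((2 * u * v + 2 * β ^ 2 : ZMod 4)) * z4
  have j2 : Wz (⟨c' * m, e * d⟩ : ZI) = 2 * ((u : ZMod 4) + D * w) := by
    rw [i2, hβ]; push_cast
    generalize (u : ZMod 4) = u
    generalize (v : ZMod 4) = v
    generalize (w : ZMod 4) = w
    generalize (D : ZMod 4) = D
    revert u v w D
    decide +kernel
  have hDz : (D : ZMod 4) = (bb : ZMod 4) ^ 2 + (κ : ZMod 4) := by rw [hD]; push_cast; rfl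
  have hβ2 : 2 * (β : ZMod 4) = 2 * ((u : ZMod 4) + v) := by
    rw [hβ]; push_cast
    linear_combination ((u : ZMod 4) ^ 2 - v ^ 2 - v - D * w ^ 2) * z4
  have hfin : 2 * ((d / 4 + y / 4 : ℤ) : ZMod 4) = 2 * ((u : ZMod 4) + v + w) := by
    push_cast
    rw [hdz, hwz]
    linear_combination hβ2
  rw [hfin]
  constructor
  · intro hκ1
    rw [r1 hκ1]
    congr 2
    unfold Fo
    rw [i3, i4, i5, i6, j1, j2, hDz, hκ1]
    have h1 := fA1 t u v w bb q0 htw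
    push_cast at h1 ⊢
    linear_combination h1
  · intro hκ4
    rw [r2 hκ4]
    congr 2
    unfold Fo
    rw [i3, i4, i5, i6, j1, j2, hDz, hκ4]
    have hb2 : 2 * (bb : ZMod 4) = 2 := by
      obtain ⟨k, hk⟩ : ∃ k, bb = 2 * k + 1 := ⟨bb / 2, by have := hbb hκ4; omega⟩
      rw [hk]; push_cast; linear_combination (k : ZMod 4) * z4
    have h1 := fA4 t u v w bb q0 htw hb2
    push_cast at h1 ⊢
    linear_combination h1

end Pool.Agent.V11294.Lu
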