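import Pool.Agent.V11294.Lu.CaseA

/-!
# `x` odd, `2 ∥ y`
-/

set_option autoImplicit false
set_option linter.unusedSectionVars false

open H385 (ZI RQ im1 nrm)

namespace Pool.Agent.V11294.Lu

open Pool.Agent.Y699
open Pool.Agent.H304R2.EC.A1 (prim prim_norm_odd norm_def' re_mul' im_mul')

/-- the case `x` odd, `2 ∥ y`, `b ≡ 2 (mod 4)` -/
theorem caseB {p : ℕ} [Fact p.Prime] {c d x y D bb : ℤ} (hp : (p : ℤ) = c ^ 2 + d ^ 2)
    (hx : (p : ℤ) = x ^ 2 + D * y ^ 2) (hc : c % 4 = 1) (hx1 : x % 4 = 1) (hy : y % 4 = 2) (hyo : OddPartOne y)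
    (hD : D = bb ^ 2 + 1) (hbb : bb % 2 = 1) :
    d % 4 = 0 ∧ (p : ℤ) % 8 = 1 ∧
    ((bb : ZMod p) + x * rt p c d / y) ^ (p / 4) =
      rt p c d ^ (1 + 2 * (((bb - 1) / 2 + d / 4 : ℤ) : ZMod 4)).val := by
  have hy0 := hyo.ne
  obtain ⟨r, hr⟩ : ∃ r, bb = 2 * r + 1 := ⟨bb / 2, by omega⟩
  have h8 : (p : ℤ) % 8 = 1 := by
    have h1 := sq_odd (a := x) (by omega)
    obtain ⟨k, hk⟩ : ∃ k, y = 2 * k := ⟨y / 2, by omega⟩
    have h2 : D * y ^ 2 = 8 * ((2 * r ^ 2 + 2 * r + 1) * k ^ 2) := by rw [hk, hD, hr]; ring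
    rw [hx, h2]; omega
  have hd := d_four hp hc h8
  refine ⟨hd, h8, ?_⟩
  obtain ⟨g, c', m, y', e, hg, g1, g2, g3, g4, g5, g6⟩ := red1 hp hx (by omega)
  have hc' : c' % 4 = 1 := by rw [mod_of_mul g1 hg, hc]
  have hm : m % 4 = 1 := by rw [mod_of_mul g2 hg]; omega
  have he : e % 4 = 1 := by rw [mod_of_mul g4 hg]; omega
  have hy' : y' % 4 = 2 := by rw [mod_of_mul g3 hg]; omega
  obtain ⟨t, y0, hy1, hy2⟩ := hyo.div hg g3
  have ht : t = 1 := by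
    rcases (by omega : t = 0 ∨ t = 1 ∨ 2 ≤ t) with h | h | h
    · exfalso; rw [h, pow_zero, one_mul] at hy1; omega
    · exact h
    · exfalso
      obtain ⟨k, rfl⟩ : ∃ k, t = k + 2 := ⟨t - 2, by omega⟩
      have : y' = 4 * (2 ^ k * y0) := by rw [hy1]; ring
      omega
  obtain ⟨u, hu⟩ : ∃ u, c' = 4 * u + 1 := ⟨c' / 4, by omega⟩
  obtain ⟨v, hv⟩ : ∃ v, m = 4 * v + 1 := ⟨m / 4, by omega⟩
  obtain ⟨w, hw⟩ : ∃ w, y0 = 4 * w + 1 := ⟨y0 / 4, by omega⟩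
  obtain ⟨d4, hd4⟩ : ∃ d4, d = 4 * d4 := ⟨d / 4, by omega⟩
  obtain ⟨β, hβ⟩ : ∃ β : ℤ, β = 2 * u ^ 2 + u - 2 * v ^ 2 - v - (2 * r ^ 2 + 2 * r + 1) * (4 * w + 1) ^ 2 := ⟨_, rfl⟩
  have hyw : y' = 2 * (4 * w + 1) := by rw [hy1, ht, hw]; ring
  have hde : d * e = 4 * β := by
    have : 2 * (d * e) = 2 * (4 * β) := by rw [g5, hβ, hu, hv, hyw, hD, hr]; ring
    linarith
  -- the three primary elements
  have sre : (⟨c' * m, e * d⟩ : ZI).re = 1 - 2 * (2 * β) + 4 * (4 * u * v + u + v + β) := by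
    show c' * m = _
    rw [hu, hv]; ring
  have sim : (⟨c' * m, e * d⟩ : ZI).im = 2 * (2 * β) := by
    show e * d = _
    linarith
  obtain ⟨T, hT⟩ : ∃ T : ℤ, T = u + v - 4 * r * w - r - 2 * w := ⟨_, rfl⟩
  have nre : (⟨1 + 2 * (2 * v - T), 2 * T⟩ : ZI).re = 1 - 2 * T + 4 * v := by
    show 1 + 2 * (2 * v - T) = _
    ring
  have nim : (⟨1 + 2 * (2 * v - T), 2 * T⟩ : ZI).im = 2 * T := rfl
  have yre : (⟨y0, 0⟩ : ZI).re = 1 - 2 * 0 + 4 * w := by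
    show y0 = _
    rw [hw]; ring
  have yim : (⟨y0, 0⟩ : ZI).im = 2 * 0 := rfl
  have hβz : (d4 : ZMod 4) = β := by
    have h1 : d4 * e = β := by
      have : 4 * (d4 * e) = 4 * β := by rw [← hde, hd4]; ring
      linarith
    have h2 := congrArg (Int.cast : ℤ → ZMod 4) h1
    push_cast at h2
    rw [cast1 he, mul_one] at h2
    exact h2
  have hdz : ((d / 4 : ℤ) : ZMod 4) = β := by
    have : d / 4 = d4 := by omega
    rw [this, hβz]
  have i1 := Iz_param sre sim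
  have i2 := Wz_param sre sim
  have i3 := Iz_param nre nim
  have i4 := Wz_param nre nim
  have i5 := Iz_param yre yim
  have i6 := Wz_param yre yim
  obtain ⟨r1, -⟩ := main1 (a := 1) (kν := 0) (kP := 2) (β := 2 * t) (kY := 3 * t)
    (S := ⟨c' * m, e * d⟩) (N := ⟨1 + 2 * (2 * v - T), 2 * T⟩) (Y0 := ⟨y0, 0⟩) (κ := 1)
    hp hx (by omega) (by omega) hy0 (Or.inl rfl) hD g1 g2 g3 g4 g5 g6 (by omega) (prim_of sre sim) (Or.inl rfl)
    (prim_of nre nim) (prim_of yre yim)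
    (by
      have : p1 ^ 2 * im1 ^ 2 = (⟨0, -2⟩ : ZI) := by decide
      rw [this]
      ext
      · simp; ring
      · simp; ring)
    (by
      have : p1 ^ 1 * im1 ^ 0 = (⟨1, 1⟩ : ZI) := by decide
      rw [this, hu, hv, hyw, hT, hr]
      ext
      · simp; ring
      · simp; ring)
    (y_fac hy1)
  rw [r1 rfl]
  congr 2
  unfold Fo
  have hfin : (((bb - 1) / 2 + d / 4 : ℤ) : ZMod 4) = r + β := by
    have : (bb - 1) / 2 = r := by omega
    rw [this]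
    push_cast
    rw [hdz]
  rw [i1, i2, i3, i4, i5, i6, ht, hfin]
  push_cast
  rw [hβ, hT]
  push_cast
  generalize (u : ZMod 4) = u
  generalize (v : ZMod 4) = v
  generalize (w : ZMod 4) = w
  generalize (r : ZMod 4) = r
  revert u v w r
  decide +kernel

end Pool.Agent.V11294.Lu
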