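import Pool.Agent.V11294.Lu.CaseA

/-!
# `x` odd, `2 ∥ y`, odd discriminant
-/

set_option autoImplicit false
set_option linter.unusedSectionVars false

open H385 (ZI RQ im1 nrm)

namespace Pool.Agent.V11294.Lu

open Pool.Agent.Y699
open Pool.Agent.H304R2.EC.A1 (prim prim_norm_odd norm_def' re_mul' im_mul')

theorem pow_one_of {y' y0 : ℤ} {t : ℕ} (hy' : y' % 4 = 2) (hy1 : y' = 2 ^ t * y0) (hy2 : y0 % 4 = 1) : t = 1 := by
  rcases (by omega : t = 0 ∨ t = 1 ∨ 2 ≤ t) with h | h | h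
  · exfalso; rw [h, pow_zero, one_mul] at hy1; omega
  · exact h
  · exfalso
    obtain ⟨k, rfl⟩ : ∃ k, t = k + 2 := ⟨t - 2, by omega⟩
    have : y' = 4 * (2 ^ k * y0) := by rw [hy1]; ring
    omega

/-- the case `x` odd, `2 ∥ y`, `4 ∣ b` -/
theorem caseC1 {p : ℕ} [Fact p.Prime] {c d x y D bb : ℤ} (hp : (p : ℤ) = c ^ 2 + d ^ 2)
    (hx : (p : ℤ) = x ^ 2 + D * y ^ 2) (hc : c % 4 = 1) (hdo : OddPartOne d) (hx1 : x % 4 = 1) (hy : y % 4 = 2)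
    (hyo : OddPartOne y) (hD : D = bb ^ 2 + 1) (hbb : bb % 2 = 0) :
    (p : ℤ) % 8 = 5 ∧
    ((bb : ZMod p) + x * rt p c d / y) ^ (p / 4) =
      rt p c d ^ (2 * ((bb / 2 : ℤ) : ZMod 4)).val := by
  have hy0 := hyo.ne
  obtain ⟨r, hr⟩ : ∃ r, bb = 2 * r := ⟨bb / 2, by omega⟩
  have h8 : (p : ℤ) % 8 = 5 := by
    have h1 := sq_odd (a := x) (by omega)
    have h3 := sq_two hy
    obtain ⟨k, hk⟩ : ∃ k, y ^ 2 = 32 * k + 4 := ⟨y ^ 2 / 32, by omega⟩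
    have h2 : D * y ^ 2 = 8 * (16 * r ^ 2 * k + 2 * r ^ 2 + 4 * k) + 4 := by rw [hk, hD, hr]; ring
    rw [hx, h2]; omega
  have hd := d_two hp hc h8
  have hd8 := hdo.two hd
  refine ⟨h8, ?_⟩
  obtain ⟨g, c', m, y', e, hg, g1, g2, g3, g4, g5, g6⟩ := red1 hp hx (by omega)
  have hc' : c' % 4 = 1 := by rw [mod_of_mul g1 hg, hc]
  have hm : m % 4 = 3 := by rw [mod_of_mul g2 hg]; omega
  have he : e % 4 = 3 := by rw [mod_of_mul g4 hg]; omega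
  have hy' : y' % 4 = 2 := by rw [mod_of_mul g3 hg]; omega
  obtain ⟨t, y0, hy1, hy2⟩ := hyo.div hg g3
  have ht := pow_one_of hy' hy1 hy2
  obtain ⟨u, hu⟩ : ∃ u, c' = 4 * u + 1 := ⟨c' / 4, by omega⟩
  obtain ⟨v, hv⟩ : ∃ v, m = 4 * v - 1 := ⟨m / 4 + 1, by omega⟩
  obtain ⟨w, hw⟩ : ∃ w, y0 = 4 * w + 1 := ⟨y0 / 4, by omega⟩
  obtain ⟨d8, hd8'⟩ : ∃ d8, d = 8 * d8 + 2 := ⟨d / 8, by omega⟩
  obtain ⟨e4, he4⟩ : ∃ e4, e = 4 * e4 + 3 := ⟨e / 4, by omega⟩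
  obtain ⟨h, hh⟩ : ∃ h : ℤ, h = 2 * u ^ 2 + u - 2 * v ^ 2 + v - (32 * r ^ 2 * w ^ 2 + 16 * r ^ 2 * w + 2 * r ^ 2 + 8 * w ^ 2 + 4 * w + 1) := ⟨_, rfl⟩
  have hyw : y' = 2 * (4 * w + 1) := by rw [hy1, ht, hw]; ring
  have hde : d * e = 4 * h + 2 := by
    have : 2 * (d * e) = 2 * (4 * h + 2) := by rw [g5, hh, hu, hv, hyw, hD, hr]; ring
    linarith
  have hodd : h % 2 = 1 := by
    have : d * e = 8 * (4 * d8 * e4 + 3 * d8 + e4) + 6 := by rw [hd8', he4]; ring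
    omega
  have hz : 2 * (h : ZMod 4) = 2 := by
    have z4 : (4 : ZMod 4) = 0 := by decide
    obtain ⟨k, hk⟩ : ∃ k, h = 2 * k + 1 := ⟨h / 2, by omega⟩
    rw [hk]; push_cast; linear_combination (k : ZMod 4) * z4
  -- the three primary elements
  have sre : (⟨c' * m, e * d⟩ : ZI).re = 1 - 2 * (2 * h + 1) + 4 * (4 * u * v - u + v + h) := by
    show c' * m = _
    rw [hu, hv]; ring
  have sim : (⟨c' * m, e * d⟩ : ZI).im = 2 * (2 * h + 1) := by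
    show e * d = _
    linarith
  obtain ⟨T, hT⟩ : ∃ T : ℤ, T = 4 * r * w + r - u - v := ⟨_, rfl⟩
  have nre : (⟨1 - 2 * T - 4 * v, 2 * T⟩ : ZI).re = 1 - 2 * T + 4 * (-v) := by
    show 1 - 2 * T - 4 * v = _
    ring
  have nim : (⟨1 - 2 * T - 4 * v, 2 * T⟩ : ZI).im = 2 * T := rfl
  have yre : (⟨y0, 0⟩ : ZI).re = 1 - 2 * 0 + 4 * w := by
    show y0 = _
    rw [hw]; ring
  have yim : (⟨y0, 0⟩ : ZI).im = 2 * 0 := rfl
  have i1 := Iz_param sre sim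
  have i2 := Wz_param sre sim
  have i3 := Iz_param nre nim
  have i4 := Wz_param nre nim
  have i5 := Iz_param yre yim
  have i6 := Wz_param yre yim
  obtain ⟨r1, -⟩ := main1 (a := 1) (kν := 2) (kP := 2) (β := 2 * t) (kY := 3 * t)
    (S := ⟨c' * m, e * d⟩) (N := ⟨1 - 2 * T - 4 * v, 2 * T⟩) (Y0 := ⟨y0, 0⟩) (κ := 1)
    hp hx (by omega) (by omega) hy0 (Or.inl rfl) hD g1 g2 g3 g4 g5 g6 (by omega) (prim_of sre sim) (Or.inl rfl)
    (prim_of nre nim) (prim_of yre yim)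
    (by
      have : p1 ^ 2 * im1 ^ 2 = (⟨0, -2⟩ : ZI) := by decide
      rw [this]
      ext
      · simp; ring
      · simp; ring)
    (by
      have : p1 ^ 1 * im1 ^ 2 = (⟨-1, -1⟩ : ZI) := by decide
      rw [this, hu, hv, hyw, hT, hr]
      ext
      · simp; ring
      · simp; ring)
    (y_fac hy1)
  rw [r1 rfl]
  congr 2
  unfold Fo
  have hfin : bb / 2 = r := by omega
  rw [i1, i2, i3, i4, i5, i6, ht, hfin]
  rw [hh] at hz ⊢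
  rw [hT]
  push_cast at hz ⊢
  generalize (u : ZMod 4) = u at hz ⊢
  generalize (v : ZMod 4) = v at hz ⊢
  generalize (w : ZMod 4) = w at hz ⊢
  generalize (r : ZMod 4) = r at hz ⊢
  revert u v w r
  decide +kernel

/-- the case `x` odd, `2 ∥ y`, `b` odd -/
theorem caseC4 {p : ℕ} [Fact p.Prime] {c d x y D bb : ℤ} (hp : (p : ℤ) = c ^ 2 + d ^ 2)
    (hx : (p : ℤ) = x ^ 2 + D * y ^ 2) (hc : c % 4 = 1) (hdo : OddPartOne d) (hx1 : x % 4 = 1) (hy : y % 4 = 2)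
    (hyo : OddPartOne y) (hD : D = bb ^ 2 + 4) (hbb : bb % 2 = 1) :
    (p : ℤ) % 8 = 5 ∧
    (((bb : ZMod p) + x * rt p c d / y) / 2) ^ (p / 4) =
      rt p c d ^ (2 * ((1 : ℤ) : ZMod 4)).val := by
  have hy0 := hyo.ne
  obtain ⟨r, hr⟩ : ∃ r, bb = 2 * r + 1 := ⟨bb / 2, by omega⟩
  have h8 : (p : ℤ) % 8 = 5 := by
    have h1 := sq_odd (a := x) (by omega)
    have h3 := sq_two hy
    obtain ⟨k, hk⟩ : ∃ k, y ^ 2 = 32 * k + 4 := ⟨y ^ 2 / 32, by omega⟩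
    have h2 : D * y ^ 2 = 8 * (16 * (r ^ 2 + r) * k + 2 * (r ^ 2 + r) + 20 * k + 2) + 4 := by rw [hk, hD, hr]; ring
    rw [hx, h2]; omega
  have hd := d_two hp hc h8
  have hd8 := hdo.two hd
  refine ⟨h8, ?_⟩
  obtain ⟨g, c', m, y', e, hg, g1, g2, g3, g4, g5, g6⟩ := red1 hp hx (by omega)
  have hc' : c' % 4 = 1 := by rw [mod_of_mul g1 hg, hc]
  have hm : m % 4 = 3 := by rw [mod_of_mul g2 hg]; omega
  have he : e % 4 = 3 := by rw [mod_of_mul g4 hg]; omega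
  have hy' : y' % 4 = 2 := by rw [mod_of_mul g3 hg]; omega
  obtain ⟨t, y0, hy1, hy2⟩ := hyo.div hg g3
  have ht := pow_one_of hy' hy1 hy2
  obtain ⟨u, hu⟩ : ∃ u, c' = 4 * u + 1 := ⟨c' / 4, by omega⟩
  obtain ⟨v, hv⟩ : ∃ v, m = 4 * v - 1 := ⟨m / 4 + 1, by omega⟩
  obtain ⟨w, hw⟩ : ∃ w, y0 = 4 * w + 1 := ⟨y0 / 4, by omega⟩
  obtain ⟨d8, hd8'⟩ : ∃ d8, d = 8 * d8 + 2 := ⟨d / 8, by omega⟩
  obtain ⟨e4, he4⟩ : ∃ e4, e = 4 * e4 + 3 := ⟨e / 4, by omega⟩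
  obtain ⟨h, hh⟩ : ∃ h : ℤ, h = 2 * u ^ 2 + u - 2 * v ^ 2 + v - (2 * r * (r + 1) * (4 * w + 1) ^ 2 + 40 * w ^ 2 + 20 * w + 3) := ⟨_, rfl⟩
  have hyw : y' = 2 * (4 * w + 1) := by rw [hy1, ht, hw]; ring
  have hde : d * e = 4 * h + 2 := by
    have : 2 * (d * e) = 2 * (4 * h + 2) := by rw [g5, hh, hu, hv, hyw, hD, hr]; ring
    linarith
  have hodd : h % 2 = 1 := by
    have : d * e = 8 * (4 * d8 * e4 + 3 * d8 + e4) + 6 := by rw [hd8', he4]; ring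
    omega
  have hz : 2 * (h : ZMod 4) = 2 := by
    have z4 : (4 : ZMod 4) = 0 := by decide
    obtain ⟨k, hk⟩ : ∃ k, h = 2 * k + 1 := ⟨h / 2, by omega⟩
    rw [hk]; push_cast; linear_combination (k : ZMod 4) * z4
  -- the three primary elements
  have sre : (⟨c' * m, e * d⟩ : ZI).re = 1 - 2 * (2 * h + 1) + 4 * (4 * u * v - u + v + h) := by
    show c' * m = _
    rw [hu, hv]; ring
  have sim : (⟨c' * m, e * d⟩ : ZI).im = 2 * (2 * h + 1) := by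
    show e * d = _
    linarith
  obtain ⟨T, hT⟩ : ∃ T : ℤ, T = 4 * r * w + r + 2 * w - u + v := ⟨_, rfl⟩
  have nre : (⟨1 - 2 * T + 4 * (T - v), 2 * T⟩ : ZI).re = 1 - 2 * T + 4 * (T - v) := rfl
  have nim : (⟨1 - 2 * T + 4 * (T - v), 2 * T⟩ : ZI).im = 2 * T := rfl
  have yre : (⟨y0, 0⟩ : ZI).re = 1 - 2 * 0 + 4 * w := by
    show y0 = _
    rw [hw]; ring
  have yim : (⟨y0, 0⟩ : ZI).im = 2 * 0 := rfl
  have i1 := Iz_param sre sim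
  have i2 := Wz_param sre sim
  have i3 := Iz_param nre nim
  have i4 := Wz_param nre nim
  have i5 := Iz_param yre yim
  have i6 := Wz_param yre yim
  obtain ⟨-, r1⟩ := main1 (a := 1) (kν := 3) (kP := 2) (β := 2 * t) (kY := 3 * t)
    (S := ⟨c' * m, e * d⟩) (N := ⟨1 - 2 * T + 4 * (T - v), 2 * T⟩) (Y0 := ⟨y0, 0⟩) (κ := 4)
    hp hx (by omega) (by omega) hy0 (Or.inr rfl) hD g1 g2 g3 g4 g5 g6 (by omega) (prim_of sre sim) (Or.inl rfl)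
    (prim_of nre nim) (prim_of yre yim)
    (by
      have : p1 ^ 2 * im1 ^ 2 = (⟨0, -2⟩ : ZI) := by decide
      rw [this]
      ext
      · simp; ring
      · simp; ring)
    (by
      have : p1 ^ 1 * im1 ^ 3 = (⟨1, -1⟩ : ZI) := by decide
      rw [this, hu, hv, hyw, hT, hr]
      ext
      · simp; ring
      · simp; ring)
    (y_fac hy1)
  rw [r1 rfl]
  congr 2
  unfold Fo
  rw [i1, i2, i3, i4, i5, i6, ht]
  rw [hh] at hz ⊢
  rw [hT]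
  push_cast at hz ⊢
  generalize (u : ZMod 4) = u at hz ⊢
  generalize (v : ZMod 4) = v at hz ⊢
  generalize (w : ZMod 4) = w at hz ⊢
  generalize (r : ZMod 4) = r at hz ⊢
  revert u v w r
  decide +kernel

end Pool.Agent.V11294.Lu
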