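import Pool.Agent.V11294.Lu.CaseC

/-!
# `x` even, `y` odd
-/

set_option autoImplicit false
set_option linter.unusedSectionVars false

open H385 (ZI RQ im1 nrm)

namespace Pool.Agent.V11294.Lu

open Pool.Agent.Y699
open Pool.Agent.H304R2.EC.A1 (prim prim_norm_odd norm_def' re_mul' im_mul')

theorem Y_i {y' : ℤ} : (⟨0, -y'⟩ : ZI) = p1 ^ 0 * im1 ^ 3 * ⟨y', 0⟩ := by
  have : p1 ^ 0 * im1 ^ 3 = (⟨0, -1⟩ : ZI) := by decide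
  rw [this]
  ext <;> simp

theorem odd_z {h : ℤ} (hh : h % 2 = 1) : 2 * (h : ZMod 4) = 2 := by
  have z4 : (4 : ZMod 4) = 0 := by decide
  obtain ⟨k, hk⟩ : ∃ k, h = 2 * k + 1 := ⟨h / 2, by omega⟩
  rw [hk]; push_cast; linear_combination (k : ZMod 4) * z4

theorem even_z {h : ℤ} (hh : h % 2 = 0) : 2 * (h : ZMod 4) = 0 := by
  have z4 : (4 : ZMod 4) = 0 := by decide
  obtain ⟨k, hk⟩ : ∃ k, h = 2 * k := ⟨h / 2, by omega⟩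
  rw [hk]; push_cast; linear_combination (k : ZMod 4) * z4

theorem xe_eq {c x g m d' y' e D : ℤ} (g1 : c - x = g * m) (g4 : m = g * e)
    (g5 : 2 * (c * e) = m ^ 2 - d' ^ 2 + D * y' ^ 2) : 2 * (x * e) = D * y' ^ 2 - d' ^ 2 - m ^ 2 := by
  linear_combination g5 - 2 * e * g1 + 2 * m * g4

/-- `x` even, `4 ∣ x`, `8 ∣ b` -/
theorem caseD1 {p : ℕ} [Fact p.Prime] {c d x y D bb ρ : ℤ} (hp : (p : ℤ) = c ^ 2 + d ^ 2)
    (hx : (p : ℤ) = x ^ 2 + D * y ^ 2) (hc : c % 4 = 1) (hdo : OddPartOne d) (hxo : OddPartOne x)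
    (hx2 : x % 4 = 0) (hy : y % 4 = 1) (hD : D = bb ^ 2 + 1) (hbb : bb = 4 * ρ) :
    d % 4 = 0 ∧ (p : ℤ) % 8 = 1 ∧
    ((bb : ZMod p) + x * rt p c d / y) ^ (p / 4) =
      rt p c d ^ (2 * ((d / 4 + x * y / 4 + ρ * y : ℤ) : ZMod 4)).val := by
  have hy0 : y ≠ 0 := by omega
  have hDρ : D = 16 * ρ ^ 2 + 1 := by rw [hD, hbb]; ring
  have h8 : (p : ℤ) % 8 = 1 := by
    have h1 := sq_odd (a := y) (by omega)
    have h3 := sq_four hx2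
    obtain ⟨k, hk⟩ : ∃ k, y ^ 2 = 8 * k + 1 := ⟨y ^ 2 / 8, by omega⟩
    have h2 : D * y ^ 2 = 8 * (D * k + (16 * ρ ^ 2 + 1 - 1) / 8) + 1 := by
      have h4 : (16 * ρ ^ 2 + 1 - 1) % 8 = 0 := by
        ring_nf; omega
      rw [hk]
      have h5 : D = 8 * ((16 * ρ ^ 2 + 1 - 1) / 8) + 1 := by rw [← hDρ] at h4 ⊢; omega
      have h6 : D * (8 * k + 1) = 8 * (D * k) + D := by ring
      rw [h6]; omega
    rw [hx, h2]; omega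
  have hd := d_four hp hc h8
  refine ⟨hd, h8, ?_⟩
  obtain ⟨g, m, d', y', e, hg, g1, g2, g3, g4, g5, g6⟩ := red0 hp hx (by omega)
  have hm : m % 4 = 1 := by rw [mod_of_mul g1 hg]; omega
  have he : e % 4 = 1 := by rw [mod_of_mul g4 hg]; omega
  have hy' : y' % 4 = 1 := by rw [mod_of_mul g3 hg]; omega
  obtain ⟨v, hv⟩ : ∃ v, m = 4 * v + 1 := ⟨m / 4, by omega⟩
  obtain ⟨w, hw⟩ : ∃ w, y' = 4 * w + 1 := ⟨y' / 4, by omega⟩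
  have hd' : d' % 4 = 0 := by rw [mod_of_mul g2 hg]; omega
  obtain ⟨δ, hδ⟩ : ∃ δ, d' = 4 * δ := ⟨d' / 4, by omega⟩
  have hdz : ((d / 4 : ℤ) : ZMod 4) = δ := by
    have : d / 4 = g * δ := by
      have : d = 4 * (g * δ) := by rw [g2, hδ]; ring
      omega
    rw [this]; push_cast; rw [cast1 hg, one_mul]
  have hZ : c * e = 8 * v ^ 2 + 4 * v - 8 * δ ^ 2 + 8 * ρ ^ 2 * (4 * w + 1) ^ 2 + 8 * w ^ 2 + 4 * w + 1 := by
    have : 2 * (c * e) = 2 * (8 * v ^ 2 + 4 * v - 8 * δ ^ 2 + 8 * ρ ^ 2 * (4 * w + 1) ^ 2 + 8 * w ^ 2 + 4 * w + 1) := by rw [g5, hDρ, hv, hw, hδ]; ring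
    linarith
  have hxe := xe_eq g1 g4 g5
  obtain ⟨x4, hx4⟩ : ∃ x4, x = 4 * x4 := ⟨x / 4, by omega⟩
  have hxz : (x4 : ZMod 4) = ((2 * ρ ^ 2 * (4 * w + 1) ^ 2 + 2 * w ^ 2 + w - 2 * δ ^ 2 - 2 * v ^ 2 - v : ℤ) : ZMod 4) := by
    have h1 : x4 * e = 2 * ρ ^ 2 * (4 * w + 1) ^ 2 + 2 * w ^ 2 + w - 2 * δ ^ 2 - 2 * v ^ 2 - v := by
      have : 8 * (x4 * e) = 8 * (2 * ρ ^ 2 * (4 * w + 1) ^ 2 + 2 * w ^ 2 + w - 2 * δ ^ 2 - 2 * v ^ 2 - v) := by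
        have h2 : 8 * (x4 * e) = 2 * (x * e) := by rw [hx4]; ring
        rw [h2, hxe, hDρ, hv, hw, hδ]; ring
      linarith
    have h2 := congrArg (Int.cast : ℤ → ZMod 4) h1
    rw [Int.cast_mul, cast1 he, mul_one] at h2
    exact h2
  have sre : (⟨c * e, m * d'⟩ : ZI).re = 1 - 2 * (2 * δ * (4 * v + 1)) + 4 * (2 * v ^ 2 + v - 2 * δ ^ 2 + 2 * ρ ^ 2 * (4 * w + 1) ^ 2 + 2 * w ^ 2 + w + δ * (4 * v + 1)) := by
    show c * e = _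
    rw [hZ]; ring
  have sim : (⟨c * e, m * d'⟩ : ZI).im = 2 * (2 * δ * (4 * v + 1)) := by
    show m * d' = _
    rw [hv, hδ]; ring
  obtain ⟨nq, hnq⟩ : ∃ nq : ℤ, nq = 2 * (ρ * (4 * w + 1) + δ) := ⟨_, rfl⟩
  obtain ⟨np, hnp⟩ : ∃ np : ℤ, np = v + ρ * (4 * w + 1) + δ := ⟨_, rfl⟩
  have nre : (⟨1 - 2 * nq + 4 * np, 2 * nq⟩ : ZI).re = 1 - 2 * nq + 4 * np := rfl
  have nim : (⟨1 - 2 * nq + 4 * np, 2 * nq⟩ : ZI).im = 2 * nq := rfl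
  have yre : (⟨y', 0⟩ : ZI).re = 1 - 2 * 0 + 4 * w := by
    show y' = _
    rw [hw]; ring
  have yim : (⟨y', 0⟩ : ZI).im = 2 * 0 := rfl
  have i1 := Iz_param sre sim
  have i2 := Wz_param sre sim
  have i3 := Iz_param nre nim
  have i4 := Wz_param nre nim
  have i5 := Iz_param yre yim
  have i6 := Wz_param yre yim
  obtain ⟨r1, r2⟩ := main0 (a := 0) (kν := 2) (kP := 3) (β := 0) (kY := 3)
    (S := ⟨c * e, m * d'⟩) (N := ⟨1 - 2 * nq + 4 * np, 2 * nq⟩) (Y0 := ⟨y', 0⟩) (κ := 1)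
    hp hx (by omega) (by omega) hy0 (Or.inl rfl) hD g1 g2 g3 g4 g5 g6 (by omega) (prim_of sre sim)
    (Or.inl rfl)
    (prim_of nre nim) (prim_of yre yim)
    (by
      have : p1 ^ 2 * im1 ^ 3 = (⟨2, 0⟩ : ZI) := by decide
      rw [this]
      ext
      · simp
      · simp; ring)
    (by
      have : p1 ^ 0 * im1 ^ 2 = (⟨-1, 0⟩ : ZI) := by decide
      rw [this, hv, hw, hnq, hnp, hδ, hbb]
      ext
      · simp; ring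
      · simp; ring)
    Y_i
  rw [r1 rfl]
  congr 2
  unfold Fo
  have hfin : ((d / 4 + x * y / 4 + ρ * y : ℤ) : ZMod 4) = δ + ((2 * ρ ^ 2 * (4 * w + 1) ^ 2 + 2 * w ^ 2 + w - 2 * δ ^ 2 - 2 * v ^ 2 - v : ℤ) : ZMod 4) + ρ := by
    have h1 : x * y / 4 = x4 * y := by
      have : x * y = 4 * (x4 * y) := by rw [hx4]; ring
      omega
    rw [h1, Int.cast_add, Int.cast_add, Int.cast_mul, Int.cast_mul, hdz, hxz, cast1 hy, mul_one, mul_one]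
  rw [i1, i2, i3, i4, i5, i6, hfin, hnq, hnp]
  push_cast
  generalize (v : ZMod 4) = v
  generalize (w : ZMod 4) = w
  generalize (ρ : ZMod 4) = ρ
  generalize (δ : ZMod 4) = δ
  revert v w ρ δ
  decide +kernel

/-- `x` even, `2 ∥ x`, `8 ∣ b` -/
theorem caseD2 {p : ℕ} [Fact p.Prime] {c d x y D bb ρ : ℤ} (hp : (p : ℤ) = c ^ 2 + d ^ 2)
    (hx : (p : ℤ) = x ^ 2 + D * y ^ 2) (hc : c % 4 = 1) (hdo : OddPartOne d) (hxo : OddPartOne x)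
    (hx2 : x % 4 = 2) (hy : y % 4 = 1) (hD : D = bb ^ 2 + 1) (hbb : bb = 4 * ρ) :
    (p : ℤ) % 8 = 5 ∧
    ((bb : ZMod p) + x * rt p c d / y) ^ (p / 4) =
      rt p c d ^ (2 * (((ρ - 1) * y : ℤ) : ZMod 4)).val := by
  have hy0 : y ≠ 0 := by omega
  have hDρ : D = 16 * ρ ^ 2 + 1 := by rw [hD, hbb]; ring
  have h8 : (p : ℤ) % 8 = 5 := by
    have h1 := sq_odd (a := y) (by omega)
    have h3 := sq_two hx2
    obtain ⟨k, hk⟩ : ∃ k, y ^ 2 = 8 * k + 1 := ⟨y ^ 2 / 8, by omega⟩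
    have h2 : D * y ^ 2 = 8 * (D * k + (16 * ρ ^ 2 + 1 - 1) / 8) + 1 := by
      have h4 : (16 * ρ ^ 2 + 1 - 1) % 8 = 0 := by
        ring_nf; omega
      rw [hk]
      have h5 : D = 8 * ((16 * ρ ^ 2 + 1 - 1) / 8) + 1 := by rw [← hDρ] at h4 ⊢; omega
      have h6 : D * (8 * k + 1) = 8 * (D * k) + D := by ring
      rw [h6]; omega
    rw [hx, h2]; omega
  have hd := d_two hp hc h8
  have hd8 := hdo.two hd
  refine ⟨h8, ?_⟩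
  obtain ⟨g, m, d', y', e, hg, g1, g2, g3, g4, g5, g6⟩ := red0 hp hx (by omega)
  have hm : m % 4 = 3 := by rw [mod_of_mul g1 hg]; omega
  have he : e % 4 = 3 := by rw [mod_of_mul g4 hg]; omega
  have hy' : y' % 4 = 1 := by rw [mod_of_mul g3 hg]; omega
  obtain ⟨v, hv⟩ : ∃ v, m = 4 * v - 1 := ⟨m / 4 + 1, by omega⟩
  obtain ⟨w, hw⟩ : ∃ w, y' = 4 * w + 1 := ⟨y' / 4, by omega⟩
  have hd' : d' % 4 = 2 := by rw [mod_of_mul g2 hg]; omega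
  obtain ⟨td, d0, hd1, hd2⟩ := hdo.div hg g2
  have htd := pow_one_of hd' hd1 hd2
  obtain ⟨δ, hδ⟩ : ∃ δ, d' = 8 * δ + 2 := ⟨d' / 8, by rw [htd, pow_one] at hd1; omega⟩
  have hZ : c * e = 8 * v ^ 2 - 4 * v - 32 * δ ^ 2 - 16 * δ - 1 + 8 * ρ ^ 2 * (4 * w + 1) ^ 2 + 8 * w ^ 2 + 4 * w := by
    have : 2 * (c * e) = 2 * (8 * v ^ 2 - 4 * v - 32 * δ ^ 2 - 16 * δ - 1 + 8 * ρ ^ 2 * (4 * w + 1) ^ 2 + 8 * w ^ 2 + 4 * w) := by rw [g5, hDρ, hv, hw, hδ]; ring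
    linarith
  have hxe := xe_eq g1 g4 g5
  obtain ⟨Q, hQ⟩ : ∃ Q : ℤ, Q = 2 * ρ ^ 2 * (4 * w + 1) ^ 2 + 2 * w ^ 2 + w - 8 * δ ^ 2 - 4 * δ - 1 - 2 * v ^ 2 + v := ⟨_, rfl⟩
  have hQ2 : Q % 2 = 1 := by
    have h1 : 2 * (x * e) = 2 * (4 * Q + 2) := by
      rw [hxe, hDρ, hv, hw, hδ, hQ]; ring
    have h2 : x * e = 4 * Q + 2 := by linarith
    have h3 := hxo.two hx2
    obtain ⟨x8, hx8⟩ : ∃ x8, x = 8 * x8 + 2 := ⟨x / 8, by omega⟩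
    obtain ⟨e4, he4⟩ : ∃ e4, e = 4 * e4 + 3 := ⟨e / 4, by omega⟩
    have h4 : x * e = 8 * (4 * x8 * e4 + 3 * x8 + e4) + 6 := by rw [hx8, he4]; ring
    omega
  have hz := odd_z hQ2
  rw [hQ] at hz
  have sre : (⟨c * e, m * d'⟩ : ZI).re = 1 - 2 * ((4 * v - 1) * (4 * δ + 1)) + 4 * (2 * v ^ 2 + v - 8 * δ ^ 2 - 6 * δ - 1 + 2 * ρ ^ 2 * (4 * w + 1) ^ 2 + 2 * w ^ 2 + w + 8 * v * δ) := by
    show c * e = _
    rw [hZ]; ring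
  have sim : (⟨c * e, m * d'⟩ : ZI).im = 2 * ((4 * v - 1) * (4 * δ + 1)) := by
    show m * d' = _
    rw [hv, hδ]; ring
  obtain ⟨nq, hnq⟩ : ∃ nq : ℤ, nq = 2 * ρ * (4 * w + 1) + 4 * δ + 1 := ⟨_, rfl⟩
  obtain ⟨np, hnp⟩ : ∃ np : ℤ, np = v + ρ * (4 * w + 1) + 2 * δ := ⟨_, rfl⟩
  have nre : (⟨1 - 2 * nq + 4 * np, 2 * nq⟩ : ZI).re = 1 - 2 * nq + 4 * np := rfl
  have nim : (⟨1 - 2 * nq + 4 * np, 2 * nq⟩ : ZI).im = 2 * nq := rfl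
  have yre : (⟨y', 0⟩ : ZI).re = 1 - 2 * 0 + 4 * w := by
    show y' = _
    rw [hw]; ring
  have yim : (⟨y', 0⟩ : ZI).im = 2 * 0 := rfl
  have i1 := Iz_param sre sim
  have i2 := Wz_param sre sim
  have i3 := Iz_param nre nim
  have i4 := Wz_param nre nim
  have i5 := Iz_param yre yim
  have i6 := Wz_param yre yim
  obtain ⟨r1, r2⟩ := main0 (a := 0) (kν := 2) (kP := 3) (β := 0) (kY := 3)
    (S := ⟨c * e, m * d'⟩) (N := ⟨1 - 2 * nq + 4 * np, 2 * nq⟩) (Y0 := ⟨y', 0⟩) (κ := 1)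
    hp hx (by omega) (by omega) hy0 (Or.inl rfl) hD g1 g2 g3 g4 g5 g6 (by omega) (prim_of sre sim)
    (Or.inl rfl)
    (prim_of nre nim) (prim_of yre yim)
    (by
      have : p1 ^ 2 * im1 ^ 3 = (⟨2, 0⟩ : ZI) := by decide
      rw [this]
      ext
      · simp
      · simp; ring)
    (by
      have : p1 ^ 0 * im1 ^ 2 = (⟨-1, 0⟩ : ZI) := by decide
      rw [this, hv, hw, hnq, hnp, hδ, hbb]
      ext
      · simp; ring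
      · simp; ring)
    Y_i
  rw [r1 rfl]
  congr 2
  unfold Fo
  have hfin : (((ρ - 1) * y : ℤ) : ZMod 4) = (ρ - 1 : ZMod 4) := by
    push_cast
    rw [cast1 hy, mul_one]
  rw [i1, i2, i3, i4, i5, i6, hfin, hnq, hnp]
  push_cast at hz ⊢
  generalize (v : ZMod 4) = v at hz ⊢
  generalize (w : ZMod 4) = w at hz ⊢
  generalize (ρ : ZMod 4) = ρ at hz ⊢
  generalize (δ : ZMod 4) = δ at hz ⊢
  revert v w ρ δ
  decide +kernel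

/-- `x` even, `2 ∥ x`, `b ≡ 4 (mod 8)` -/
theorem caseD3 {p : ℕ} [Fact p.Prime] {c d x y D bb ρ : ℤ} (hp : (p : ℤ) = c ^ 2 + d ^ 2)
    (hx : (p : ℤ) = x ^ 2 + D * y ^ 2) (hc : c % 4 = 1) (hdo : OddPartOne d) (hxo : OddPartOne x)
    (hx2 : x % 4 = 2) (hy : y % 4 = 1) (hD : D = bb ^ 2 + 1) (hbb : bb = 4 * ρ + 2) :
    d % 4 = 0 ∧ (p : ℤ) % 8 = 1 ∧
    ((bb : ZMod p) + x * rt p c d / y) ^ (p / 4) =
      rt p c d ^ (1 + 2 * ((ρ + 1 + d / 4 : ℤ) : ZMod 4)).val := by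
  have hy0 : y ≠ 0 := by omega
  have hDρ : D = 16 * ρ * (ρ + 1) + 5 := by rw [hD, hbb]; ring
  have h8 : (p : ℤ) % 8 = 1 := by
    have h1 := sq_odd (a := y) (by omega)
    have h3 := sq_two hx2
    obtain ⟨k, hk⟩ : ∃ k, y ^ 2 = 8 * k + 1 := ⟨y ^ 2 / 8, by omega⟩
    have h2 : D * y ^ 2 = 8 * (D * k + (16 * ρ * (ρ + 1) + 5 - 5) / 8) + 5 := by
      have h4 : (16 * ρ * (ρ + 1) + 5 - 5) % 8 = 0 := by
        ring_nf; omega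
      rw [hk]
      have h5 : D = 8 * ((16 * ρ * (ρ + 1) + 5 - 5) / 8) + 5 := by rw [← hDρ] at h4 ⊢; omega
      have h6 : D * (8 * k + 1) = 8 * (D * k) + D := by ring
      rw [h6]; omega
    rw [hx, h2]; omega
  have hd := d_four hp hc h8
  refine ⟨hd, h8, ?_⟩
  obtain ⟨g, m, d', y', e, hg, g1, g2, g3, g4, g5, g6⟩ := red0 hp hx (by omega)
  have hm : m % 4 = 3 := by rw [mod_of_mul g1 hg]; omega
  have he : e % 4 = 3 := by rw [mod_of_mul g4 hg]; omega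
  have hy' : y' % 4 = 1 := by rw [mod_of_mul g3 hg]; omega
  obtain ⟨v, hv⟩ : ∃ v, m = 4 * v - 1 := ⟨m / 4 + 1, by omega⟩
  obtain ⟨w, hw⟩ : ∃ w, y' = 4 * w + 1 := ⟨y' / 4, by omega⟩
  have hd' : d' % 4 = 0 := by rw [mod_of_mul g2 hg]; omega
  obtain ⟨δ, hδ⟩ : ∃ δ, d' = 4 * δ := ⟨d' / 4, by omega⟩
  have hdz : ((d / 4 : ℤ) : ZMod 4) = δ := by
    have : d / 4 = g * δ := by
      have : d = 4 * (g * δ) := by rw [g2, hδ]; ring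
      omega
    rw [this]; push_cast; rw [cast1 hg, one_mul]
  have hZ : c * e = 8 * v ^ 2 - 4 * v - 8 * δ ^ 2 + 8 * ρ * (ρ + 1) * (4 * w + 1) ^ 2 + 40 * w ^ 2 + 20 * w + 3 := by
    have : 2 * (c * e) = 2 * (8 * v ^ 2 - 4 * v - 8 * δ ^ 2 + 8 * ρ * (ρ + 1) * (4 * w + 1) ^ 2 + 40 * w ^ 2 + 20 * w + 3) := by rw [g5, hDρ, hv, hw, hδ]; ring
    linarith
  have hxe := xe_eq g1 g4 g5
  obtain ⟨Q, hQ⟩ : ∃ Q : ℤ, Q = 2 * ρ * (ρ + 1) * (4 * w + 1) ^ 2 + 10 * w ^ 2 + 5 * w - 2 * δ ^ 2 - 2 * v ^ 2 + v := ⟨_, rfl⟩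
  have hQ2 : Q % 2 = 1 := by
    have h1 : 2 * (x * e) = 2 * (4 * Q + 2) := by
      rw [hxe, hDρ, hv, hw, hδ, hQ]; ring
    have h2 : x * e = 4 * Q + 2 := by linarith
    have h3 := hxo.two hx2
    obtain ⟨x8, hx8⟩ : ∃ x8, x = 8 * x8 + 2 := ⟨x / 8, by omega⟩
    obtain ⟨e4, he4⟩ : ∃ e4, e = 4 * e4 + 3 := ⟨e / 4, by omega⟩
    have h4 : x * e = 8 * (4 * x8 * e4 + 3 * x8 + e4) + 6 := by rw [hx8, he4]; ring
    omega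
  have hz := odd_z hQ2
  rw [hQ] at hz
  have sre : (⟨-(c * e), -(m * d')⟩ : ZI).re = 1 - 2 * (-2 * δ * (4 * v - 1)) + 4 * (-2 * v ^ 2 + v + 2 * δ ^ 2 - 2 * ρ * (ρ + 1) * (4 * w + 1) ^ 2 - 10 * w ^ 2 - 5 * w - 1 + δ - 4 * v * δ) := by
    show -(c * e) = _
    rw [hZ]; ring
  have sim : (⟨-(c * e), -(m * d')⟩ : ZI).im = 2 * (-2 * δ * (4 * v - 1)) := by
    show -(m * d') = _
    rw [hv, hδ]; ring
  obtain ⟨nq, hnq⟩ : ∃ nq : ℤ, nq = (2 * ρ + 1) * (4 * w + 1) + 2 * δ := ⟨_, rfl⟩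
  obtain ⟨np, hnp⟩ : ∃ np : ℤ, np = v + 4 * ρ * w + ρ + 2 * w + δ := ⟨_, rfl⟩
  have nre : (⟨1 - 2 * nq + 4 * np, 2 * nq⟩ : ZI).re = 1 - 2 * nq + 4 * np := rfl
  have nim : (⟨1 - 2 * nq + 4 * np, 2 * nq⟩ : ZI).im = 2 * nq := rfl
  have yre : (⟨y', 0⟩ : ZI).re = 1 - 2 * 0 + 4 * w := by
    show y' = _
    rw [hw]; ring
  have yim : (⟨y', 0⟩ : ZI).im = 2 * 0 := rfl
  have i1 := Iz_param sre sim
  have i2 := Wz_param sre sim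
  have i3 := Iz_param nre nim
  have i4 := Wz_param nre nim
  have i5 := Iz_param yre yim
  have i6 := Wz_param yre yim
  obtain ⟨r1, r2⟩ := main0 (a := 0) (kν := 2) (kP := 1) (β := 0) (kY := 3)
    (S := ⟨-(c * e), -(m * d')⟩) (N := ⟨1 - 2 * nq + 4 * np, 2 * nq⟩) (Y0 := ⟨y', 0⟩) (κ := 1)
    hp hx (by omega) (by omega) hy0 (Or.inl rfl) hD g1 g2 g3 g4 g5 g6 (by omega) (prim_of sre sim)
    (Or.inr (by ext <;> simp))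
    (prim_of nre nim) (prim_of yre yim)
    (by
      have : p1 ^ 2 * im1 ^ 1 = (⟨-2, 0⟩ : ZI) := by decide
      rw [this]
      ext
      · simp
      · simp; ring)
    (by
      have : p1 ^ 0 * im1 ^ 2 = (⟨-1, 0⟩ : ZI) := by decide
      rw [this, hv, hw, hnq, hnp, hδ, hbb]
      ext
      · simp; ring
      · simp; ring)
    Y_i
  rw [r1 rfl]
  congr 2
  unfold Fo
  have hfin : ((ρ + 1 + d / 4 : ℤ) : ZMod 4) = (ρ + 1 + δ : ZMod 4) := by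
    rw [Int.cast_add, hdz]
    push_cast; rfl
  rw [i1, i2, i3, i4, i5, i6, hfin, hnq, hnp]
  push_cast at hz ⊢
  generalize (v : ZMod 4) = v at hz ⊢
  generalize (w : ZMod 4) = w at hz ⊢
  generalize (ρ : ZMod 4) = ρ at hz ⊢
  generalize (δ : ZMod 4) = δ at hz ⊢
  revert v w ρ δ
  decide +kernel

/-- `x` even, `4 ∣ x`, `b ≡ 4 (mod 8)` -/
theorem caseD4 {p : ℕ} [Fact p.Prime] {c d x y D bb ρ : ℤ} (hp : (p : ℤ) = c ^ 2 + d ^ 2)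
    (hx : (p : ℤ) = x ^ 2 + D * y ^ 2) (hc : c % 4 = 1) (hdo : OddPartOne d) (hxo : OddPartOne x)
    (hx2 : x % 4 = 0) (hy : y % 4 = 1) (hD : D = bb ^ 2 + 1) (hbb : bb = 4 * ρ + 2) :
    (p : ℤ) % 8 = 5 ∧
    ((bb : ZMod p) + x * rt p c d / y) ^ (p / 4) =
      rt p c d ^ (1 + 2 * ((ρ + x / 4 : ℤ) : ZMod 4)).val := by
  have hy0 : y ≠ 0 := by omega
  have hDρ : D = 16 * ρ * (ρ + 1) + 5 := by rw [hD, hbb]; ring
  have h8 : (p : ℤ) % 8 = 5 := by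
    have h1 := sq_odd (a := y) (by omega)
    have h3 := sq_four hx2
    obtain ⟨k, hk⟩ : ∃ k, y ^ 2 = 8 * k + 1 := ⟨y ^ 2 / 8, by omega⟩
    have h2 : D * y ^ 2 = 8 * (D * k + (16 * ρ * (ρ + 1) + 5 - 5) / 8) + 5 := by
      have h4 : (16 * ρ * (ρ + 1) + 5 - 5) % 8 = 0 := by
        ring_nf; omega
      rw [hk]
      have h5 : D = 8 * ((16 * ρ * (ρ + 1) + 5 - 5) / 8) + 5 := by rw [← hDρ] at h4 ⊢; omega
      have h6 : D * (8 * k + 1) = 8 * (D * k) + D := by ring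
      rw [h6]; omega
    rw [hx, h2]; omega
  have hd := d_two hp hc h8
  have hd8 := hdo.two hd
  refine ⟨h8, ?_⟩
  obtain ⟨g, m, d', y', e, hg, g1, g2, g3, g4, g5, g6⟩ := red0 hp hx (by omega)
  have hm : m % 4 = 1 := by rw [mod_of_mul g1 hg]; omega
  have he : e % 4 = 1 := by rw [mod_of_mul g4 hg]; omega
  have hy' : y' % 4 = 1 := by rw [mod_of_mul g3 hg]; omega
  obtain ⟨v, hv⟩ : ∃ v, m = 4 * v + 1 := ⟨m / 4, by omega⟩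
  obtain ⟨w, hw⟩ : ∃ w, y' = 4 * w + 1 := ⟨y' / 4, by omega⟩
  have hd' : d' % 4 = 2 := by rw [mod_of_mul g2 hg]; omega
  obtain ⟨td, d0, hd1, hd2⟩ := hdo.div hg g2
  have htd := pow_one_of hd' hd1 hd2
  obtain ⟨δ, hδ⟩ : ∃ δ, d' = 8 * δ + 2 := ⟨d' / 8, by rw [htd, pow_one] at hd1; omega⟩
  have hZ : c * e = 8 * v ^ 2 + 4 * v - 32 * δ ^ 2 - 16 * δ + 8 * ρ * (ρ + 1) * (4 * w + 1) ^ 2 + 40 * w ^ 2 + 20 * w + 1 := by
    have : 2 * (c * e) = 2 * (8 * v ^ 2 + 4 * v - 32 * δ ^ 2 - 16 * δ + 8 * ρ * (ρ + 1) * (4 * w + 1) ^ 2 + 40 * w ^ 2 + 20 * w + 1) := by rw [g5, hDρ, hv, hw, hδ]; ring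
    linarith
  have hxe := xe_eq g1 g4 g5
  obtain ⟨x4, hx4⟩ : ∃ x4, x = 4 * x4 := ⟨x / 4, by omega⟩
  have hxz : (x4 : ZMod 4) = ((2 * ρ * (ρ + 1) * (4 * w + 1) ^ 2 + 10 * w ^ 2 + 5 * w - 8 * δ ^ 2 - 4 * δ - 2 * v ^ 2 - v : ℤ) : ZMod 4) := by
    have h1 : x4 * e = 2 * ρ * (ρ + 1) * (4 * w + 1) ^ 2 + 10 * w ^ 2 + 5 * w - 8 * δ ^ 2 - 4 * δ - 2 * v ^ 2 - v := by
      have : 8 * (x4 * e) = 8 * (2 * ρ * (ρ + 1) * (4 * w + 1) ^ 2 + 10 * w ^ 2 + 5 * w - 8 * δ ^ 2 - 4 * δ - 2 * v ^ 2 - v) := by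
        have h2 : 8 * (x4 * e) = 2 * (x * e) := by rw [hx4]; ring
        rw [h2, hxe, hDρ, hv, hw, hδ]; ring
      linarith
    have h2 := congrArg (Int.cast : ℤ → ZMod 4) h1
    rw [Int.cast_mul, cast1 he, mul_one] at h2
    exact h2
  have sre : (⟨-(c * e), -(m * d')⟩ : ZI).re = 1 - 2 * (-(4 * v + 1) * (4 * δ + 1)) + 4 * (-2 * v ^ 2 - 3 * v + 8 * δ ^ 2 + 2 * δ - 2 * ρ * (ρ + 1) * (4 * w + 1) ^ 2 - 10 * w ^ 2 - 5 * w - 1 - 8 * v * δ) := by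
    show -(c * e) = _
    rw [hZ]; ring
  have sim : (⟨-(c * e), -(m * d')⟩ : ZI).im = 2 * (-(4 * v + 1) * (4 * δ + 1)) := by
    show -(m * d') = _
    rw [hv, hδ]; ring
  obtain ⟨nq, hnq⟩ : ∃ nq : ℤ, nq = 2 * (4 * ρ * w + ρ + 2 * w + 2 * δ + 1) := ⟨_, rfl⟩
  obtain ⟨np, hnp⟩ : ∃ np : ℤ, np = v + 4 * ρ * w + ρ + 2 * w + 2 * δ + 1 := ⟨_, rfl⟩
  have nre : (⟨1 - 2 * nq + 4 * np, 2 * nq⟩ : ZI).re = 1 - 2 * nq + 4 * np := rfl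
  have nim : (⟨1 - 2 * nq + 4 * np, 2 * nq⟩ : ZI).im = 2 * nq := rfl
  have yre : (⟨y', 0⟩ : ZI).re = 1 - 2 * 0 + 4 * w := by
    show y' = _
    rw [hw]; ring
  have yim : (⟨y', 0⟩ : ZI).im = 2 * 0 := rfl
  have i1 := Iz_param sre sim
  have i2 := Wz_param sre sim
  have i3 := Iz_param nre nim
  have i4 := Wz_param nre nim
  have i5 := Iz_param yre yim
  have i6 := Wz_param yre yim
  obtain ⟨r1, r2⟩ := main0 (a := 0) (kν := 2) (kP := 1) (β := 0) (kY := 3)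
    (S := ⟨-(c * e), -(m * d')⟩) (N := ⟨1 - 2 * nq + 4 * np, 2 * nq⟩) (Y0 := ⟨y', 0⟩) (κ := 1)
    hp hx (by omega) (by omega) hy0 (Or.inl rfl) hD g1 g2 g3 g4 g5 g6 (by omega) (prim_of sre sim)
    (Or.inr (by ext <;> simp))
    (prim_of nre nim) (prim_of yre yim)
    (by
      have : p1 ^ 2 * im1 ^ 1 = (⟨-2, 0⟩ : ZI) := by decide
      rw [this]
      ext
      · simp
      · simp; ring)
    (by
      have : p1 ^ 0 * im1 ^ 2 = (⟨-1, 0⟩ : ZI) := by decide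
      rw [this, hv, hw, hnq, hnp, hδ, hbb]
      ext
      · simp; ring
      · simp; ring)
    Y_i
  rw [r1 rfl]
  congr 2
  unfold Fo
  have hfin : ((ρ + x / 4 : ℤ) : ZMod 4) = ρ + ((2 * ρ * (ρ + 1) * (4 * w + 1) ^ 2 + 10 * w ^ 2 + 5 * w - 8 * δ ^ 2 - 4 * δ - 2 * v ^ 2 - v : ℤ) : ZMod 4) := by
    have h1 : x / 4 = x4 := by omega
    rw [h1, Int.cast_add, hxz]
  rw [i1, i2, i3, i4, i5, i6, hfin, hnq, hnp]
  push_cast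
  generalize (v : ZMod 4) = v
  generalize (w : ZMod 4) = w
  generalize (ρ : ZMod 4) = ρ
  generalize (δ : ZMod 4) = δ
  revert v w ρ δ
  decide +kernel

end Pool.Agent.V11294.Lu
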