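import Pool.Agent.V11294.Lu.CaseD

/-!
# `x` even, `y` odd
-/

set_option autoImplicit false
set_option linter.unusedSectionVars false

open H385 (ZI RQ im1 nrm)

namespace Pool.Agent.V11294.Lu

open Pool.Agent.Y699
open Pool.Agent.H304R2.EC.A1 (prim prim_norm_odd norm_def' re_mul' im_mul')


/-- `b` odd, `2 ∥ x`, `b ≡ 1 (mod 4)` -/
theorem caseE1 {p : ℕ} [Fact p.Prime] {c d x y D bb ρ : ℤ} (hp : (p : ℤ) = c ^ 2 + d ^ 2)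
    (hx : (p : ℤ) = x ^ 2 + D * y ^ 2) (hc : c % 4 = 1) (hdo : OddPartOne d) (hxo : OddPartOne x)
    (hx2 : x % 4 = 2) (hy : y % 4 = 1) (hD : D = bb ^ 2 + 4) (hbb : bb = 4 * ρ + 1) :
    d % 4 = 0 ∧ (p : ℤ) % 8 = 1 ∧
    (((bb : ZMod p) + x * rt p c d / y) / 2) ^ (p / 4) =
      rt p c d ^ (1 + 2 * ((ρ + d / 4 : ℤ) : ZMod 4)).val := by
  have hy0 : y ≠ 0 := by omega
  have hDρ : D = 8 * (ρ * (2 * ρ + 1)) + 5 := by rw [hD, hbb]; ring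
  have h8 : (p : ℤ) % 8 = 1 := by
    have h1 := sq_odd (a := y) (by omega)
    have h3 := sq_two hx2
    obtain ⟨k, hk⟩ : ∃ k, y ^ 2 = 8 * k + 1 := ⟨y ^ 2 / 8, by omega⟩
    have h2 : D * y ^ 2 = 8 * (D * k + (8 * (ρ * (2 * ρ + 1)) + 5 - 5) / 8) + 5 := by
      have h4 : (8 * (ρ * (2 * ρ + 1)) + 5 - 5) % 8 = 0 := by
        ring_nf; omega
      rw [hk]
      have h5 : D = 8 * ((8 * (ρ * (2 * ρ + 1)) + 5 - 5) / 8) + 5 := by rw [← hDρ] at h4 ⊢; omega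
      have h6 : D * (8 * k + 1) = 8 * (D * k) + D := by ring
      rw [h6]; omega
    rw [hx, h2]; omega
  have hd := d_four hp hc h8
  refine ⟨hd, h8, ?_⟩
  obtain ⟨g, m, d', y', e, hg, g1, g2, g3, g4, g5, g6⟩ := red0 hp hx (by omega)
  have hm : m % 4 = 3 := by rw [mod_of_mul g1 hg]; omega
  have he : e % 4 = 3 := by rw [mod_of_mul g4 hg]; omega
  have hy' : y' % 4 = 1 := by rw [mod_of_mul g3 hg]; omega
  obtain ⟨v, hv⟩ : ∃ v, m = 4 * v - 1 := ⟨m / 4 + 1, by omega⟩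
  obtain ⟨w, hw⟩ : ∃ w, y' = 4 * w + 1 := ⟨y' / 4, by omega⟩
  have hd' : d' % 4 = 0 := by rw [mod_of_mul g2 hg]; omega
  obtain ⟨δ, hδ⟩ : ∃ δ, d' = 4 * δ := ⟨d' / 4, by omega⟩
  have hdz : ((d / 4 : ℤ) : ZMod 4) = δ := by
    have : d / 4 = g * δ := by
      have : d = 4 * (g * δ) := by rw [g2, hδ]; ring
      omega
    rw [this]; push_cast; rw [cast1 hg, one_mul]
  have hZ : c * e = 8 * v ^ 2 - 4 * v - 8 * δ ^ 2 + 4 * (ρ * (2 * ρ + 1)) * (4 * w + 1) ^ 2 + 40 * w ^ 2 + 20 * w + 3 := by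
    have : 2 * (c * e) = 2 * (8 * v ^ 2 - 4 * v - 8 * δ ^ 2 + 4 * (ρ * (2 * ρ + 1)) * (4 * w + 1) ^ 2 + 40 * w ^ 2 + 20 * w + 3) := by rw [g5, hDρ, hv, hw, hδ]; ring
    linarith
  have hxe := xe_eq g1 g4 g5
  obtain ⟨Q, hQ⟩ : ∃ Q : ℤ, Q = (ρ * (2 * ρ + 1)) * (4 * w + 1) ^ 2 + 10 * w ^ 2 + 5 * w - 2 * δ ^ 2 - 2 * v ^ 2 + v := ⟨_, rfl⟩
  have hQ2 : Q % 2 = 1 := by
    have h1 : 2 * (x * e) = 2 * (4 * Q + 2) := by
      rw [hxe, hDρ, hv, hw, hδ, hQ]; ring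
    have h2 : x * e = 4 * Q + 2 := by linarith
    have h3 := hxo.two hx2
    obtain ⟨x8, hx8⟩ : ∃ x8, x = 8 * x8 + 2 := ⟨x / 8, by omega⟩
    obtain ⟨e4, he4⟩ : ∃ e4, e = 4 * e4 + 3 := ⟨e / 4, by omega⟩
    have h4 : x * e = 8 * (4 * x8 * e4 + 3 * x8 + e4) + 6 := by rw [hx8, he4]; ring
    omega
  have hz := odd_z hQ2
  rw [hQ] at hz
  have sre : (⟨-(c * e), -(m * d')⟩ : ZI).re = 1 - 2 * (-2 * δ * (4 * v - 1)) + 4 * (-2 * v ^ 2 + v + 2 * δ ^ 2 - (ρ * (2 * ρ + 1)) * (4 * w + 1) ^ 2 - 10 * w ^ 2 - 5 * w - 1 + δ - 4 * v * δ) := by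
    show -(c * e) = _
    rw [hZ]; ring
  have sim : (⟨-(c * e), -(m * d')⟩ : ZI).im = 2 * (-2 * δ * (4 * v - 1)) := by
    show -(m * d') = _
    rw [hv, hδ]; ring
  obtain ⟨nq, hnq⟩ : ∃ nq : ℤ, nq = -(v + 4 * ρ * w + ρ + w + δ) := ⟨_, rfl⟩
  obtain ⟨np, hnp⟩ : ∃ np : ℤ, np = -v := ⟨_, rfl⟩
  have nre : (⟨1 - 2 * nq + 4 * np, 2 * nq⟩ : ZI).re = 1 - 2 * nq + 4 * np := rfl
  have nim : (⟨1 - 2 * nq + 4 * np, 2 * nq⟩ : ZI).im = 2 * nq := rfl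
  have yre : (⟨y', 0⟩ : ZI).re = 1 - 2 * 0 + 4 * w := by
    show y' = _
    rw [hw]; ring
  have yim : (⟨y', 0⟩ : ZI).im = 2 * 0 := rfl
  have i1 := Iz_param sre sim
  have i2 := Wz_param sre sim
  have i3 := Iz_param nre nim
  have i4 := Wz_param nre nim
  have i5 := Iz_param yre yim
  have i6 := Wz_param yre yim
  obtain ⟨r1, r2⟩ := main0 (a := 1) (kν := 3) (kP := 1) (β := 0) (kY := 3)
    (S := ⟨-(c * e), -(m * d')⟩) (N := ⟨1 - 2 * nq + 4 * np, 2 * nq⟩) (Y0 := ⟨y', 0⟩) (κ := 4)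
    hp hx (by omega) (by omega) hy0 (Or.inr rfl) hD g1 g2 g3 g4 g5 g6 (by omega) (prim_of sre sim)
    (Or.inr (by ext <;> simp))
    (prim_of nre nim) (prim_of yre yim)
    (by
      have : p1 ^ 2 * im1 ^ 1 = (⟨-2, 0⟩ : ZI) := by decide
      rw [this]
      ext
      · simp
      · simp; ring)
    (by
      have : p1 ^ 1 * im1 ^ 3 = (⟨1, -1⟩ : ZI) := by decide
      rw [this, hv, hw, hnq, hnp, hδ, hbb]
      ext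
      · simp; ring
      · simp; ring)
    Y_i
  rw [r2 rfl]
  congr 2
  unfold Fo
  have hfin : ((ρ + d / 4 : ℤ) : ZMod 4) = (ρ + δ : ZMod 4) := by
    rw [Int.cast_add, hdz]
  rw [i1, i2, i3, i4, i5, i6, hfin, hnq, hnp]
  push_cast at hz ⊢
  generalize (v : ZMod 4) = v at hz ⊢
  generalize (w : ZMod 4) = w at hz ⊢
  generalize (ρ : ZMod 4) = ρ at hz ⊢
  generalize (δ : ZMod 4) = δ at hz ⊢
  revert v w ρ δ
  decide +kernel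

/-- `b` odd, `2 ∥ x`, `b ≡ 3 (mod 4)` -/
theorem caseE2 {p : ℕ} [Fact p.Prime] {c d x y D bb ρ : ℤ} (hp : (p : ℤ) = c ^ 2 + d ^ 2)
    (hx : (p : ℤ) = x ^ 2 + D * y ^ 2) (hc : c % 4 = 1) (hdo : OddPartOne d) (hxo : OddPartOne x)
    (hx2 : x % 4 = 2) (hy : y % 4 = 1) (hD : D = bb ^ 2 + 4) (hbb : bb = 4 * ρ + 3) :
    d % 4 = 0 ∧ (p : ℤ) % 8 = 1 ∧
    (((bb : ZMod p) + x * rt p c d / y) / 2) ^ (p / 4) =
      rt p c d ^ (1 + 2 * ((ρ + d / 4 : ℤ) : ZMod 4)).val := by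
  have hy0 : y ≠ 0 := by omega
  have hDρ : D = 8 * ((2 * ρ + 1) * (ρ + 1)) + 5 := by rw [hD, hbb]; ring
  have h8 : (p : ℤ) % 8 = 1 := by
    have h1 := sq_odd (a := y) (by omega)
    have h3 := sq_two hx2
    obtain ⟨k, hk⟩ : ∃ k, y ^ 2 = 8 * k + 1 := ⟨y ^ 2 / 8, by omega⟩
    have h2 : D * y ^ 2 = 8 * (D * k + (8 * ((2 * ρ + 1) * (ρ + 1)) + 5 - 5) / 8) + 5 := by
      have h4 : (8 * ((2 * ρ + 1) * (ρ + 1)) + 5 - 5) % 8 = 0 := by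
        ring_nf; omega
      rw [hk]
      have h5 : D = 8 * ((8 * ((2 * ρ + 1) * (ρ + 1)) + 5 - 5) / 8) + 5 := by rw [← hDρ] at h4 ⊢; omega
      have h6 : D * (8 * k + 1) = 8 * (D * k) + D := by ring
      rw [h6]; omega
    rw [hx, h2]; omega
  have hd := d_four hp hc h8
  refine ⟨hd, h8, ?_⟩
  obtain ⟨g, m, d', y', e, hg, g1, g2, g3, g4, g5, g6⟩ := red0 hp hx (by omega)
  have hm : m % 4 = 3 := by rw [mod_of_mul g1 hg]; omega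
  have he : e % 4 = 3 := by rw [mod_of_mul g4 hg]; omega
  have hy' : y' % 4 = 1 := by rw [mod_of_mul g3 hg]; omega
  obtain ⟨v, hv⟩ : ∃ v, m = 4 * v - 1 := ⟨m / 4 + 1, by omega⟩
  obtain ⟨w, hw⟩ : ∃ w, y' = 4 * w + 1 := ⟨y' / 4, by omega⟩
  have hd' : d' % 4 = 0 := by rw [mod_of_mul g2 hg]; omega
  obtain ⟨δ, hδ⟩ : ∃ δ, d' = 4 * δ := ⟨d' / 4, by omega⟩
  have hdz : ((d / 4 : ℤ) : ZMod 4) = δ := by
    have : d / 4 = g * δ := by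
      have : d = 4 * (g * δ) := by rw [g2, hδ]; ring
      omega
    rw [this]; push_cast; rw [cast1 hg, one_mul]
  have hZ : c * e = 8 * v ^ 2 - 4 * v - 8 * δ ^ 2 + 4 * ((2 * ρ + 1) * (ρ + 1)) * (4 * w + 1) ^ 2 + 40 * w ^ 2 + 20 * w + 3 := by
    have : 2 * (c * e) = 2 * (8 * v ^ 2 - 4 * v - 8 * δ ^ 2 + 4 * ((2 * ρ + 1) * (ρ + 1)) * (4 * w + 1) ^ 2 + 40 * w ^ 2 + 20 * w + 3) := by rw [g5, hDρ, hv, hw, hδ]; ring
    linarith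
  have hxe := xe_eq g1 g4 g5
  obtain ⟨Q, hQ⟩ : ∃ Q : ℤ, Q = ((2 * ρ + 1) * (ρ + 1)) * (4 * w + 1) ^ 2 + 10 * w ^ 2 + 5 * w - 2 * δ ^ 2 - 2 * v ^ 2 + v := ⟨_, rfl⟩
  have hQ2 : Q % 2 = 1 := by
    have h1 : 2 * (x * e) = 2 * (4 * Q + 2) := by
      rw [hxe, hDρ, hv, hw, hδ, hQ]; ring
    have h2 : x * e = 4 * Q + 2 := by linarith
    have h3 := hxo.two hx2
    obtain ⟨x8, hx8⟩ : ∃ x8, x = 8 * x8 + 2 := ⟨x / 8, by omega⟩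
    obtain ⟨e4, he4⟩ : ∃ e4, e = 4 * e4 + 3 := ⟨e / 4, by omega⟩
    have h4 : x * e = 8 * (4 * x8 * e4 + 3 * x8 + e4) + 6 := by rw [hx8, he4]; ring
    omega
  have hz := odd_z hQ2
  rw [hQ] at hz
  have sre : (⟨-(c * e), -(m * d')⟩ : ZI).re = 1 - 2 * (-2 * δ * (4 * v - 1)) + 4 * (-2 * v ^ 2 + v + 2 * δ ^ 2 - ((2 * ρ + 1) * (ρ + 1)) * (4 * w + 1) ^ 2 - 10 * w ^ 2 - 5 * w - 1 + δ - 4 * v * δ) := by
    show -(c * e) = _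
    rw [hZ]; ring
  have sim : (⟨-(c * e), -(m * d')⟩ : ZI).im = 2 * (-2 * δ * (4 * v - 1)) := by
    show -(m * d') = _
    rw [hv, hδ]; ring
  obtain ⟨nq, hnq⟩ : ∃ nq : ℤ, nq = -4 * ρ * w - 3 * w - ρ - 1 - δ + v := ⟨_, rfl⟩
  obtain ⟨np, hnp⟩ : ∃ np : ℤ, np = -4 * ρ * w - 3 * w - ρ - 1 - δ := ⟨_, rfl⟩
  have nre : (⟨1 - 2 * nq + 4 * np, 2 * nq⟩ : ZI).re = 1 - 2 * nq + 4 * np := rfl
  have nim : (⟨1 - 2 * nq + 4 * np, 2 * nq⟩ : ZI).im = 2 * nq := rfl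
  have yre : (⟨y', 0⟩ : ZI).re = 1 - 2 * 0 + 4 * w := by
    show y' = _
    rw [hw]; ring
  have yim : (⟨y', 0⟩ : ZI).im = 2 * 0 := rfl
  have i1 := Iz_param sre sim
  have i2 := Wz_param sre sim
  have i3 := Iz_param nre nim
  have i4 := Wz_param nre nim
  have i5 := Iz_param yre yim
  have i6 := Wz_param yre yim
  obtain ⟨r1, r2⟩ := main0 (a := 1) (kν := 0) (kP := 1) (β := 0) (kY := 3)
    (S := ⟨-(c * e), -(m * d')⟩) (N := ⟨1 - 2 * nq + 4 * np, 2 * nq⟩) (Y0 := ⟨y', 0⟩) (κ := 4)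
    hp hx (by omega) (by omega) hy0 (Or.inr rfl) hD g1 g2 g3 g4 g5 g6 (by omega) (prim_of sre sim)
    (Or.inr (by ext <;> simp))
    (prim_of nre nim) (prim_of yre yim)
    (by
      have : p1 ^ 2 * im1 ^ 1 = (⟨-2, 0⟩ : ZI) := by decide
      rw [this]
      ext
      · simp
      · simp; ring)
    (by
      have : p1 ^ 1 * im1 ^ 0 = (⟨1, 1⟩ : ZI) := by decide
      rw [this, hv, hw, hnq, hnp, hδ, hbb]
      ext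
      · simp; ring
      · simp; ring)
    Y_i
  rw [r2 rfl]
  congr 2
  unfold Fo
  have hfin : ((ρ + d / 4 : ℤ) : ZMod 4) = (ρ + δ : ZMod 4) := by
    rw [Int.cast_add, hdz]
  rw [i1, i2, i3, i4, i5, i6, hfin, hnq, hnp]
  push_cast at hz ⊢
  generalize (v : ZMod 4) = v at hz ⊢
  generalize (w : ZMod 4) = w at hz ⊢
  generalize (ρ : ZMod 4) = ρ at hz ⊢
  generalize (δ : ZMod 4) = δ at hz ⊢
  revert v w ρ δ
  decide +kernel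

/-- `b` odd, `4 ∣ x`, `b ≡ 1 (mod 4)` -/
theorem caseE3 {p : ℕ} [Fact p.Prime] {c d x y D bb ρ : ℤ} (hp : (p : ℤ) = c ^ 2 + d ^ 2)
    (hx : (p : ℤ) = x ^ 2 + D * y ^ 2) (hc : c % 4 = 1) (hdo : OddPartOne d) (hxo : OddPartOne x)
    (hx2 : x % 4 = 0) (hy : y % 4 = 1) (hD : D = bb ^ 2 + 4) (hbb : bb = 4 * ρ + 1) :
    (p : ℤ) % 8 = 5 ∧
    (((bb : ZMod p) + x * rt p c d / y) / 2) ^ (p / 4) =
      rt p c d ^ (1 + 2 * ((ρ + 1 + x / 4 : ℤ) : ZMod 4)).val := by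
  have hy0 : y ≠ 0 := by omega
  have hDρ : D = 8 * (ρ * (2 * ρ + 1)) + 5 := by rw [hD, hbb]; ring
  have h8 : (p : ℤ) % 8 = 5 := by
    have h1 := sq_odd (a := y) (by omega)
    have h3 := sq_four hx2
    obtain ⟨k, hk⟩ : ∃ k, y ^ 2 = 8 * k + 1 := ⟨y ^ 2 / 8, by omega⟩
    have h2 : D * y ^ 2 = 8 * (D * k + (8 * (ρ * (2 * ρ + 1)) + 5 - 5) / 8) + 5 := by
      have h4 : (8 * (ρ * (2 * ρ + 1)) + 5 - 5) % 8 = 0 := by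
        ring_nf; omega
      rw [hk]
      have h5 : D = 8 * ((8 * (ρ * (2 * ρ + 1)) + 5 - 5) / 8) + 5 := by rw [← hDρ] at h4 ⊢; omega
      have h6 : D * (8 * k + 1) = 8 * (D * k) + D := by ring
      rw [h6]; omega
    rw [hx, h2]; omega
  have hd := d_two hp hc h8
  have hd8 := hdo.two hd
  refine ⟨h8, ?_⟩
  obtain ⟨g, m, d', y', e, hg, g1, g2, g3, g4, g5, g6⟩ := red0 hp hx (by omega)
  have hm : m % 4 = 1 := by rw [mod_of_mul g1 hg]; omega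
  have he : e % 4 = 1 := by rw [mod_of_mul g4 hg]; omega
  have hy' : y' % 4 = 1 := by rw [mod_of_mul g3 hg]; omega
  obtain ⟨v, hv⟩ : ∃ v, m = 4 * v + 1 := ⟨m / 4, by omega⟩
  obtain ⟨w, hw⟩ : ∃ w, y' = 4 * w + 1 := ⟨y' / 4, by omega⟩
  have hd' : d' % 4 = 2 := by rw [mod_of_mul g2 hg]; omega
  obtain ⟨td, d0, hd1, hd2⟩ := hdo.div hg g2
  have htd := pow_one_of hd' hd1 hd2
  obtain ⟨δ, hδ⟩ : ∃ δ, d' = 8 * δ + 2 := ⟨d' / 8, by rw [htd, pow_one] at hd1; omega⟩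
  have hZ : c * e = 8 * v ^ 2 + 4 * v - 32 * δ ^ 2 - 16 * δ + 4 * (ρ * (2 * ρ + 1)) * (4 * w + 1) ^ 2 + 40 * w ^ 2 + 20 * w + 1 := by
    have : 2 * (c * e) = 2 * (8 * v ^ 2 + 4 * v - 32 * δ ^ 2 - 16 * δ + 4 * (ρ * (2 * ρ + 1)) * (4 * w + 1) ^ 2 + 40 * w ^ 2 + 20 * w + 1) := by rw [g5, hDρ, hv, hw, hδ]; ring
    linarith
  have hxe := xe_eq g1 g4 g5
  obtain ⟨x4, hx4⟩ : ∃ x4, x = 4 * x4 := ⟨x / 4, by omega⟩
  have hxz : (x4 : ZMod 4) = (((ρ * (2 * ρ + 1)) * (4 * w + 1) ^ 2 + 10 * w ^ 2 + 5 * w - 8 * δ ^ 2 - 4 * δ - 2 * v ^ 2 - v : ℤ) : ZMod 4) := by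
    have h1 : x4 * e = (ρ * (2 * ρ + 1)) * (4 * w + 1) ^ 2 + 10 * w ^ 2 + 5 * w - 8 * δ ^ 2 - 4 * δ - 2 * v ^ 2 - v := by
      have : 8 * (x4 * e) = 8 * ((ρ * (2 * ρ + 1)) * (4 * w + 1) ^ 2 + 10 * w ^ 2 + 5 * w - 8 * δ ^ 2 - 4 * δ - 2 * v ^ 2 - v) := by
        have h2 : 8 * (x4 * e) = 2 * (x * e) := by rw [hx4]; ring
        rw [h2, hxe, hDρ, hv, hw, hδ]; ring
      linarith
    have h2 := congrArg (Int.cast : ℤ → ZMod 4) h1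
    rw [Int.cast_mul, cast1 he, mul_one] at h2
    exact h2
  have sre : (⟨-(c * e), -(m * d')⟩ : ZI).re = 1 - 2 * (-(4 * v + 1) * (4 * δ + 1)) + 4 * (-2 * v ^ 2 - 3 * v + 8 * δ ^ 2 + 2 * δ - (ρ * (2 * ρ + 1)) * (4 * w + 1) ^ 2 - 10 * w ^ 2 - 5 * w - 1 - 8 * v * δ) := by
    show -(c * e) = _
    rw [hZ]; ring
  have sim : (⟨-(c * e), -(m * d')⟩ : ZI).im = 2 * (-(4 * v + 1) * (4 * δ + 1)) := by
    show -(m * d') = _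
    rw [hv, hδ]; ring
  obtain ⟨nq, hnq⟩ : ∃ nq : ℤ, nq = v + 4 * ρ * w + ρ + w + 2 * δ + 1 := ⟨_, rfl⟩
  obtain ⟨np, hnp⟩ : ∃ np : ℤ, np = v := ⟨_, rfl⟩
  have nre : (⟨1 - 2 * nq + 4 * np, 2 * nq⟩ : ZI).re = 1 - 2 * nq + 4 * np := rfl
  have nim : (⟨1 - 2 * nq + 4 * np, 2 * nq⟩ : ZI).im = 2 * nq := rfl
  have yre : (⟨y', 0⟩ : ZI).re = 1 - 2 * 0 + 4 * w := by
    show y' = _
    rw [hw]; ring
  have yim : (⟨y', 0⟩ : ZI).im = 2 * 0 := rfl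
  have i1 := Iz_param sre sim
  have i2 := Wz_param sre sim
  have i3 := Iz_param nre nim
  have i4 := Wz_param nre nim
  have i5 := Iz_param yre yim
  have i6 := Wz_param yre yim
  obtain ⟨r1, r2⟩ := main0 (a := 1) (kν := 1) (kP := 1) (β := 0) (kY := 3)
    (S := ⟨-(c * e), -(m * d')⟩) (N := ⟨1 - 2 * nq + 4 * np, 2 * nq⟩) (Y0 := ⟨y', 0⟩) (κ := 4)
    hp hx (by omega) (by omega) hy0 (Or.inr rfl) hD g1 g2 g3 g4 g5 g6 (by omega) (prim_of sre sim)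
    (Or.inr (by ext <;> simp))
    (prim_of nre nim) (prim_of yre yim)
    (by
      have : p1 ^ 2 * im1 ^ 1 = (⟨-2, 0⟩ : ZI) := by decide
      rw [this]
      ext
      · simp
      · simp; ring)
    (by
      have : p1 ^ 1 * im1 ^ 1 = (⟨-1, 1⟩ : ZI) := by decide
      rw [this, hv, hw, hnq, hnp, hδ, hbb]
      ext
      · simp; ring
      · simp; ring)
    Y_i
  rw [r2 rfl]
  congr 2
  unfold Fo
  have hfin : ((ρ + 1 + x / 4 : ℤ) : ZMod 4) = ρ + 1 + (((ρ * (2 * ρ + 1)) * (4 * w + 1) ^ 2 + 10 * w ^ 2 + 5 * w - 8 * δ ^ 2 - 4 * δ - 2 * v ^ 2 - v : ℤ) : ZMod 4) := by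
    have h1 : x / 4 = x4 := by omega
    rw [h1, Int.cast_add, Int.cast_add, Int.cast_one, hxz]
  rw [i1, i2, i3, i4, i5, i6, hfin, hnq, hnp]
  push_cast
  generalize (v : ZMod 4) = v
  generalize (w : ZMod 4) = w
  generalize (ρ : ZMod 4) = ρ
  generalize (δ : ZMod 4) = δ
  revert v w ρ δ
  decide +kernel

/-- `b` odd, `4 ∣ x`, `b ≡ 3 (mod 4)` -/
theorem caseE4 {p : ℕ} [Fact p.Prime] {c d x y D bb ρ : ℤ} (hp : (p : ℤ) = c ^ 2 + d ^ 2)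
    (hx : (p : ℤ) = x ^ 2 + D * y ^ 2) (hc : c % 4 = 1) (hdo : OddPartOne d) (hxo : OddPartOne x)
    (hx2 : x % 4 = 0) (hy : y % 4 = 1) (hD : D = bb ^ 2 + 4) (hbb : bb = 4 * ρ + 3) :
    (p : ℤ) % 8 = 5 ∧
    (((bb : ZMod p) + x * rt p c d / y) / 2) ^ (p / 4) =
      rt p c d ^ (1 + 2 * ((ρ + 1 + x / 4 : ℤ) : ZMod 4)).val := by
  have hy0 : y ≠ 0 := by omega
  have hDρ : D = 8 * ((2 * ρ + 1) * (ρ + 1)) + 5 := by rw [hD, hbb]; ring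
  have h8 : (p : ℤ) % 8 = 5 := by
    have h1 := sq_odd (a := y) (by omega)
    have h3 := sq_four hx2
    obtain ⟨k, hk⟩ : ∃ k, y ^ 2 = 8 * k + 1 := ⟨y ^ 2 / 8, by omega⟩
    have h2 : D * y ^ 2 = 8 * (D * k + (8 * ((2 * ρ + 1) * (ρ + 1)) + 5 - 5) / 8) + 5 := by
      have h4 : (8 * ((2 * ρ + 1) * (ρ + 1)) + 5 - 5) % 8 = 0 := by
        ring_nf; omega
      rw [hk]
      have h5 : D = 8 * ((8 * ((2 * ρ + 1) * (ρ + 1)) + 5 - 5) / 8) + 5 := by rw [← hDρ] at h4 ⊢; omega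
      have h6 : D * (8 * k + 1) = 8 * (D * k) + D := by ring
      rw [h6]; omega
    rw [hx, h2]; omega
  have hd := d_two hp hc h8
  have hd8 := hdo.two hd
  refine ⟨h8, ?_⟩
  obtain ⟨g, m, d', y', e, hg, g1, g2, g3, g4, g5, g6⟩ := red0 hp hx (by omega)
  have hm : m % 4 = 1 := by rw [mod_of_mul g1 hg]; omega
  have he : e % 4 = 1 := by rw [mod_of_mul g4 hg]; omega
  have hy' : y' % 4 = 1 := by rw [mod_of_mul g3 hg]; omega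
  obtain ⟨v, hv⟩ : ∃ v, m = 4 * v + 1 := ⟨m / 4, by omega⟩
  obtain ⟨w, hw⟩ : ∃ w, y' = 4 * w + 1 := ⟨y' / 4, by omega⟩
  have hd' : d' % 4 = 2 := by rw [mod_of_mul g2 hg]; omega
  obtain ⟨td, d0, hd1, hd2⟩ := hdo.div hg g2
  have htd := pow_one_of hd' hd1 hd2
  obtain ⟨δ, hδ⟩ : ∃ δ, d' = 8 * δ + 2 := ⟨d' / 8, by rw [htd, pow_one] at hd1; omega⟩
  have hZ : c * e = 8 * v ^ 2 + 4 * v - 32 * δ ^ 2 - 16 * δ + 4 * ((2 * ρ + 1) * (ρ + 1)) * (4 * w + 1) ^ 2 + 40 * w ^ 2 + 20 * w + 1 := by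
    have : 2 * (c * e) = 2 * (8 * v ^ 2 + 4 * v - 32 * δ ^ 2 - 16 * δ + 4 * ((2 * ρ + 1) * (ρ + 1)) * (4 * w + 1) ^ 2 + 40 * w ^ 2 + 20 * w + 1) := by rw [g5, hDρ, hv, hw, hδ]; ring
    linarith
  have hxe := xe_eq g1 g4 g5
  obtain ⟨x4, hx4⟩ : ∃ x4, x = 4 * x4 := ⟨x / 4, by omega⟩
  have hxz : (x4 : ZMod 4) = ((((2 * ρ + 1) * (ρ + 1)) * (4 * w + 1) ^ 2 + 10 * w ^ 2 + 5 * w - 8 * δ ^ 2 - 4 * δ - 2 * v ^ 2 - v : ℤ) : ZMod 4) := by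
    have h1 : x4 * e = ((2 * ρ + 1) * (ρ + 1)) * (4 * w + 1) ^ 2 + 10 * w ^ 2 + 5 * w - 8 * δ ^ 2 - 4 * δ - 2 * v ^ 2 - v := by
      have : 8 * (x4 * e) = 8 * (((2 * ρ + 1) * (ρ + 1)) * (4 * w + 1) ^ 2 + 10 * w ^ 2 + 5 * w - 8 * δ ^ 2 - 4 * δ - 2 * v ^ 2 - v) := by
        have h2 : 8 * (x4 * e) = 2 * (x * e) := by rw [hx4]; ring
        rw [h2, hxe, hDρ, hv, hw, hδ]; ring
      linarith
    have h2 := congrArg (Int.cast : ℤ → ZMod 4) h1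
    rw [Int.cast_mul, cast1 he, mul_one] at h2
    exact h2
  have sre : (⟨-(c * e), -(m * d')⟩ : ZI).re = 1 - 2 * (-(4 * v + 1) * (4 * δ + 1)) + 4 * (-2 * v ^ 2 - 3 * v + 8 * δ ^ 2 + 2 * δ - ((2 * ρ + 1) * (ρ + 1)) * (4 * w + 1) ^ 2 - 10 * w ^ 2 - 5 * w - 1 - 8 * v * δ) := by
    show -(c * e) = _
    rw [hZ]; ring
  have sim : (⟨-(c * e), -(m * d')⟩ : ZI).im = 2 * (-(4 * v + 1) * (4 * δ + 1)) := by
    show -(m * d') = _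
    rw [hv, hδ]; ring
  obtain ⟨nq, hnq⟩ : ∃ nq : ℤ, nq = 4 * ρ * w + 3 * w + ρ + 2 * δ + 1 - v := ⟨_, rfl⟩
  obtain ⟨np, hnp⟩ : ∃ np : ℤ, np = 4 * ρ * w + 3 * w + ρ + 2 * δ + 1 := ⟨_, rfl⟩
  have nre : (⟨1 - 2 * nq + 4 * np, 2 * nq⟩ : ZI).re = 1 - 2 * nq + 4 * np := rfl
  have nim : (⟨1 - 2 * nq + 4 * np, 2 * nq⟩ : ZI).im = 2 * nq := rfl
  have yre : (⟨y', 0⟩ : ZI).re = 1 - 2 * 0 + 4 * w := by
    show y' = _
    rw [hw]; ring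
  have yim : (⟨y', 0⟩ : ZI).im = 2 * 0 := rfl
  have i1 := Iz_param sre sim
  have i2 := Wz_param sre sim
  have i3 := Iz_param nre nim
  have i4 := Wz_param nre nim
  have i5 := Iz_param yre yim
  have i6 := Wz_param yre yim
  obtain ⟨r1, r2⟩ := main0 (a := 1) (kν := 2) (kP := 1) (β := 0) (kY := 3)
    (S := ⟨-(c * e), -(m * d')⟩) (N := ⟨1 - 2 * nq + 4 * np, 2 * nq⟩) (Y0 := ⟨y', 0⟩) (κ := 4)
    hp hx (by omega) (by omega) hy0 (Or.inr rfl) hD g1 g2 g3 g4 g5 g6 (by omega) (prim_of sre sim)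
    (Or.inr (by ext <;> simp))
    (prim_of nre nim) (prim_of yre yim)
    (by
      have : p1 ^ 2 * im1 ^ 1 = (⟨-2, 0⟩ : ZI) := by decide
      rw [this]
      ext
      · simp
      · simp; ring)
    (by
      have : p1 ^ 1 * im1 ^ 2 = (⟨-1, -1⟩ : ZI) := by decide
      rw [this, hv, hw, hnq, hnp, hδ, hbb]
      ext
      · simp; ring
      · simp; ring)
    Y_i
  rw [r2 rfl]
  congr 2
  unfold Fo
  have hfin : ((ρ + 1 + x / 4 : ℤ) : ZMod 4) = ρ + 1 + ((((2 * ρ + 1) * (ρ + 1)) * (4 * w + 1) ^ 2 + 10 * w ^ 2 + 5 * w - 8 * δ ^ 2 - 4 * δ - 2 * v ^ 2 - v : ℤ) : ZMod 4) := by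
    have h1 : x / 4 = x4 := by omega
    rw [h1, Int.cast_add, Int.cast_add, Int.cast_one, hxz]
  rw [i1, i2, i3, i4, i5, i6, hfin, hnq, hnp]
  push_cast
  generalize (v : ZMod 4) = v
  generalize (w : ZMod 4) = w
  generalize (ρ : ZMod 4) = ρ
  generalize (δ : ZMod 4) = δ
  revert v w ρ δ
  decide +kernel

end Pool.Agent.V11294.Lu
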