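import Pool.Agent.V11294.Lu.Link

/-!
# Removing the rational part of the denominator
-/

set_option autoImplicit false
set_option linter.unusedSectionVars false

open H385 (ZI RQ im1 nrm)

namespace Pool.Agent.V11294.Lu

open Pool.Agent.Y699
open Pool.Agent.W164.RC (Ip Ip_spec Ip_exists Ip_one Ip_three dg unit_norm unit_cases)
open Pool.Agent.H304R2.EC.A1 (prim prim_mul prim_cancel prim_one prim_norm_odd prim_star eq_one_of_prim
  norm_def' re_mul' im_mul' eq_of_dvd prim_ne_zero exists_prim)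

variable {s : Multiset ZI}

theorem mem_Rm' {n q : ℕ} (hn : n ≠ 0) (hq : q.Prime) (hqn : q ∣ n) {π : ZI} (h : π ∈ Ip q) : π ∈ Rm n := by
  have key : ∀ L : List ℕ, q ∈ L → π ∈ (L.map (fun q => (Ip q).val)).sum := by
    intro L
    induction L with
    | nil => intro h; simp at h
    | cons a L ih =>
      intro h1
      rw [List.map_cons, List.sum_cons, Multiset.mem_add]
      rcases List.mem_cons.1 h1 with h2 | h2
      · left; rw [← h2]; exact h
      · right; exact ih h2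
  exact key _ ((Nat.mem_primeFactorsList hn).2 ⟨hq, hqn⟩)

theorem Ip_ne {q : ℕ} (hq : q.Prime) (h2 : q ≠ 2) : ∃ π : ZI, π ∈ Ip q ∧ π ∣ (q : ZI) := by
  have ho : q % 2 = 1 := by
    rcases hq.eq_two_or_odd with h | h
    · exact absurd h h2
    · exact h
  by_cases h1 : q % 4 = 1
  · obtain ⟨x, hx, hxp, hxx, hn, hI⟩ := Ip_one hq h1
    refine ⟨x, by rw [hI]; simp, ⟨star x, hxx.symm⟩⟩
  · have h3 : q % 4 = 3 := by omega
    exact ⟨-(q : ZI), by rw [Ip_three h3]; simp, (neg_dvd).2 dvd_rfl⟩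

theorem s4_unit (n : ℤ) : s4 n = 1 ∨ s4 n = -1 := by
  unfold s4; split_ifs <;> simp

theorem prod_Rm_dvd {n : ℕ} (hn : n % 2 = 1) {z : ZI} (h : (n : ZI) ∣ z) : (Rm n).prod ∣ z := by
  rw [prod_Rm hn]
  rcases s4_unit n with h1 | h1 <;> rw [h1]
  · simpa using h
  · have : (((-1 : ℤ) * (n : ℤ) : ℤ) : ZI) = -(n : ZI) := by push_cast; ring
    rw [this]; exact (neg_dvd).2 h

theorem dvd_of_mem_Rm {n : ℕ} {π : ZI} (h : π ∈ Rm n) : π ∣ (n : ZI) := by
  obtain ⟨q, h1, h2, h3⟩ := mem_Rm h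
  exact (Ip_spec h1 h3).2.2.2.trans (Nat.cast_dvd_cast h2)

theorem Rm_rat {n : ℕ} (hn : n % 2 = 1) {w ν : ZI} (hw : w.norm = 1) {i : ℤ} (h : (n : ZI) ∣ ν - w * (i : ZI))
    (hc : Cop (Rm n) ν) : E (Rm n) ν = E (Rm n) w := by
  have hs := PPs_Rm n
  have c0 : Cop (Rm n) (w * (i : ZI)) := by
    intro κ hκ hd
    apply hc κ hκ
    have h1 := (dvd_of_mem_Rm hκ).trans h
    have : ν = (ν - w * (i : ZI)) + w * (i : ZI) := by ring
    rw [this]
    exact dvd_add h1 hd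
  have c1 : Cop (Rm n) w := c0.left
  have c2 : Cop (Rm n) ((i : ℤ) : ZI) := c0.right
  rw [E_per hs (prod_Rm_dvd hn h), E_mul hs c1 c2]
  have e : E (Rm n) ((i : ℤ) : ZI) = 0 := by
    unfold E
    rw [J_Rm, Rs_rat, lg_one]
    intro q hq hqn hqi
    have hq2 : q ≠ 2 := by
      rintro rfl
      omega
    obtain ⟨π, h1, h2⟩ := Ip_ne hq hq2
    apply c2 π (mem_Rm' (by omega) hq hqn h1)
    have h3 := (Int.castRingHom ZI).map_dvd hqi
    have h4 : (q : ZI) ∣ ((i : ℤ) : ZI) := by simpa using h3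
    exact h2.trans h4
  rw [e, add_zero]

/-- the value of the local formula -/
def Fo (a kν kP β kY : ℕ) (S N Y0 : ZI) (u : ZMod 4) : ZMod 4 :=
  (a * Wz S + kν * Iz S + 2 * Iz S * Iz N - 2 * Wz N - kP * Iz N +
        u + 2 * β * Wz N + 2 * kY * Iz N) -
      (β * Wz S + kY * Iz S + 2 * Iz S * Iz Y0 - 2 * Wz Y0 - kP * Iz Y0 +
        2 * a * Wz Y0 + 2 * kν * Iz Y0)

theorem core {z S N Y0 : ZI} (hz : PP z) {n : ℕ} (hn : n % 2 = 1) (hS : S = z * ((s4 n * n : ℤ) : ZI))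
    (hN : prim N) (hY0 : prim Y0)
    {A Y P ν b c v w : ZI} {a β kP kν kY : ℕ} {i j : ℤ}
    (hP : P = A ^ 2 + c * Y) (hν : ν = b * Y - A)
    (hPν : ν ∣ P - v * Y ^ 2) (hv : v = -1 ∨ v = -4)
    (eP : P = p1 ^ 2 * im1 ^ kP * S) (eν : ν = p1 ^ a * im1 ^ kν * N)
    (eY : Y = p1 ^ β * im1 ^ kY * Y0) (hc : ∀ κ, PP κ → κ ∣ A → κ ∣ Y → False)
    (hw : w.norm = 1) (h1 : (n : ZI) ∣ ν - w * (i : ZI)) (h2 : Y = w * (j : ZI)) :
    ¬ z ∣ ν ∧ ¬ z ∣ Y ∧
      lg (q4 z ν) - lg (q4 z Y) = Fo a kν kP β kY S N Y0 (if v = -1 then 2 * Iz N else 0) := by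
  obtain ⟨ns, hns, rfl⟩ := exists_fac hN
  obtain ⟨ys, hys, rfl⟩ := exists_fac hY0
  have hs : PPs (z ::ₘ Rm n) := by
    intro π hπ
    rcases Multiset.mem_cons.1 hπ with h | h
    · rw [h]; exact hz
    · exact PPs_Rm n π h
  have hSp : (z ::ₘ Rm n).prod = S := by
    rw [Multiset.prod_cons, prod_Rm hn, hS]
  have hv' : v.norm = 1 ∨ v = -4 := by
    rcases hv with h | h
    · left; rw [h]; decide
    · right; exact h
  have huv : E ns v = if v = -1 then 2 * Iz ns.prod else 0 := by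
    split_ifs with h
    · rw [h, E_neg_one hns]
    · have h4 : v = p1 ^ 4 := by
        rcases hv with h' | h'
        · exact absurd h' h
        · rw [h']; decide
      rw [h4, E_pow hns (Cop_p1 hns)]
      have : ((4 : ℕ) : ZMod 4) = 0 := by decide
      rw [this, zero_mul]
  obtain ⟨cν, cY, hF⟩ := formula (s := z ::ₘ Rm n) hs hns hys hP hν _ v hPν hv' huv (by rw [hSp]; exact eP) eν eY hc
  rw [hSp] at hF
  refine ⟨cν.cons.1, cY.cons.1, ?_⟩
  rw [E_cons hz (PPs_Rm n) cν.cons.1 cν.cons.2, E_cons hz (PPs_Rm n) cY.cons.1 cY.cons.2,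
    Rm_rat hn hw h1 cν.cons.2, Rm_rat (i := j) hn hw (by rw [h2, sub_self]; exact dvd_zero _) cY.cons.2] at hF
  unfold Fo
  rw [← hF]
  ring

/-- the symbol of `2` -/
theorem core_two {z S : ZI} (hz : PP z) {n : ℕ} (hn : n % 2 = 1) (hS : S = z * ((s4 n * n : ℤ) : ZI)) :
    ¬ z ∣ 2 ∧ lg (q4 z 2) = 3 * Iz S + 2 * Wz S := by
  have hs : PPs (z ::ₘ Rm n) := by
    intro π hπ
    rcases Multiset.mem_cons.1 hπ with h | h
    · rw [h]; exact hz
    · exact PPs_Rm n π h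
  have hSp : (z ::ₘ Rm n).prod = S := by
    rw [Multiset.prod_cons, prod_Rm hn, hS]
  have e2 : (2 : ZI) = p1 ^ 2 * im1 ^ 3 * 1 := by decide
  obtain ⟨c2, h2⟩ := E_expand hs e2 (Cop.unit hs (by decide))
  rw [E_one hs, hSp] at h2
  refine ⟨c2.cons.1, ?_⟩
  rw [E_cons hz (PPs_Rm n) c2.cons.1 c2.cons.2] at h2
  have h3 : E (Rm n) 2 = 0 := by
    have := Rm_rat (n := n) (w := 1) (ν := 2) (i := 2) hn (by decide) (by simp) c2.cons.2
    rw [this, E_one (PPs_Rm n)]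
  rw [h3] at h2
  push_cast at h2
  linear_combination h2

end Pool.Agent.V11294.Lu
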