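import Pool.Agent.V11294.Lu.CaseE

/-!
# Final forms
-/

set_option autoImplicit false
set_option linter.unusedSectionVars false

namespace Pool.Agent.V11294.Lu

variable {p : ℕ} [Fact p.Prime] {c d x y D bb : ℤ} {k : ZMod 4} {K : ℤ}

theorem par {P x y D : ℤ} (hx : P = x ^ 2 + D * y ^ 2) (hP : P % 2 = 1) (hD : D % 2 = 1) :
    (x % 2 = 1 ∧ y % 2 = 0) ∨ (x % 2 = 0 ∧ y % 2 = 1) := by
  obtain ⟨k, hk⟩ : ∃ k, D = 2 * k + 1 := ⟨D / 2, by omega⟩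
  rcases Int.emod_two_eq_zero_or_one x with h1 | h1 <;> rcases Int.emod_two_eq_zero_or_one y with h2 | h2
  · exfalso
    obtain ⟨i, hi⟩ : ∃ i, x = 2 * i := ⟨x / 2, by omega⟩
    obtain ⟨j, hj⟩ : ∃ j, y = 2 * j := ⟨y / 2, by omega⟩
    have : P = 2 * (2 * i ^ 2 + D * (2 * j ^ 2)) := by rw [hx, hi, hj]; ring
    omega
  · exact Or.inr ⟨h1, h2⟩
  · exact Or.inl ⟨h1, h2⟩
  · exfalso
    obtain ⟨i, hi⟩ : ∃ i, x = 2 * i + 1 := ⟨x / 2, by omega⟩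
    obtain ⟨j, hj⟩ : ∃ j, y = 2 * j + 1 := ⟨y / 2, by omega⟩
    have : P = 2 * (2 * i ^ 2 + 2 * i + 1 + (2 * j ^ 2 + 2 * j) + k * y ^ 2) := by rw [hx, hk, hi, hj]; ring
    omega

theorem D_pos (h : D = bb ^ 2 + 1 ∨ D = bb ^ 2 + 4) : 1 ≤ D := by
  rcases h with h | h <;> rw [h] <;> nlinarith [sq_nonneg bb]

section even

variable (hp4 : p % 4 = 1) (hp : (p : ℤ) = c ^ 2 + d ^ 2) (hx : (p : ℤ) = x ^ 2 + D * y ^ 2) (hD : D = bb ^ 2 + 1)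
  (hx0 : x ≠ 0) (hy0 : y ≠ 0)

include hp4 hp hx hD hx0 hy0

theorem E_sub : ((bb : ZMod p) + x * rt p c d / y) - ((bb : ZMod p) - x * rt p c d / y) ≠ 0 := by
  have hxp := x_ne hx (D_pos (Or.inl hD)) hx0
  have hyp := y_ne hx (D_pos (Or.inl hD)) hy0
  have : ((bb : ZMod p) + x * rt p c d / y) - ((bb : ZMod p) - x * rt p c d / y) = 2 * (x * rt p c d / y) := by ring
  rw [this]
  exact mul_ne_zero (two_ne (p := p) hp4) (del_ne (p := p) hp hxp hyp)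

theorem E00 (h8 : (p : ℤ) % 8 = 1) (hv : ((bb : ZMod p) + x * rt p c d / y) ^ (p / 4) = rt p c d ^ k.val)
    (hk : k = 2 * (K : ZMod 4)) :
    (LU (2 * bb) (p / 4) : ZMod p) = 0 ∧ (LV (2 * bb) (p / 4) : ZMod p) = 2 * (-1) ^ K := by
  have hyp := y_ne hx (D_pos (Or.inl hD)) hy0
  obtain ⟨s1, s2⟩ := even_e hp hx hD hyp
  exact out00 (rt_sq hp) s1 s2 (E_sub hp4 hp hx hD hx0 hy0) (by omega) hv hk

theorem E01 (h8 : (p : ℤ) % 8 = 1) (hv : ((bb : ZMod p) + x * rt p c d / y) ^ (p / 4) = rt p c d ^ k.val)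
    (hk : k = 1 + 2 * (K : ZMod 4)) :
    (LU (2 * bb) (p / 4) : ZMod p) = (-1) ^ K * ((y : ZMod p) / x) ∧ (LV (2 * bb) (p / 4) : ZMod p) = 0 := by
  have hxp := x_ne hx (D_pos (Or.inl hD)) hx0
  have hyp := y_ne hx (D_pos (Or.inl hD)) hy0
  obtain ⟨s1, s2⟩ := even_e hp hx hD hyp
  obtain ⟨u1, u2⟩ := out01 (rt_sq hp) s1 s2 (by omega) hv hk
  refine ⟨solve1 hp hxp hyp ?_, u2⟩
  apply mul_left_cancel₀ (two_ne (p := p) hp4)
  linear_combination u1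

theorem E10 (h8 : (p : ℤ) % 8 = 5) (hv : ((bb : ZMod p) + x * rt p c d / y) ^ (p / 4) = rt p c d ^ k.val)
    (hk : k = 2 * (K : ZMod 4)) :
    (LU (2 * bb) (p / 4) : ZMod p) = -(-1) ^ K * ((d : ZMod p) * y / (c * x)) ∧
      (LV (2 * bb) (p / 4) : ZMod p) = 0 := by
  have hxp := x_ne hx (D_pos (Or.inl hD)) hx0
  have hyp := y_ne hx (D_pos (Or.inl hD)) hy0
  obtain ⟨s1, s2⟩ := even_e hp hx hD hyp
  obtain ⟨u1, u2⟩ := out10 (rt_sq hp) s1 s2 (by omega) hv hk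
  refine ⟨solve2 hp hxp hyp ?_, u2⟩
  apply mul_left_cancel₀ (two_ne (p := p) hp4)
  linear_combination u1

theorem E11 (h8 : (p : ℤ) % 8 = 5) (hv : ((bb : ZMod p) + x * rt p c d / y) ^ (p / 4) = rt p c d ^ k.val)
    (hk : k = 1 + 2 * (K : ZMod 4)) :
    (LU (2 * bb) (p / 4) : ZMod p) = 0 ∧ (LV (2 * bb) (p / 4) : ZMod p) = 2 * (-1) ^ K * ((d : ZMod p) / c) := by
  have hyp := y_ne hx (D_pos (Or.inl hD)) hy0
  obtain ⟨s1, s2⟩ := even_e hp hx hD hyp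
  exact out11 (rt_sq hp) s1 s2 (E_sub hp4 hp hx hD hx0 hy0) (by omega) hv hk

end even

section odd

variable (hp4 : p % 4 = 1) (hp : (p : ℤ) = c ^ 2 + d ^ 2) (hx : (p : ℤ) = x ^ 2 + D * y ^ 2) (hD : D = bb ^ 2 + 4)
  (hx0 : x ≠ 0) (hy0 : y ≠ 0)

include hp4

theorem O_subeq : ((bb : ZMod p) + x * rt p c d / y) / 2 - ((bb : ZMod p) - x * rt p c d / y) / 2 =
    x * rt p c d / y := by
  have h2 := two_ne (p := p) hp4
  field_simp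
  ring

include hp hx hD hx0 hy0

theorem O_sub : ((bb : ZMod p) + x * rt p c d / y) / 2 - ((bb : ZMod p) - x * rt p c d / y) / 2 ≠ 0 := by
  have hxp := x_ne hx (D_pos (Or.inr hD)) hx0
  have hyp := y_ne hx (D_pos (Or.inr hD)) hy0
  rw [O_subeq hp4]
  exact del_ne (p := p) hp hxp hyp

theorem O00 (h8 : (p : ℤ) % 8 = 1) (hv : (((bb : ZMod p) + x * rt p c d / y) / 2) ^ (p / 4) = rt p c d ^ k.val)
    (hk : k = 2 * (K : ZMod 4)) :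
    (LU bb (p / 4) : ZMod p) = 0 ∧ (LV bb (p / 4) : ZMod p) = 2 * (-1) ^ K := by
  have hyp := y_ne hx (D_pos (Or.inr hD)) hy0
  obtain ⟨s1, s2⟩ := odd_e hp4 hp hx hD hyp
  exact out00 (rt_sq hp) s1 s2 (O_sub hp4 hp hx hD hx0 hy0) (by omega) hv hk

theorem O01 (h8 : (p : ℤ) % 8 = 1) (hv : (((bb : ZMod p) + x * rt p c d / y) / 2) ^ (p / 4) = rt p c d ^ k.val)
    (hk : k = 1 + 2 * (K : ZMod 4)) :
    (LU bb (p / 4) : ZMod p) = (-1) ^ K * (2 * (y : ZMod p) / x) ∧ (LV bb (p / 4) : ZMod p) = 0 := by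
  have hxp := x_ne hx (D_pos (Or.inr hD)) hx0
  have hyp := y_ne hx (D_pos (Or.inr hD)) hy0
  obtain ⟨s1, s2⟩ := odd_e hp4 hp hx hD hyp
  obtain ⟨u1, u2⟩ := out01 (rt_sq hp) s1 s2 (by omega) hv hk
  rw [O_subeq hp4] at u1
  refine ⟨?_, u2⟩
  rw [solve1 hp hxp hyp u1]
  ring

theorem O10 (h8 : (p : ℤ) % 8 = 5) (hv : (((bb : ZMod p) + x * rt p c d / y) / 2) ^ (p / 4) = rt p c d ^ k.val)
    (hk : k = 2 * (K : ZMod 4)) :
    (LU bb (p / 4) : ZMod p) = -(-1) ^ K * (2 * (d : ZMod p) * y / (c * x)) ∧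
      (LV bb (p / 4) : ZMod p) = 0 := by
  have hxp := x_ne hx (D_pos (Or.inr hD)) hx0
  have hyp := y_ne hx (D_pos (Or.inr hD)) hy0
  obtain ⟨s1, s2⟩ := odd_e hp4 hp hx hD hyp
  obtain ⟨u1, u2⟩ := out10 (rt_sq hp) s1 s2 (by omega) hv hk
  rw [O_subeq hp4] at u1
  refine ⟨?_, u2⟩
  rw [solve2 hp hxp hyp u1]
  ring

theorem O11 (h8 : (p : ℤ) % 8 = 5) (hv : (((bb : ZMod p) + x * rt p c d / y) / 2) ^ (p / 4) = rt p c d ^ k.val)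
    (hk : k = 1 + 2 * (K : ZMod 4)) :
    (LU bb (p / 4) : ZMod p) = 0 ∧ (LV bb (p / 4) : ZMod p) = 2 * (-1) ^ K * ((d : ZMod p) / c) := by
  have hyp := y_ne hx (D_pos (Or.inr hD)) hy0
  obtain ⟨s1, s2⟩ := odd_e hp4 hp hx hD hyp
  exact out11 (rt_sq hp) s1 s2 (O_sub hp4 hp hx hD hx0 hy0) (by omega) hv hk

end odd

end Pool.Agent.V11294.Lu
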