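import Pool.Agent.V11294.Lu.Sup2

/-!
# The local formula for the quartic symbol of a unit of norm `-1`
-/

set_option autoImplicit false
set_option linter.unusedSectionVars false

open H385 (ZI RQ im1 nrm)

namespace Pool.Agent.V11294.Lu

open Pool.Agent.Y699
open Pool.Agent.W164.RC (Ip Ip_spec Ip_exists Ip_one Ip_three dg unit_norm unit_cases)
open Pool.Agent.H304R2.EC.A1 (prim prim_mul prim_cancel prim_one prim_norm_odd prim_star eq_one_of_prim
  norm_def' re_mul' im_mul' eq_of_dvd prim_ne_zero exists_prim)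

variable {s n y : Multiset ZI}

theorem E_expand (hs : PPs s) {z w : ZI} {a k : ℕ} (hz : z = p1 ^ a * im1 ^ k * w) (hw : Cop s w) :
    Cop s z ∧ E s z = a * Wz s.prod + k * Iz s.prod + E s w := by
  have c1 := (Cop_p1 hs).pow hs a
  have c2 := Cop.unit hs (norm_pow_one im1_n k)
  have c3 := Cop.mul hs c1 c2
  refine ⟨by rw [hz]; exact Cop.mul hs c3 hw, ?_⟩
  rw [hz, E_mul hs c3 hw, E_mul hs c1 c2, E_pow hs (Cop_p1 hs), E_pow hs (Cop.unit hs im1_n), E_p1 hs, E_im hs]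

/-- the formula; `δ = 1` for `P ≡ -Y²` and `δ = 0` for `P ≡ -4 Y²` modulo `ν` -/
theorem formula (hs : PPs s) (hn : PPs n) (hy : PPs y) {A Y P ν b c : ZI} {a β kP kν kY : ℕ}
    (hP : P = A ^ 2 + c * Y) (hν : ν = b * Y - A) (u : ZMod 4) (v : ZI)
    (hPν : ν ∣ P - v * Y ^ 2) (hv : v.norm = 1 ∨ v = -4) (huv : E n v = u)
    (eP : P = p1 ^ 2 * im1 ^ kP * s.prod) (eν : ν = p1 ^ a * im1 ^ kν * n.prod)
    (eY : Y = p1 ^ β * im1 ^ kY * y.prod) (hc : ∀ κ, PP κ → κ ∣ A → κ ∣ Y → False) :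
    Cop s ν ∧ Cop s Y ∧ E s ν - E s Y =
      (a * Wz s.prod + kν * Iz s.prod + 2 * Iz s.prod * Iz n.prod - 2 * Wz n.prod - kP * Iz n.prod +
        u + 2 * β * Wz n.prod + 2 * kY * Iz n.prod) -
      (β * Wz s.prod + kY * Iz s.prod + 2 * Iz s.prod * Iz y.prod - 2 * Wz y.prod - kP * Iz y.prod +
        2 * a * Wz y.prod + 2 * kν * Iz y.prod) := by
  have dn : n.prod ∣ ν := ⟨p1 ^ a * im1 ^ kν, by rw [eν]; ring⟩
  have dy : y.prod ∣ Y := ⟨p1 ^ β * im1 ^ kY, by rw [eY]; ring⟩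
  have ds : s.prod ∣ P := ⟨p1 ^ 2 * im1 ^ kP, by rw [eP]; ring⟩
  have dvA : ∀ κ : ZI, κ ∣ ν → κ ∣ Y → κ ∣ A := by
    intro κ h1 h2
    have : A = b * Y - ν := by rw [hν]; ring
    rw [this]
    exact dvd_sub (h2.mul_left b) h1
  have hv' : ∀ κ : ZI, PP κ → κ ∣ v * Y ^ 2 → κ ∣ Y := by
    intro κ hκ h
    rcases hκ.pr.dvd_or_dvd h with h | h
    · exfalso
      rcases hv with h1 | h1
      · exact hκ.pr.not_isUnit (isUnit_of_dvd_unit h ((Zsqrtd.isUnit_iff_norm_isUnit v).2 (by rw [h1]; exact isUnit_one)))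
      · rw [h1] at h
        have : (-4 : ZI) = p1 ^ 4 := by decide
        rw [this] at h
        exact p1_not_dvd hκ (hκ.pr.dvd_of_dvd_pow h)
    · exact hκ.pr.dvd_of_dvd_pow h
  -- disjointness
  have d_sn : ∀ π ∈ s, ∀ κ ∈ n, π ≠ κ := by
    rintro π hπ κ hκ rfl
    have h1 : π ∣ P := (Multiset.dvd_prod hπ).trans ds
    have h2 : π ∣ ν := (Multiset.dvd_prod hκ).trans dn
    have h3 : π ∣ v * Y ^ 2 := by
      have := dvd_sub h1 (h2.trans hPν)
      rwa [sub_sub_cancel] at this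
    have h4 := hv' π (hs π hπ) h3
    exact hc π (hs π hπ) (dvA π h2 h4) h4
  have d_sy : ∀ π ∈ s, ∀ κ ∈ y, π ≠ κ := by
    rintro π hπ κ hκ rfl
    have h1 : π ∣ P := (Multiset.dvd_prod hπ).trans ds
    have h2 : π ∣ Y := (Multiset.dvd_prod hκ).trans dy
    have h3 : π ∣ A ^ 2 := by
      have : A ^ 2 = P - c * Y := by rw [hP]; ring
      rw [this]
      exact dvd_sub h1 (h2.mul_left c)
    exact hc π (hs π hπ) ((hs π hπ).pr.dvd_of_dvd_pow h3) h2
  have d_ny : ∀ π ∈ n, ∀ κ ∈ y, π ≠ κ := by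
    rintro π hπ κ hκ rfl
    have h1 : π ∣ ν := (Multiset.dvd_prod hπ).trans dn
    have h2 : π ∣ Y := (Multiset.dvd_prod hκ).trans dy
    exact hc π (hn π hπ) (dvA π h1 h2) h2
  have c_sn := not_dvd_prod hs hn d_sn
  have c_sy := not_dvd_prod hs hy d_sy
  have c_ny := not_dvd_prod hn hy d_ny
  have c_ns := not_dvd_prod hn hs fun π hπ κ hκ h => d_sn κ hκ π hπ h.symm
  have c_ys := not_dvd_prod hy hs fun π hπ κ hκ h => d_sy κ hκ π hπ h.symm
  have c_yn := not_dvd_prod hy hn fun π hπ κ hκ h => d_ny κ hκ π hπ h.symm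
  obtain ⟨cν, x1⟩ := E_expand hs eν c_sn
  obtain ⟨cY, x2⟩ := E_expand hs eY c_sy
  obtain ⟨cP, x3⟩ := E_expand hn eP c_ns
  obtain ⟨cnY, x4⟩ := E_expand hn eY c_ny
  obtain ⟨cyP, x5⟩ := E_expand hy eP c_ys
  obtain ⟨cyν, x6⟩ := E_expand hy eν c_yn
  have r1 := E_rec hs hn d_sn
  have r2 := E_rec hs hy d_sy
  have r3 := E_rec hy hn fun π hπ κ hκ h => d_ny κ hκ π hπ h.symm
  have cv : Cop n v := by
    intro κ hκ h
    rcases hv with h1 | h1
    · exact (hn κ hκ).pr.not_isUnit (isUnit_of_dvd_unit h ((Zsqrtd.isUnit_iff_norm_isUnit v).2 (by rw [h1]; exact isUnit_one)))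
    · rw [h1] at h
      have : (-4 : ZI) = p1 ^ 4 := by decide
      rw [this] at h
      exact p1_not_dvd (hn κ hκ) ((hn κ hκ).pr.dvd_of_dvd_pow h)
  have s1 : E n P = u + 2 * E n Y := by
    rw [E_per hn (dn.trans hPν), E_mul hn cv (cnY.pow hn 2), E_pow hn cnY, huv]
    norm_num
  have s2 : E y P = 2 * E y ν := by
    have hd : Y ∣ P - ν ^ 2 := by
      refine ⟨c + b * (2 * A - b * Y), ?_⟩
      rw [hP, hν]; ring
    rw [E_per hy (dy.trans hd), E_pow hy cyν]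
    norm_num
  refine ⟨cν, cY, ?_⟩
  have h4 : (4 : ZMod 4) = 0 := by decide
  push_cast at x3 x5
  linear_combination x1 - x2 + r1 - r2 + s1 - x3 - s2 + x5 + 2 * x4 - 2 * x6 + (-2 : ZMod 4) * r3 -
    (Iz n.prod * Iz y.prod) * h4

end Pool.Agent.V11294.Lu
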