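import Pool.Agent.V11294.Lu.Form

/-!
# From the quartic symbol to Lucas sequences modulo `p`
-/

set_option autoImplicit false
set_option linter.unusedSectionVars false

open H385 (ZI RQ im1 nrm)

namespace Pool.Agent.V11294.Lu

open Pool.Agent.Y699
open Pool.Agent.H304R2.EC.A1 (prim prim_norm_odd norm_def' re_mul' im_mul')

/-- the Lucas sequence `U_n(b, -1)` -/
def LU (b : ℤ) : ℕ → ℤ
  | 0 => 0
  | 1 => 1
  | n + 2 => b * LU b (n + 1) + LU b n

/-- the Lucas sequence `V_n(b, -1)` -/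
def LV (b : ℤ) : ℕ → ℤ
  | 0 => 2
  | 1 => b
  | n + 2 => b * LV b (n + 1) + LV b n

section

variable {F : Type*} [Field F]

theorem LV_eq {b : ℤ} {e1 e2 : F} (h1 : e1 + e2 = b) (h2 : e1 * e2 = -1) (n : ℕ) :
    (LV b n : F) = e1 ^ n + e2 ^ n ∧ (LV b (n + 1) : F) = e1 ^ (n + 1) + e2 ^ (n + 1) := by
  induction n with
  | zero =>
    refine ⟨?_, ?_⟩
    · simp [LV]; norm_num
    · simp [LV, h1]
  | succ n ih =>
    refine ⟨ih.2, ?_⟩
    have e : LV b (n + 1 + 1) = b * LV b (n + 1) + LV b n := rfl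
    rw [e]
    push_cast
    rw [ih.1, ih.2, ← h1]
    linear_combination (e1 ^ n + e2 ^ n) * h2

theorem LU_eq {b : ℤ} {e1 e2 : F} (h1 : e1 + e2 = b) (h2 : e1 * e2 = -1) (n : ℕ) :
    (e1 - e2) * (LU b n : F) = e1 ^ n - e2 ^ n ∧
      (e1 - e2) * (LU b (n + 1) : F) = e1 ^ (n + 1) - e2 ^ (n + 1) := by
  induction n with
  | zero => simp [LU]
  | succ n ih =>
    refine ⟨ih.2, ?_⟩
    have e : LU b (n + 1 + 1) = b * LU b (n + 1) + LU b n := rfl
    rw [e]
    push_cast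
    rw [← h1]
    linear_combination (e1 + e2) * ih.2 + ih.1 + (e1 ^ n - e2 ^ n) * h2

end

variable {p : ℕ} [Fact p.Prime] {c d : ℤ}

theorem c_ne (hp : (p : ℤ) = c ^ 2 + d ^ 2) : (c : ZMod p) ≠ 0 := by
  intro h
  rw [ZMod.intCast_zmod_eq_zero_iff_dvd] at h
  have hp0 : (1 : ℤ) < p := by exact_mod_cast (Fact.out : p.Prime).one_lt
  by_cases hc : c = 0
  · -- p = d ^ 2
    rw [hc] at hp
    have h1 : (p : ℤ) = d * d := by rw [hp]; ring
    have h2 : p = d.natAbs * d.natAbs := by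
      have := congrArg Int.natAbs h1
      rwa [Int.natAbs_mul, Int.natAbs_natCast] at this
    have hpp := (Fact.out : p.Prime)
    rcases Nat.prime_mul_iff.1 (h2 ▸ hpp) with ⟨h3, h4⟩ | ⟨h3, h4⟩
    · rw [h4] at h3; exact Nat.not_prime_one h3
    · rw [h4] at h3; exact Nat.not_prime_one h3
  · have h1 := Int.le_of_dvd (by positivity : (0 : ℤ) < c ^ 2) (h.mul_left c |>.trans (by rw [sq]))
    have h2 : d ^ 2 ≤ 0 := by linarith
    have h3 : d = 0 := by nlinarith [sq_nonneg d]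
    rw [h3] at hp
    have h1 : (p : ℤ) = c * c := by rw [hp]; ring
    have h2 : p = c.natAbs * c.natAbs := by
      have := congrArg Int.natAbs h1
      rwa [Int.natAbs_mul, Int.natAbs_natCast] at this
    have hpp := (Fact.out : p.Prime)
    rcases Nat.prime_mul_iff.1 (h2 ▸ hpp) with ⟨h3, h4⟩ | ⟨h3, h4⟩
    · rw [h4] at h3; exact Nat.not_prime_one h3
    · rw [h4] at h3; exact Nat.not_prime_one h3

/-- the square root of `-1` -/
noncomputable def rt (p : ℕ) [Fact p.Prime] (c d : ℤ) : ZMod p := (d : ZMod p) / (c : ZMod p)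

theorem pz (hp : (p : ℤ) = c ^ 2 + d ^ 2) : (c : ZMod p) ^ 2 + (d : ZMod p) ^ 2 = 0 := by
  have : ((p : ℤ) : ZMod p) = 0 := by simp
  rw [hp] at this
  push_cast at this
  exact this

theorem rt_sq (hp : (p : ℤ) = c ^ 2 + d ^ 2) : rt p c d ^ 2 = -1 := by
  have h1 := c_ne hp
  have h2 := pz hp
  unfold rt
  rw [div_pow, div_eq_iff (pow_ne_zero 2 h1)]
  linear_combination h2

theorem rt_ne (hp : (p : ℤ) = c ^ 2 + d ^ 2) : rt p c d ≠ 0 := by
  intro h
  have := rt_sq hp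
  rw [h] at this
  norm_num at this

/-- the reduction -/
noncomputable def rho (hp : (p : ℤ) = c ^ 2 + d ^ 2) : ZI →+* ZMod p :=
  Zsqrtd.lift ⟨rt p c d, by have := rt_sq hp; rw [sq] at this; rw [this]; push_cast; rfl⟩

theorem rho_apply (hp : (p : ℤ) = c ^ 2 + d ^ 2) (z : ZI) :
    rho hp z = (z.re : ZMod p) + (z.im : ZMod p) * rt p c d := rfl

theorem rho_im (hp : (p : ℤ) = c ^ 2 + d ^ 2) : rho hp im1 = rt p c d := by
  rw [rho_apply]; simp [im1]

theorem rho_pi (hp : (p : ℤ) = c ^ 2 + d ^ 2) : rho hp ⟨c, d⟩ = 0 := by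
  rw [rho_apply]
  have h1 := c_ne hp
  have h2 := pz hp
  unfold rt
  simp only
  field_simp
  linear_combination h2

/-- the primary prime `± (c + d i)` -/
theorem PP_pi (hp : (p : ℤ) = c ^ 2 + d ^ 2) {z : ZI} (hz : z = ⟨c, d⟩ ∨ z = -⟨c, d⟩) (h : prim z) : PP z := by
  refine ⟨?_, h⟩
  have hn : nrm z = p := by
    have h1 := nrm_cast z
    have h2 : z.norm = p := by
      rw [norm_def', hp]
      rcases hz with h | h <;> rw [h] <;> simp
    rw [h2] at h1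
    exact_mod_cast h1
  exact Pool.Agent.W164.RC.prime_of_norm (Fact.out : p.Prime) hn

theorem nrm_pi (hp : (p : ℤ) = c ^ 2 + d ^ 2) {z : ZI} (hz : z = ⟨c, d⟩ ∨ z = -⟨c, d⟩) : nrm z = p := by
  have h1 := nrm_cast z
  have h2 : z.norm = p := by
    rw [norm_def', hp]
    rcases hz with h | h <;> rw [h] <;> simp
  rw [h2] at h1
  exact_mod_cast h1

theorem rho_z (hp : (p : ℤ) = c ^ 2 + d ^ 2) {z : ZI} (hz : z = ⟨c, d⟩ ∨ z = -⟨c, d⟩) : rho hp z = 0 := by
  rcases hz with h | h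
  · rw [h]; exact rho_pi hp
  · rw [h, map_neg, rho_pi hp, neg_zero]

theorem rho_zero_iff (hp : (p : ℤ) = c ^ 2 + d ^ 2) {z : ZI} (hz : z = ⟨c, d⟩ ∨ z = -⟨c, d⟩) (h : PP z) (a : ZI) :
    rho hp a = 0 ↔ z ∣ a := by
  constructor
  · intro h0
    by_contra hd
    have h1 := fermat h hd
    obtain ⟨w, hw⟩ := h1
    have h2 := congrArg (rho hp) hw
    rw [map_mul, rho_z hp hz, zero_mul, map_sub, map_pow, h0, map_one, zero_pow] at h2
    · norm_num at h2
    · have := nrm_pi hp hz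
      have h3 := (Fact.out : p.Prime).one_lt
      omega
  · rintro ⟨w, hw⟩
    rw [hw, map_mul, rho_z hp hz, zero_mul]

theorem rho_pow (hp : (p : ℤ) = c ^ 2 + d ^ 2) {z : ZI} (hz : z = ⟨c, d⟩ ∨ z = -⟨c, d⟩) (h : PP z) (a : ZI) :
    rho hp a ^ (p / 4) = rho hp (q4 z a) := by
  obtain ⟨w, hw⟩ := q4_dvd h a
  have h2 := congrArg (rho hp) hw
  rw [map_mul, rho_z hp hz, zero_mul, map_sub, map_pow, nrm_pi hp hz] at h2
  exact sub_eq_zero.1 h2

theorem rho_unit (hp : (p : ℤ) = c ^ 2 + d ^ 2) {u : ZI} (hu : u.norm = 1) :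
    rho hp u = rt p c d ^ (lg u).val := by
  have h2 := rt_sq hp
  rcases units4 hu with rfl | rfl | rfl | rfl
  · rw [lg_one]; simp
  · rw [lg_im, rho_im]
    have : ((1 : ZMod 4)).val = 1 := rfl
    rw [this, pow_one]
  · rw [lg_neg_one]
    have : ((2 : ZMod 4)).val = 2 := rfl
    rw [this, h2]; simp
  · have : lg (-im1) = 3 := by decide
    rw [this]
    have : ((3 : ZMod 4)).val = 3 := rfl
    rw [this, map_neg, rho_im, pow_succ, h2]; ring

/-- the power of the unit -/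
theorem eps_pow (hp : (p : ℤ) = c ^ 2 + d ^ 2) {z : ZI} (hz : z = ⟨c, d⟩ ∨ z = -⟨c, d⟩) (h : PP z)
    {ν Y : ZI} (h1 : ¬ z ∣ ν) (h2 : ¬ z ∣ Y) {k : ZMod 4} (hk : lg (q4 z ν) - lg (q4 z Y) = k) :
    (rho hp ν / rho hp Y) ^ (p / 4) = rt p c d ^ k.val := by
  have n1 := q4_norm h h1
  have n2 := q4_norm h h2
  have hY : rho hp (q4 z Y) ≠ 0 := by
    rw [rho_unit hp n2]; exact pow_ne_zero _ (rt_ne hp)
  rw [div_pow, rho_pow hp hz h, rho_pow hp hz h, div_eq_iff hY]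
  have e : q4 z ν = im1 ^ k.val * q4 z Y := by
    apply lg_inj n1
    · rw [Zsqrtd.norm_mul, norm_pow_one im1_n, n2, one_mul]
    · rw [lg_mul (norm_pow_one im1_n _) n2, lg_pow im1_n, lg_im, ← hk, ZMod.natCast_zmod_val]
      ring
  rw [e, map_mul, map_pow, rho_im]

end Pool.Agent.V11294.Lu
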