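import Pool.Agent.V11294.Lu.Red

/-!
# The value of the quarter power of the unit
-/

set_option autoImplicit false
set_option linter.unusedSectionVars false

open H385 (ZI RQ im1 nrm)

namespace Pool.Agent.V11294.Lu

open Pool.Agent.Y699
open Pool.Agent.W164.RC (Ip Ip_spec Ip_exists Ip_one Ip_three dg unit_norm unit_cases)
open Pool.Agent.H304R2.EC.A1 (prim prim_mul prim_cancel prim_one prim_norm_odd prim_star eq_one_of_prim
  norm_def' re_mul' im_mul' eq_of_dvd prim_ne_zero exists_prim)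

theorem mainG {p : ℕ} [Fact p.Prime] {c d D bb κ e : ℤ} (hp : (p : ℤ) = c ^ 2 + d ^ 2)
    (hc : c % 2 = 1) (hd : d % 2 = 0) (he : e % 2 = 1)
    (hκ : κ = 1 ∨ κ = 4) (hD : D = bb ^ 2 + κ)
    {A Y P ν S N Y0 w u2 : ZI} {a kν kP β kY : ℕ} {i j : ℤ} {θ : ZMod p}
    (hP : P = A ^ 2 - ((D : ℤ) : ZI) * Y ^ 2) (hν : ν = ((bb : ℤ) : ZI) * Y - A)
    (hPe : P = 2 * u2 * (((e : ℤ) : ZI) * ⟨c, d⟩)) (hu2 : u2.norm = 1)
    (hS : prim S) (hSe : S = ((e : ℤ) : ZI) * ⟨c, d⟩ ∨ S = -(((e : ℤ) : ZI) * ⟨c, d⟩))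
    (hN : prim N) (hY0 : prim Y0)
    (eP : P = p1 ^ 2 * im1 ^ kP * S) (eν : ν = p1 ^ a * im1 ^ kν * N)
    (eY : Y = p1 ^ β * im1 ^ kY * Y0)
    (hce : ∀ κ, PP κ → κ ∣ ((e : ℤ) : ZI) → κ ∣ A → κ ∣ Y → False)
    (hw : w.norm = 1) (h1 : ((e : ℤ) : ZI) ∣ ν - w * ((i : ℤ) : ZI)) (h2 : Y = w * ((j : ℤ) : ZI))
    (hθ : rho hp ν = θ * rho hp Y) (hY : rho hp Y ≠ 0) :
    (κ = 1 → θ ^ (p / 4) = rt p c d ^ (Fo a kν kP β kY S N Y0 (2 * Iz N)).val) ∧
    (κ = 4 → (θ / 2) ^ (p / 4) =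
      rt p c d ^ (Fo a kν kP β kY S N Y0 0 - (3 * Iz S + 2 * Wz S)).val) := by
  obtain ⟨z, hz, hzp, hzS⟩ := fac_S hp hc hd he hS hSe
  have hzY : ¬ z ∣ Y := by
    intro h
    exact hY ((rho_zero_iff hp hzp hz Y).2 h)
  have hn : e.natAbs % 2 = 1 := by omega
  have hAY : ∀ κ, PP κ → κ ∣ A → κ ∣ Y → False := by
    intro l hl h3 h4
    have h5 : l ∣ P := by
      rw [hP]
      exact dvd_sub (h3.trans (dvd_pow_self A two_ne_zero)) ((h4.trans (dvd_pow_self Y two_ne_zero)).mul_left _)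
    rw [hPe] at h5
    rcases hl.pr.dvd_or_dvd h5 with h6 | h6
    · rcases hl.pr.dvd_or_dvd h6 with h7 | h7
      · exact not_dvd_two hl h7
      · exact hl.pr.not_isUnit (isUnit_of_dvd_unit h7 ((Zsqrtd.isUnit_iff_norm_isUnit u2).2 (by rw [hu2]; exact isUnit_one)))
    · rcases hl.pr.dvd_or_dvd h6 with h7 | h7
      · exact hce l hl h7 h3 h4
      · have h8 : l ∣ z := by
          rcases hzp with h | h
          · rw [h]; exact h7
          · rw [h]; exact (dvd_neg).2 h7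
        have h9 := hl.eq_of_dvd hz h8
        rw [h9] at h4
        exact hzY h4
  have hi : ((e.natAbs : ℕ) : ZI) ∣ ν - w * ((i : ℤ) : ZI) := by
    refine dvd_trans ?_ h1
    have h3 : ((e.natAbs : ℕ) : ℤ) ∣ e := Int.natAbs_dvd.2 dvd_rfl
    have h5 := (Int.castRingHom ZI).map_dvd h3
    simpa using h5
  obtain ⟨v, hv, hvκ⟩ : ∃ v : ZI, (v = -1 ∨ v = -4) ∧ v = -((κ : ℤ) : ZI) := by
    rcases hκ with h | h
    · exact ⟨-1, Or.inl rfl, by rw [h]; simp⟩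
    · exact ⟨-4, Or.inr rfl, by rw [h]; norm_num⟩
  have hPν : ν ∣ P - v * Y ^ 2 := by
    refine ⟨-(((bb : ℤ) : ZI) * Y) - A, ?_⟩
    rw [hP, hν, hvκ, hD]
    push_cast
    ring
  have hP' : P = A ^ 2 + (-((D : ℤ) : ZI) * Y) * Y := by rw [hP]; ring
  obtain ⟨c1, c2, c3⟩ := core (z := z) (S := S) (N := N) (Y0 := Y0) hz hn hzS hN hY0 hP' hν hPν hv eP eν eY hAY hw hi h2
  obtain ⟨c4, c5⟩ := core_two hz hn hzS
  constructor
  · intro hκ1
    have hv1 : v = -1 := by rw [hvκ, hκ1]; simp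
    rw [if_pos hv1] at c3
    have := eps_pow hp hzp hz c1 c2 c3
    rw [hθ, mul_div_assoc, div_self hY, mul_one] at this
    exact this
  · intro hκ4
    have hv1 : v ≠ -1 := by
      rw [hvκ, hκ4]
      decide
    rw [if_neg hv1] at c3
    have c6 : ¬ z ∣ 2 * Y := by
      intro h
      rcases hz.pr.dvd_or_dvd h with h | h
      · exact c4 h
      · exact c2 h
    have c7 : lg (q4 z ν) - lg (q4 z (2 * Y)) = Fo a kν kP β kY S N Y0 0 - (3 * Iz S + 2 * Wz S) := by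
      rw [q4_mul hz, lg_mul (q4_norm hz c4) (q4_norm hz c2), c5, ← c3]
      ring
    have := eps_pow hp hzp hz c1 c6 c7
    rw [hθ, map_mul, map_ofNat] at this
    have e1 : θ * rho hp Y / (2 * rho hp Y) = θ / 2 := by
      rw [mul_comm 2, mul_comm θ, mul_div_mul_left _ _ hY]
    rw [e1] at this
    exact this

/-- `y` is prime to `p` -/
theorem y_ne {p : ℕ} [Fact p.Prime] {x y D : ℤ} (hx : (p : ℤ) = x ^ 2 + D * y ^ 2) (hD : 1 ≤ D) (hy : y ≠ 0) :
    ((y : ℤ) : ZMod p) ≠ 0 := by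
  intro h
  rw [ZMod.intCast_zmod_eq_zero_iff_dvd] at h
  obtain ⟨k, hk⟩ := h
  have hp1 : (1 : ℤ) < p := by exact_mod_cast (Fact.out : p.Prime).one_lt
  have hk0 : k ≠ 0 := by rintro rfl; apply hy; rw [hk, mul_zero]
  have h1 : 1 ≤ k ^ 2 := by
    have : 0 < k ^ 2 := by positivity
    linarith
  have h2 : y ^ 2 = p ^ 2 * k ^ 2 := by rw [hk]; ring
  have h3 : (p : ℤ) ^ 2 ≤ y ^ 2 := by rw [h2]; nlinarith [sq_nonneg (p : ℤ)]
  nlinarith [sq_nonneg x, sq_nonneg y]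

theorem x_ne {p : ℕ} [Fact p.Prime] {x y D : ℤ} (hx : (p : ℤ) = x ^ 2 + D * y ^ 2) (hD : 1 ≤ D) (hx0 : x ≠ 0) :
    ((x : ℤ) : ZMod p) ≠ 0 := by
  intro h
  rw [ZMod.intCast_zmod_eq_zero_iff_dvd] at h
  obtain ⟨k, hk⟩ := h
  have hp1 : (1 : ℤ) < p := by exact_mod_cast (Fact.out : p.Prime).one_lt
  have hk0 : k ≠ 0 := by rintro rfl; apply hx0; rw [hk, mul_zero]
  have h1 : 1 ≤ k ^ 2 := by
    have : 0 < k ^ 2 := by positivity
    linarith
  have h2 : x ^ 2 = p ^ 2 * k ^ 2 := by rw [hk]; ring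
  have h3 : (p : ℤ) ^ 2 ≤ x ^ 2 := by rw [h2]; nlinarith [sq_nonneg (p : ℤ)]
  nlinarith [sq_nonneg x, sq_nonneg y]

theorem int_dvd_rat {κ : ZI} {e f : ℤ} (h : κ ∣ ((e : ℤ) : ZI)) (hf : f = e * (f / e)) : κ ∣ ((f : ℤ) : ZI) := by
  rw [hf]; push_cast; exact h.mul_right _

/-- the case `x` odd -/
theorem main1 {p : ℕ} [Fact p.Prime] {c d x y D bb κ : ℤ} (hp : (p : ℤ) = c ^ 2 + d ^ 2)
    (hx : (p : ℤ) = x ^ 2 + D * y ^ 2) (hc : c % 2 = 1) (hd : d % 2 = 0) (hy0 : y ≠ 0)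
    (hκ : κ = 1 ∨ κ = 4) (hD : D = bb ^ 2 + κ)
    {g c' m y' e : ℤ} (g1 : c = g * c') (g2 : x - d = g * m) (g3 : y = g * y')
    (g4 : m = g * e) (g5 : 2 * (d * e) = c' ^ 2 - m ^ 2 - D * y' ^ 2)
    (g6 : ∃ r s t : ℤ, r * c' + s * m + t * y' = 1) (he : e % 2 = 1)
    {S N Y0 : ZI} {a kν kP β kY : ℕ}
    (hS : prim S) (hSe : S = ⟨c' * m, e * d⟩ ∨ S = -⟨c' * m, e * d⟩)
    (hN : prim N) (hY0 : prim Y0)
    (eP : (⟨2 * (d * e), -(2 * c' * m)⟩ : ZI) = p1 ^ 2 * im1 ^ kP * S)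
    (eν : (⟨bb * y' - c', m⟩ : ZI) = p1 ^ a * im1 ^ kν * N)
    (eY : (⟨y', 0⟩ : ZI) = p1 ^ β * im1 ^ kY * Y0) :
    (κ = 1 → ((bb : ZMod p) + x * rt p c d / y) ^ (p / 4) =
      rt p c d ^ (Fo a kν kP β kY S N Y0 (2 * Iz N)).val) ∧
    (κ = 4 → (((bb : ZMod p) + x * rt p c d / y) / 2) ^ (p / 4) =
      rt p c d ^ (Fo a kν kP β kY S N Y0 0 - (3 * Iz S + 2 * Wz S)).val) := by
  have hD1 : 1 ≤ D := by
    rcases hκ with h | h <;> rw [hD, h] <;> nlinarith [sq_nonneg bb]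
  have hyp := y_ne hx hD1 hy0
  have hgp : (g : ZMod p) ≠ 0 := by
    intro h; apply hyp; rw [g3]; push_cast; rw [h, zero_mul]
  have hy'p : (y' : ZMod p) ≠ 0 := by
    intro h; apply hyp; rw [g3]; push_cast; rw [h, mul_zero]
  have hcp := c_ne hp
  have hpz := pz hp
  have eπ : ((e : ℤ) : ZI) * ⟨c, d⟩ = ⟨c' * m, e * d⟩ := by
    ext
    · simp; rw [g1]; linear_combination -c' * g4
    · simp
  refine mainG (A := ⟨c', -m⟩) (Y := ⟨y', 0⟩) (P := ⟨2 * (d * e), -(2 * c' * m)⟩) (ν := ⟨bb * y' - c', m⟩)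
    (w := 1) (u2 := -im1) (i := bb * y' - c') (j := y') hp hc hd he hκ hD ?_ ?_ ?_ (by decide) hS (by rw [eπ]; exact hSe) hN hY0 eP eν eY
    ?_ (by decide) ?_ ?_ ?_ ?_
  · ext
    · simp [sq]; linear_combination g5
    · simp [sq]; ring
  · ext <;> simp
  · rw [eπ]
    ext
    · simp [im1]; ring
    · simp [im1]; ring
  · intro l hl h1 h2 h3
    obtain ⟨r, s, t, hb⟩ := g6
    have hm : l ∣ ((m : ℤ) : ZI) := by rw [g4]; push_cast; exact h1.mul_left _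
    have hy3 : l ∣ ((y' : ℤ) : ZI) := by
      have : ((y' : ℤ) : ZI) = ⟨y', 0⟩ := by ext <;> simp
      rw [this]; exact h3
    have hc3 : l ∣ ((c' : ℤ) : ZI) := by
      have : ((c' : ℤ) : ZI) = ⟨c', -m⟩ + im1 * ((m : ℤ) : ZI) := by ext <;> simp [im1]
      rw [this]; exact dvd_add h2 (hm.mul_left _)
    apply hl.pr.not_isUnit
    apply isUnit_of_dvd_one
    have : (1 : ZI) = ((r : ℤ) : ZI) * ((c' : ℤ) : ZI) + ((s : ℤ) : ZI) * ((m : ℤ) : ZI) + ((t : ℤ) : ZI) * ((y' : ℤ) : ZI) := by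
      have h4 := congrArg (Int.cast : ℤ → ZI) hb
      push_cast at h4
      exact h4.symm
    rw [this]
    exact dvd_add (dvd_add (hc3.mul_left _) (hm.mul_left _)) (hy3.mul_left _)
  · refine ⟨((g : ℤ) : ZI) * im1, ?_⟩
    ext
    · simp [im1]
    · simp [im1]; rw [g4]; ring
  · ext <;> simp
  · rw [rho_apply, rho_apply]
    simp only
    push_cast
    have k1 : (c : ZMod p) = g * c' := by rw [g1]; push_cast; rfl
    have k2 : (x : ZMod p) - d = g * m := by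
      have := congrArg (Int.cast : ℤ → ZMod p) g2
      push_cast at this
      exact this
    have k3 : (y : ZMod p) = g * y' := by rw [g3]; push_cast; rfl
    have k4 : (x : ZMod p) * rt p c d / y * y' = (m : ZMod p) * rt p c d - c' := by
      rw [k3]
      have : (x : ZMod p) * rt p c d / (g * y') * y' = (x : ZMod p) * rt p c d / g := by
        field_simp
      rw [this, div_eq_iff hgp]
      have h5 : rt p c d * c = d := by unfold rt; exact div_mul_cancel₀ _ hcp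
      have h6 : rt p c d * d = - c := by
        have : rt p c d * d * c = -c * c := by linear_combination (d : ZMod p) * h5 + hpz
        exact mul_right_cancel₀ hcp this
      linear_combination (rt p c d) * k2 - k1 + h6
    rw [zero_mul, add_zero, add_mul, k4]
    ring
  · rw [rho_apply]
    simp only
    push_cast
    rw [zero_mul, add_zero]
    exact hy'p

/-- the case `x` even -/
theorem main0 {p : ℕ} [Fact p.Prime] {c d x y D bb κ : ℤ} (hp : (p : ℤ) = c ^ 2 + d ^ 2)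
    (hx : (p : ℤ) = x ^ 2 + D * y ^ 2) (hc : c % 2 = 1) (hd : d % 2 = 0) (hy0 : y ≠ 0)
    (hκ : κ = 1 ∨ κ = 4) (hD : D = bb ^ 2 + κ)
    {g m d' y' e : ℤ} (g1 : c - x = g * m) (g2 : d = g * d') (g3 : y = g * y')
    (g4 : m = g * e) (g5 : 2 * (c * e) = m ^ 2 - d' ^ 2 + D * y' ^ 2)
    (g6 : ∃ r s t : ℤ, r * m + s * d' + t * y' = 1) (he : e % 2 = 1)
    {S N Y0 : ZI} {a kν kP β kY : ℕ}
    (hS : prim S) (hSe : S = ⟨c * e, m * d'⟩ ∨ S = -⟨c * e, m * d'⟩)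
    (hN : prim N) (hY0 : prim Y0)
    (eP : (⟨2 * (c * e), 2 * m * d'⟩ : ZI) = p1 ^ 2 * im1 ^ kP * S)
    (eν : (⟨-m, -(bb * y' + d')⟩ : ZI) = p1 ^ a * im1 ^ kν * N)
    (eY : (⟨0, -y'⟩ : ZI) = p1 ^ β * im1 ^ kY * Y0) :
    (κ = 1 → ((bb : ZMod p) + x * rt p c d / y) ^ (p / 4) =
      rt p c d ^ (Fo a kν kP β kY S N Y0 (2 * Iz N)).val) ∧
    (κ = 4 → (((bb : ZMod p) + x * rt p c d / y) / 2) ^ (p / 4) =
      rt p c d ^ (Fo a kν kP β kY S N Y0 0 - (3 * Iz S + 2 * Wz S)).val) := by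
  have hD1 : 1 ≤ D := by
    rcases hκ with h | h <;> rw [hD, h] <;> nlinarith [sq_nonneg bb]
  have hyp := y_ne hx hD1 hy0
  have hgp : (g : ZMod p) ≠ 0 := by
    intro h; apply hyp; rw [g3]; push_cast; rw [h, zero_mul]
  have hy'p : (y' : ZMod p) ≠ 0 := by
    intro h; apply hyp; rw [g3]; push_cast; rw [h, mul_zero]
  have hcp := c_ne hp
  have hpz := pz hp
  have eπ : ((e : ℤ) : ZI) * ⟨c, d⟩ = ⟨c * e, m * d'⟩ := by
    ext
    · simp; ring
    · simp; rw [g2]; linear_combination -d' * g4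
  refine mainG (A := ⟨m, d'⟩) (Y := ⟨0, -y'⟩) (P := ⟨2 * (c * e), 2 * m * d'⟩) (ν := ⟨-m, -(bb * y' + d')⟩)
    (w := -im1) (u2 := 1) (i := bb * y' + d') (j := y') hp hc hd he hκ hD ?_ ?_ ?_ (by decide) hS (by rw [eπ]; exact hSe) hN hY0 eP eν eY
    ?_ (by decide) ?_ ?_ ?_ ?_
  · ext
    · simp [sq]; linear_combination g5
    · simp [sq]; ring
  · ext <;> simp; ring
  · rw [eπ]
    ext
    · simp
    · simp; ring
  · intro l hl h1 h2 h3
    obtain ⟨r, s, t, hb⟩ := g6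
    have hm : l ∣ ((m : ℤ) : ZI) := by rw [g4]; push_cast; exact h1.mul_left _
    have hy3 : l ∣ ((y' : ℤ) : ZI) := by
      have : ((y' : ℤ) : ZI) = im1 * ⟨0, -y'⟩ := by ext <;> simp [im1]
      rw [this]; exact h3.mul_left _
    have hc3 : l ∣ ((d' : ℤ) : ZI) := by
      have : ((d' : ℤ) : ZI) = -im1 * (⟨m, d'⟩ - ((m : ℤ) : ZI)) := by ext <;> simp [im1]
      rw [this]; exact (dvd_sub h2 hm).mul_left _
    apply hl.pr.not_isUnit
    apply isUnit_of_dvd_one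
    have : (1 : ZI) = ((r : ℤ) : ZI) * ((m : ℤ) : ZI) + ((s : ℤ) : ZI) * ((d' : ℤ) : ZI) + ((t : ℤ) : ZI) * ((y' : ℤ) : ZI) := by
      have h4 := congrArg (Int.cast : ℤ → ZI) hb
      push_cast at h4
      exact h4.symm
    rw [this]
    exact dvd_add (dvd_add (hm.mul_left _) (hc3.mul_left _)) (hy3.mul_left _)
  · refine ⟨-((g : ℤ) : ZI), ?_⟩
    ext
    · simp [im1]; rw [g4]; ring
    · simp [im1]
  · ext <;> simp [im1]
  · rw [rho_apply, rho_apply]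
    simp only
    push_cast
    have k1 : (c : ZMod p) - x = g * m := by
      have := congrArg (Int.cast : ℤ → ZMod p) g1
      push_cast at this
      exact this
    have k2 : (d : ZMod p) = g * d' := by rw [g2]; push_cast; rfl
    have k3 : (y : ZMod p) = g * y' := by rw [g3]; push_cast; rfl
    have h7 := rt_sq hp
    have k4 : (x : ZMod p) * rt p c d / y * y' = (d' : ZMod p) - rt p c d * m := by
      rw [k3]
      have : (x : ZMod p) * rt p c d / (g * y') * y' = (x : ZMod p) * rt p c d / g := by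
        field_simp
      rw [this, div_eq_iff hgp]
      have h5 : rt p c d * c = d := by unfold rt; exact div_mul_cancel₀ _ hcp
      linear_combination -(rt p c d) * k1 + k2 + h5
    have k5 : ((bb : ZMod p) + x * rt p c d / y) * (0 + -(y' : ZMod p) * rt p c d) =
        -rt p c d * (bb * y' + x * rt p c d / y * y') := by ring
    rw [k5, k4]
    linear_combination -(m : ZMod p) * h7
  · rw [rho_apply]
    simp only
    push_cast
    rw [zero_add]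
    exact mul_ne_zero (neg_ne_zero.2 hy'p) (rt_ne hp)

end Pool.Agent.V11294.Lu
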