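import Pool.Agent.V11294.Lu.Main

/-!
# Outcomes for the Lucas sequences, arithmetic preliminaries
-/

set_option autoImplicit false
set_option linter.unusedSectionVars false

open H385 (ZI RQ im1 nrm)

namespace Pool.Agent.V11294.Lu

open Pool.Agent.Y699

/-- `m` is nonzero and its odd part is congruent to one modulo four -/
def OddPartOne (m : ℤ) : Prop := ∃ (α : ℕ) (m₀ : ℤ), m = 2 ^ α * m₀ ∧ m₀ % 4 = 1

section

variable {F : Type*} [Field F]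

theorem two_K (K : ℤ) : (2 * (K : ZMod 4) = 0 ∧ ((-1 : F)) ^ K = 1) ∨ (2 * (K : ZMod 4) = 2 ∧ ((-1 : F)) ^ K = -1) := by
  rcases Int.even_or_odd K with h | h
  · left
    refine ⟨?_, h.neg_one_zpow⟩
    obtain ⟨k, rfl⟩ := h
    push_cast
    have : (4 : ZMod 4) = 0 := by decide
    linear_combination (k : ZMod 4) * this
  · right
    refine ⟨?_, h.neg_one_zpow⟩
    obtain ⟨k, rfl⟩ := h
    push_cast
    have : (4 : ZMod 4) = 0 := by decide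
    linear_combination (k : ZMod 4) * this

theorem pw0 {r : F} (hr : r ^ 2 = -1) {k : ZMod 4} {K : ℤ} (h : k = 2 * (K : ZMod 4)) :
    r ^ k.val = (-1) ^ K := by
  rcases two_K (F := F) K with ⟨h1, h2⟩ | ⟨h1, h2⟩ <;> rw [h, h1, h2]
  · have : ((0 : ZMod 4)).val = 0 := rfl
    rw [this, pow_zero]
  · have : ((2 : ZMod 4)).val = 2 := rfl
    rw [this, hr]

theorem pw1 {r : F} (hr : r ^ 2 = -1) {k : ZMod 4} {K : ℤ} (h : k = 1 + 2 * (K : ZMod 4)) :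
    r ^ k.val = (-1) ^ K * r := by
  rcases two_K (F := F) K with ⟨h1, h2⟩ | ⟨h1, h2⟩ <;> rw [h, h1, h2]
  · have : ((1 + 0 : ZMod 4)).val = 1 := rfl
    rw [this, pow_one, one_mul]
  · have : ((1 + 2 : ZMod 4)).val = 3 := rfl
    rw [this, pow_succ, hr]

variable {e1 e2 r : F} {b : ℤ} {n : ℕ} {k : ZMod 4} {K : ℤ}

theorem zz (K : ℤ) : ((-1 : F) ^ K) * ((-1 : F) ^ K) = 1 := by
  rcases two_K (F := F) K with ⟨_, h2⟩ | ⟨_, h2⟩ <;> rw [h2] <;> ring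

theorem out_e2 (h2 : e1 * e2 = -1) : e1 ^ n * e2 ^ n = (-1) ^ n := by rw [← mul_pow, h2]

/-- `n` even, real value -/
theorem out00 (hr : r ^ 2 = -1) (h1 : e1 + e2 = b) (h2 : e1 * e2 = -1) (h3 : e1 - e2 ≠ 0) (hn : n % 2 = 0)
    (hk : e1 ^ n = r ^ k.val) (h : k = 2 * (K : ZMod 4)) :
    (LU b n : F) = 0 ∧ (LV b n : F) = 2 * (-1) ^ K := by
  have h4 := out_e2 (n := n) h2
  rw [hk, pw0 hr h, Even.neg_one_pow (Nat.even_iff.2 hn)] at h4
  have h5 : e2 ^ n = (-1) ^ K := by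
    have := congrArg (fun t => (-1 : F) ^ K * t) h4
    rw [← mul_assoc, zz, one_mul, mul_one] at this
    exact this
  have h6 := (LU_eq h1 h2 n).1
  have h7 := (LV_eq h1 h2 n).1
  rw [hk, pw0 hr h, h5] at h6 h7
  rw [sub_self] at h6
  refine ⟨(mul_eq_zero.1 h6).resolve_left h3, by rw [h7]; ring⟩

/-- `n` even, imaginary value -/
theorem out01 (hr : r ^ 2 = -1) (h1 : e1 + e2 = b) (h2 : e1 * e2 = -1) (hn : n % 2 = 0)
    (hk : e1 ^ n = r ^ k.val) (h : k = 1 + 2 * (K : ZMod 4)) :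
    (e1 - e2) * (LU b n : F) = 2 * (-1) ^ K * r ∧ (LV b n : F) = 0 := by
  have h4 := out_e2 (n := n) h2
  rw [hk, pw1 hr h, Even.neg_one_pow (Nat.even_iff.2 hn)] at h4
  have h5 : e2 ^ n = -((-1) ^ K * r) := by
    have := congrArg (fun t => -((-1 : F) ^ K * r) * t) h4
    have e : -((-1 : F) ^ K * r) * ((-1) ^ K * r * e2 ^ n) = -(((-1) ^ K * (-1) ^ K) * (r ^ 2 * e2 ^ n)) := by ring
    rw [e, zz, hr] at this
    rw [mul_one] at this
    rw [← this]; ring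
  have h6 := (LU_eq h1 h2 n).1
  have h7 := (LV_eq h1 h2 n).1
  rw [hk, pw1 hr h, h5] at h6 h7
  refine ⟨by rw [h6]; ring, by rw [h7]; ring⟩

/-- `n` odd, imaginary value -/
theorem out11 (hr : r ^ 2 = -1) (h1 : e1 + e2 = b) (h2 : e1 * e2 = -1) (h3 : e1 - e2 ≠ 0) (hn : n % 2 = 1)
    (hk : e1 ^ n = r ^ k.val) (h : k = 1 + 2 * (K : ZMod 4)) :
    (LU b n : F) = 0 ∧ (LV b n : F) = 2 * (-1) ^ K * r := by
  have h4 := out_e2 (n := n) h2
  rw [hk, pw1 hr h, Odd.neg_one_pow (Nat.odd_iff.2 hn)] at h4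
  have h5 : e2 ^ n = ((-1) ^ K * r) := by
    have := congrArg (fun t => -((-1 : F) ^ K * r) * t) h4
    have e : -((-1 : F) ^ K * r) * ((-1) ^ K * r * e2 ^ n) = -(((-1) ^ K * (-1) ^ K) * (r ^ 2 * e2 ^ n)) := by ring
    rw [e, zz, hr] at this
    have e' : -((-1 : F) ^ K * r) * -1 = (-1) ^ K * r := by ring
    rw [e'] at this
    rw [← this]; ring
  have h6 := (LU_eq h1 h2 n).1
  have h7 := (LV_eq h1 h2 n).1
  rw [hk, pw1 hr h, h5] at h6 h7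
  rw [sub_self] at h6
  refine ⟨(mul_eq_zero.1 h6).resolve_left h3, by rw [h7]; ring⟩

/-- `n` odd, real value -/
theorem out10 (hr : r ^ 2 = -1) (h1 : e1 + e2 = b) (h2 : e1 * e2 = -1) (hn : n % 2 = 1)
    (hk : e1 ^ n = r ^ k.val) (h : k = 2 * (K : ZMod 4)) :
    (e1 - e2) * (LU b n : F) = 2 * (-1) ^ K ∧ (LV b n : F) = 0 := by
  have h4 := out_e2 (n := n) h2
  rw [hk, pw0 hr h, Odd.neg_one_pow (Nat.odd_iff.2 hn)] at h4
  have h5 : e2 ^ n = -(-1) ^ K := by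
    have := congrArg (fun t => (-1 : F) ^ K * t) h4
    rw [← mul_assoc, zz, one_mul] at this
    rw [this]; ring
  have h6 := (LU_eq h1 h2 n).1
  have h7 := (LV_eq h1 h2 n).1
  rw [hk, pw0 hr h, h5] at h6 h7
  refine ⟨by rw [h6]; ring, by rw [h7]; ring⟩

end

/-! ### the unit modulo `p` -/

section

variable {p : ℕ} [Fact p.Prime] {c d x y D bb κ : ℤ}

theorem two_ne (hp4 : p % 4 = 1) : (2 : ZMod p) ≠ 0 := by
  intro h
  have h1 : ((2 : ℕ) : ZMod p) = 0 := by exact_mod_cast h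
  rw [ZMod.natCast_eq_zero_iff] at h1
  have h2 := Nat.le_of_dvd (by norm_num) h1
  have h3 := (Fact.out : p.Prime).two_le
  omega

/-- `δ ^ 2 = D` -/
theorem del_sq (hp : (p : ℤ) = c ^ 2 + d ^ 2) (hx : (p : ℤ) = x ^ 2 + D * y ^ 2) (hy : (y : ZMod p) ≠ 0) :
    ((x : ZMod p) * rt p c d / y) ^ 2 = D := by
  have h1 := rt_sq hp
  have h2 : ((p : ℤ) : ZMod p) = 0 := by simp
  rw [hx] at h2
  push_cast at h2
  rw [div_pow, mul_pow, h1, div_eq_iff (pow_ne_zero 2 hy)]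
  linear_combination -h2

/-- even parameter: `b = 2 bb` -/
theorem even_e (hp : (p : ℤ) = c ^ 2 + d ^ 2) (hx : (p : ℤ) = x ^ 2 + D * y ^ 2) (hD : D = bb ^ 2 + 1)
    (hy : (y : ZMod p) ≠ 0) :
    ((bb : ZMod p) + x * rt p c d / y) + ((bb : ZMod p) - x * rt p c d / y) = ((2 * bb : ℤ) : ZMod p) ∧
    ((bb : ZMod p) + x * rt p c d / y) * ((bb : ZMod p) - x * rt p c d / y) = -1 := by
  have h := del_sq hp hx hy
  rw [hD] at h
  push_cast at h ⊢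
  refine ⟨by ring, ?_⟩
  linear_combination -h

/-- odd parameter: `b = bb` -/
theorem odd_e (hp4 : p % 4 = 1) (hp : (p : ℤ) = c ^ 2 + d ^ 2) (hx : (p : ℤ) = x ^ 2 + D * y ^ 2) (hD : D = bb ^ 2 + 4)
    (hy : (y : ZMod p) ≠ 0) :
    ((bb : ZMod p) + x * rt p c d / y) / 2 + ((bb : ZMod p) - x * rt p c d / y) / 2 = ((bb : ℤ) : ZMod p) ∧
    ((bb : ZMod p) + x * rt p c d / y) / 2 * (((bb : ZMod p) - x * rt p c d / y) / 2) = -1 := by
  have h := del_sq hp hx hy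
  have h2 := two_ne hp4
  rw [hD] at h
  push_cast at h ⊢
  constructor
  · field_simp; ring
  · have e : ((bb : ZMod p) + x * rt p c d / y) / 2 * (((bb : ZMod p) - x * rt p c d / y) / 2) =
        (((bb : ZMod p)) ^ 2 - (x * rt p c d / y) ^ 2) / (2 ^ 2) := by
      field_simp; ring
    rw [e, h, div_eq_iff (pow_ne_zero 2 h2)]
    ring

theorem del_ne (hp : (p : ℤ) = c ^ 2 + d ^ 2) (hxp : (x : ZMod p) ≠ 0) (hy : (y : ZMod p) ≠ 0) :
    (x : ZMod p) * rt p c d / y ≠ 0 := div_ne_zero (mul_ne_zero hxp (rt_ne hp)) hy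

theorem solve1 (hp : (p : ℤ) = c ^ 2 + d ^ 2) (hxp : (x : ZMod p) ≠ 0) (hy : (y : ZMod p) ≠ 0)
    {U t : ZMod p} (h : ((x : ZMod p) * rt p c d / y) * U = t * rt p c d) :
    U = t * ((y : ZMod p) / x) := by
  have h1 := rt_ne hp
  field_simp at h ⊢
  linear_combination h

theorem solve2 (hp : (p : ℤ) = c ^ 2 + d ^ 2) (hxp : (x : ZMod p) ≠ 0) (hy : (y : ZMod p) ≠ 0)
    {U t : ZMod p} (h : ((x : ZMod p) * rt p c d / y) * U = t) :
    U = -t * ((d : ZMod p) * y / (c * x)) := by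
  have h1 := rt_ne hp
  have h0 := rt_sq hp
  have h2 : ((x : ZMod p) * rt p c d / y) * U = (-t * rt p c d) * rt p c d := by
    rw [h]; linear_combination t * h0
  have h3 := solve1 hp hxp hy h2
  rw [h3]
  unfold rt
  have hc := c_ne hp
  field_simp

end

/-! ### squares -/

theorem sq_odd {a : ℤ} (h : a % 2 = 1) : a ^ 2 % 8 = 1 := by
  obtain ⟨k, rfl⟩ : ∃ k, a = 2 * k + 1 := ⟨a / 2, by omega⟩
  have h1 : (k * (k + 1)) % 2 = 0 := Int.even_iff.1 (Int.even_mul_succ_self k)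
  have h2 : (2 * k + 1) ^ 2 = 4 * (k * (k + 1)) + 1 := by ring
  rw [h2]; omega

theorem sq_four {a : ℤ} (h : a % 4 = 0) : a ^ 2 % 16 = 0 := by
  obtain ⟨k, rfl⟩ : ∃ k, a = 4 * k := ⟨a / 4, by omega⟩
  have h2 : (4 * k) ^ 2 = 16 * k ^ 2 := by ring
  rw [h2]; omega

theorem sq_two {a : ℤ} (h : a % 4 = 2) : a ^ 2 % 32 = 4 := by
  obtain ⟨k, rfl⟩ : ∃ k, a = 2 * (2 * k + 1) := ⟨(a / 2 - 1) / 2, by omega⟩
  have h1 : (k * (k + 1)) % 2 = 0 := Int.even_iff.1 (Int.even_mul_succ_self k)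
  have h2 : (2 * (2 * k + 1)) ^ 2 = 16 * (k * (k + 1)) + 4 := by ring
  rw [h2]; omega

theorem mod_of_mul {g a b : ℤ} (h : a = g * b) (hg : g % 4 = 1) : b % 4 = a % 4 := by
  rw [h, Int.mul_emod, hg]; omega

theorem OddPartOne.ne {m : ℤ} (h : OddPartOne m) : m ≠ 0 := by
  obtain ⟨α, m0, h1, h2⟩ := h
  rw [h1]
  have : m0 ≠ 0 := by omega
  positivity

/-- dividing an odd number out -/
theorem OddPartOne.div {g m m' : ℤ} (h : OddPartOne m) (hg : g % 4 = 1) (hm : m = g * m') :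
    ∃ (α : ℕ) (m₀ : ℤ), m' = 2 ^ α * m₀ ∧ m₀ % 4 = 1 := by
  obtain ⟨α, m0, h1, h2⟩ := h
  have hc : IsCoprime g (2 ^ α) := (cop_two (by omega)).pow_right
  have h3 : g ∣ 2 ^ α * m0 := ⟨m', by rw [← h1, hm]⟩
  obtain ⟨k, hk⟩ := hc.dvd_of_dvd_mul_left h3
  refine ⟨α, k, ?_, ?_⟩
  · have hne : g ≠ 0 := by omega
    apply mul_left_cancel₀ hne
    rw [← hm, h1, hk]; ring
  · rw [mod_of_mul hk hg, h2]

theorem OddPartOne.odd {m : ℤ} (h : OddPartOne m) (hm : m % 2 = 1) : m % 4 = 1 := by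
  obtain ⟨α, m0, h1, h2⟩ := h
  rcases Nat.eq_zero_or_pos α with h3 | h3
  · rw [h1, h3, pow_zero, one_mul]; exact h2
  · exfalso
    obtain ⟨k, rfl⟩ : ∃ k, α = k + 1 := ⟨α - 1, by omega⟩
    have : m = 2 * (2 ^ k * m0) := by rw [h1]; ring
    omega

theorem OddPartOne.two {m : ℤ} (h : OddPartOne m) (hm : m % 4 = 2) : m % 8 = 2 := by
  obtain ⟨α, m0, h1, h2⟩ := h
  rcases (by omega : α = 0 ∨ α = 1 ∨ 2 ≤ α) with h3 | h3 | h3
  · rw [h3, pow_zero, one_mul] at h1; omega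
  · rw [h3, pow_one] at h1; omega
  · exfalso
    obtain ⟨k, rfl⟩ : ∃ k, α = k + 2 := ⟨α - 2, by omega⟩
    have : m = 4 * (2 ^ k * m0) := by rw [h1]; ring
    omega

end Pool.Agent.V11294.Lu
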