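import Pool.Agent.V11294.Lu.Core

/-!
# Reduction to coprime data
-/

set_option autoImplicit false
set_option linter.unusedSectionVars false

open H385 (ZI RQ im1 nrm)

namespace Pool.Agent.V11294.Lu

open Pool.Agent.Y699
open Pool.Agent.W164.RC (Ip Ip_spec Ip_exists Ip_one Ip_three dg unit_norm unit_cases)
open Pool.Agent.H304R2.EC.A1 (prim prim_mul prim_cancel prim_one prim_norm_odd prim_star eq_one_of_prim
  norm_def' re_mul' im_mul' eq_of_dvd prim_ne_zero exists_prim)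

theorem cop_cd {p : ℕ} [Fact p.Prime] {c d : ℤ} (hp : (p : ℤ) = c ^ 2 + d ^ 2) : IsCoprime c d := by
  rw [Int.isCoprime_iff_gcd_eq_one]
  have h1 : (Int.gcd c d : ℤ) ∣ c := Int.gcd_dvd_left ..
  have h2 : (Int.gcd c d : ℤ) ∣ d := Int.gcd_dvd_right ..
  obtain ⟨a, ha⟩ := h1
  obtain ⟨b, hb⟩ := h2
  set h : ℕ := Int.gcd c d
  have h3 : (h : ℤ) * h ∣ p := ⟨a ^ 2 + b ^ 2, by rw [hp, ha, hb]; ring⟩
  have h4 : h * h ∣ p := by exact_mod_cast h3
  have hpp := (Fact.out : p.Prime)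
  rcases (Nat.dvd_prime hpp).1 h4 with h5 | h5
  · exact Nat.eq_one_of_mul_eq_one_right h5
  · exfalso
    rw [← h5] at hpp
    rcases Nat.prime_mul_iff.1 hpp with ⟨h6, h7⟩ | ⟨h6, h7⟩
    · rw [h7] at h6; exact Nat.not_prime_one h6
    · rw [h7] at h6; exact Nat.not_prime_one h6

/-- a common divisor congruent to one modulo four, with a Bezout identity for the cofactors -/
theorem gcd3 (a b c : ℤ) (h : a % 2 = 1 ∨ b % 2 = 1 ∨ c % 2 = 1) : ∃ g a' b' c' : ℤ, g % 4 = 1 ∧ a = g * a' ∧ b = g * b' ∧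
    c = g * c' ∧ ∃ r s t : ℤ, r * a' + s * b' + t * c' = 1 := by
  obtain ⟨g1, hg1⟩ : ∃ g1 : ℤ, g1 = Int.gcd a b := ⟨_, rfl⟩
  obtain ⟨g0, hg0⟩ : ∃ g0 : ℤ, g0 = Int.gcd g1 c := ⟨_, rfl⟩
  have e1 : g1 ∣ a := by rw [hg1]; exact Int.gcd_dvd_left ..
  have e2 : g1 ∣ b := by rw [hg1]; exact Int.gcd_dvd_right ..
  have e3 : g0 ∣ g1 := by rw [hg0]; exact Int.gcd_dvd_left ..
  have e4 : g0 ∣ c := by rw [hg0]; exact Int.gcd_dvd_right ..
  have f1 := Int.gcd_eq_gcd_ab a b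
  have f2 := Int.gcd_eq_gcd_ab g1 c
  rw [← hg1] at f1
  rw [← hg0] at f2
  have hodd : g0 % 2 = 1 := by
    rcases Int.emod_two_eq_zero_or_one g0 with h0 | h0
    · exfalso
      have h2 : (2 : ℤ) ∣ g0 := Int.dvd_of_emod_eq_zero h0
      have i1 := h2.trans (e3.trans e1)
      have i2 := h2.trans (e3.trans e2)
      have i3 := h2.trans e4
      omega
    · exact h0
  obtain ⟨a', ha⟩ := e3.trans e1
  obtain ⟨b', hb⟩ := e3.trans e2
  obtain ⟨c', hc⟩ := e4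
  have hbez : g0 = g0 * (a.gcdA b * g1.gcdA c * a' + a.gcdB b * g1.gcdA c * b' + g1.gcdB c * c') := by
    linear_combination f2 + (g1.gcdA c) * f1 + (a.gcdA b * g1.gcdA c) * ha + (a.gcdB b * g1.gcdA c) * hb + (g1.gcdB c) * hc
  have hne : g0 ≠ 0 := by omega
  have hone : a.gcdA b * g1.gcdA c * a' + a.gcdB b * g1.gcdA c * b' + g1.gcdB c * c' = 1 := by
    refine mul_left_cancel₀ hne ?_
    rw [mul_one]; exact hbez.symm
  rcases (by omega : g0 % 4 = 1 ∨ g0 % 4 = 3) with h1 | h1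
  · exact ⟨g0, a', b', c', h1, ha, hb, hc, _, _, _, hone⟩
  · refine ⟨-g0, -a', -b', -c', by omega, by rw [ha]; ring, by rw [hb]; ring, by rw [hc]; ring,
      -(a.gcdA b * g1.gcdA c), -(a.gcdB b * g1.gcdA c), -(g1.gcdB c), ?_⟩
    linear_combination hone

theorem cop_two {g : ℤ} (h : g % 2 = 1) : IsCoprime g 2 := ⟨1, -(g / 2), by omega⟩

theorem red1 {p : ℕ} [Fact p.Prime] {c d x y D : ℤ} (hp : (p : ℤ) = c ^ 2 + d ^ 2)
    (hx : (p : ℤ) = x ^ 2 + D * y ^ 2) (hc : c % 2 = 1) : ∃ g c' m y' e : ℤ, g % 4 = 1 ∧ c = g * c' ∧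
    x - d = g * m ∧ y = g * y' ∧ m = g * e ∧ 2 * (d * e) = c' ^ 2 - m ^ 2 - D * y' ^ 2 ∧
    ∃ r s t : ℤ, r * c' + s * m + t * y' = 1 := by
  obtain ⟨g, c', m, y', hg, h1, h2, h3, h4⟩ := gcd3 c (x - d) y (Or.inl hc)
  have hne : g ≠ 0 := by omega
  have k1 : IsCoprime g d := (cop_cd hp).of_isCoprime_of_dvd_left ⟨c', h1⟩
  have k2 : IsCoprime g (2 * d) := (cop_two (by omega)).mul_right k1
  have k3 : IsCoprime g (2 * d + g * m) := k2.add_mul_left_right m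
  have k4 : (2 * d + g * m) = x + d := by rw [← h2]; ring
  rw [k4] at k3
  have k5 : g ∣ m * (x + d) := by
    refine ⟨c' ^ 2 - D * y' ^ 2, ?_⟩
    have : g * (m * (x + d)) = g * (g * (c' ^ 2 - D * y' ^ 2)) := by
      have e1 : c ^ 2 - (x - d) * (x + d) = D * y ^ 2 := by linear_combination hx - hp
      rw [h2, h1, h3] at e1
      linear_combination -e1
    exact mul_left_cancel₀ hne this
  obtain ⟨e, he⟩ := k3.dvd_of_dvd_mul_right k5
  refine ⟨g, c', m, y', e, hg, h1, h2, h3, he, ?_, h4⟩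
  have : g ^ 2 * (2 * (d * e)) = g ^ 2 * (c' ^ 2 - m ^ 2 - D * y' ^ 2) := by
    have e1 : 2 * d * (x - d) = c ^ 2 - (x - d) ^ 2 - D * y ^ 2 := by linear_combination hp - hx
    rw [h2, h1, h3] at e1
    linear_combination e1 - 2 * d * g * he
  exact mul_left_cancel₀ (pow_ne_zero 2 hne) this

theorem red0 {p : ℕ} [Fact p.Prime] {c d x y D : ℤ} (hp : (p : ℤ) = c ^ 2 + d ^ 2)
    (hx : (p : ℤ) = x ^ 2 + D * y ^ 2) (hy : y % 2 = 1) : ∃ g m d' y' e : ℤ, g % 4 = 1 ∧ c - x = g * m ∧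
    d = g * d' ∧ y = g * y' ∧ m = g * e ∧ 2 * (c * e) = m ^ 2 - d' ^ 2 + D * y' ^ 2 ∧
    ∃ r s t : ℤ, r * m + s * d' + t * y' = 1 := by
  obtain ⟨g, m, d', y', hg, h1, h2, h3, h4⟩ := gcd3 (c - x) d y (Or.inr (Or.inr hy))
  have hne : g ≠ 0 := by omega
  have k1 : IsCoprime g c := (cop_cd hp).symm.of_isCoprime_of_dvd_left ⟨d', h2⟩
  have k2 : IsCoprime g (2 * c) := (cop_two (by omega)).mul_right k1
  have k3 : IsCoprime g (2 * c + g * (-m)) := k2.add_mul_left_right (-m)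
  have k4 : (2 * c + g * (-m)) = c + x := by linear_combination h1
  rw [k4] at k3
  have k5 : g ∣ m * (c + x) := by
    refine ⟨D * y' ^ 2 - d' ^ 2, ?_⟩
    have : g * (m * (c + x)) = g * (g * (D * y' ^ 2 - d' ^ 2)) := by
      have e1 : (c - x) * (c + x) + d ^ 2 = D * y ^ 2 := by linear_combination hx - hp
      rw [h1, h2, h3] at e1
      linear_combination e1
    exact mul_left_cancel₀ hne this
  obtain ⟨e, he⟩ := k3.dvd_of_dvd_mul_right k5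
  refine ⟨g, m, d', y', e, hg, h1, h2, h3, he, ?_, h4⟩
  have : g ^ 2 * (2 * (c * e)) = g ^ 2 * (m ^ 2 - d' ^ 2 + D * y' ^ 2) := by
    have e1 : 2 * c * (c - x) = (c - x) ^ 2 - d ^ 2 + D * y ^ 2 := by linear_combination hx - hp
    rw [h1, h2, h3] at e1
    linear_combination e1 - 2 * c * g * he
  exact mul_left_cancel₀ (pow_ne_zero 2 hne) this

theorem not_prim_neg {z : ZI} (h1 : prim z) (h2 : prim (-z)) : False := by
  obtain ⟨a1, a2⟩ := h1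
  obtain ⟨b1, b2⟩ := h2
  simp only [Zsqrtd.im_neg, Zsqrtd.re_neg] at b1 b2
  omega

theorem s4_natAbs {e : ℤ} (he : e % 2 = 1) : s4 (e.natAbs : ℤ) * (e.natAbs : ℤ) = s4 e * e := by
  unfold s4
  rcases Int.natAbs_eq e with h3 | h3
  · rw [← h3]
  · have h4 : (e.natAbs : ℤ) = -e := by omega
    rw [h4]
    rcases (by omega : e % 4 = 1 ∨ e % 4 = 3) with h5 | h5
    · rw [if_neg (by omega), if_pos h5]; ring
    · rw [if_pos (by omega), if_neg (by omega)]; ring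

theorem fac_S {p : ℕ} [Fact p.Prime] {c d : ℤ} (hp : (p : ℤ) = c ^ 2 + d ^ 2) (hc : c % 2 = 1) (hd : d % 2 = 0)
    {e : ℤ} (he : e % 2 = 1) {S : ZI} (hS : prim S)
    (h : S = ((e : ℤ) : ZI) * ⟨c, d⟩ ∨ S = -(((e : ℤ) : ZI) * ⟨c, d⟩)) :
    ∃ z : ZI, PP z ∧ (z = ⟨c, d⟩ ∨ z = -⟨c, d⟩) ∧ S = z * ((s4 e.natAbs * e.natAbs : ℤ) : ZI) := by
  obtain ⟨z, hz, hzp⟩ : ∃ z : ZI, (z = ⟨c, d⟩ ∨ z = -⟨c, d⟩) ∧ prim z := by
    rcases (by omega : (c + d) % 4 = 1 ∨ (c + d) % 4 = 3) with h1 | h1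
    · exact ⟨⟨c, d⟩, Or.inl rfl, hd, h1⟩
    · refine ⟨-⟨c, d⟩, Or.inr rfl, ?_, ?_⟩
      · simp only [Zsqrtd.im_neg]; omega
      · simp only [Zsqrtd.im_neg, Zsqrtd.re_neg]; omega
  refine ⟨z, PP_pi hp hz hzp, hz, ?_⟩
  rw [s4_natAbs he]
  have hr : prim (((s4 e * e : ℤ)) : ZI) := by
    refine ⟨by simp, ?_⟩
    rw [Zsqrtd.im_intCast, Zsqrtd.re_intCast, add_zero]
    exact s4_mod he
  have hT : prim (z * (((s4 e * e : ℤ)) : ZI)) := prim_mul hzp hr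
  have hcase : z * (((s4 e * e : ℤ)) : ZI) = ((e : ℤ) : ZI) * ⟨c, d⟩ ∨
      z * (((s4 e * e : ℤ)) : ZI) = -(((e : ℤ) : ZI) * ⟨c, d⟩) := by
    rcases s4_unit e with h1 | h1 <;> rw [h1] <;> rcases hz with h2 | h2 <;> rw [h2]
    · left; push_cast; ring
    · right; push_cast; ring
    · right; push_cast; ring
    · left; push_cast; ring
  rcases h with h | h <;> rcases hcase with h' | h'
  · rw [h, h']
  · exfalso
    rw [h'] at hT
    rw [h] at hS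
    exact not_prim_neg hS hT
  · exfalso
    rw [h'] at hT
    rw [h] at hS
    exact not_prim_neg hT hS
  · rw [h, h']

end Pool.Agent.V11294.Lu
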