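import Pool.Agent.V11294.Lu.Sym4

/-!
# The symbol of `1 + i`, factorisations, rational denominators
-/

set_option autoImplicit false
set_option linter.unusedSectionVars false

open H385 (ZI RQ im1 nrm)

namespace Pool.Agent.V11294.Lu

open Pool.Agent.Y699
open Pool.Agent.W164.RC (Ip Ip_spec Ip_exists Ip_one Ip_three dg unit_norm unit_cases)
open Pool.Agent.H304R2.EC.A1 (prim prim_mul prim_cancel prim_one prim_norm_odd prim_star eq_one_of_prim
  norm_def' re_mul' im_mul' eq_of_dvd prim_ne_zero exists_prim)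

variable {s t : Multiset ZI}

/-- the exponent of `1 + i` -/
def Wz (z : ZI) : ZMod 4 := (((z.re - z.im - z.im ^ 2 - 1) / 4 : ℤ) : ZMod 4)

/-- the prime `1 + i` -/
def p1 : ZI := ⟨1, 1⟩

theorem prim_param {z : ZI} (hz : prim z) : ∃ p q : ℤ, z.re = 1 - 2 * q + 4 * p ∧ z.im = 2 * q := by
  obtain ⟨h1, h2⟩ := hz
  exact ⟨(z.re + z.im) / 4, z.im / 2, by omega, by omega⟩

theorem Wz_param {z : ZI} {p q : ℤ} (h1 : z.re = 1 - 2 * q + 4 * p) (h2 : z.im = 2 * q) :
    Wz z = p - q - q ^ 2 := by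
  unfold Wz
  have : (z.re - z.im - z.im ^ 2 - 1) / 4 = p - q - q ^ 2 := by
    rw [h1, h2]
    have : 1 - 2 * q + 4 * p - 2 * q - (2 * q) ^ 2 - 1 = 4 * (p - q - q ^ 2) := by ring
    rw [this]; omega
  rw [this]
  push_cast
  ring

theorem Iz_param {z : ZI} {p q : ℤ} (h1 : z.re = 1 - 2 * q + 4 * p) (h2 : z.im = 2 * q) :
    Iz z = 2 * p - q + 2 * q ^ 2 := by
  unfold Iz
  have : (z.norm - 1) / 4 = 2 * p - q + 2 * q ^ 2 - 4 * p * q + 4 * p ^ 2 := by
    rw [norm_def', h1, h2]
    have : (1 - 2 * q + 4 * p) ^ 2 + (2 * q) ^ 2 - 1 = 4 * (2 * p - q + 2 * q ^ 2 - 4 * p * q + 4 * p ^ 2) := by ring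
    rw [this]; omega
  rw [this]
  push_cast
  have : (4 : ZMod 4) = 0 := by decide
  rw [this]; ring

theorem Wz_mul {z w : ZI} (hz : prim z) (hw : prim w) : Wz (z * w) = Wz z + Wz w := by
  obtain ⟨p, q, h1, h2⟩ := prim_param hz
  obtain ⟨r, s, h3, h4⟩ := prim_param hw
  have e1 : (z * w).re = 1 - 2 * (q + s + 4 * (p * s + q * r) - 4 * q * s) +
      4 * (p + r + 4 * p * r - 2 * q * s) := by
    rw [re_mul', h1, h2, h3, h4]; ring
  have e2 : (z * w).im = 2 * (q + s + 4 * (p * s + q * r) - 4 * q * s) := by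
    rw [im_mul', h1, h2, h3, h4]; ring
  rw [Wz_param h1 h2, Wz_param h3 h4, Wz_param e1 e2]
  push_cast
  generalize (p : ZMod 4) = p
  generalize (q : ZMod 4) = q
  generalize (r : ZMod 4) = r
  generalize (s : ZMod 4) = s
  revert p q r s
  decide

/-- the primes above the prime factors of `n` -/
noncomputable def Rm (n : ℕ) : Multiset ZI := (n.primeFactorsList.map (fun q => (Ip q).val)).sum

theorem J_Rm (n : ℕ) (b : ZI) : J (Rm n) b = Rs b n := by
  unfold Rm Rs
  generalize n.primeFactorsList = L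
  induction L with
  | nil => rfl
  | cons q L ih =>
    rw [List.map_cons, List.sum_cons, J_add, ih, List.map_cons, List.prod_cons]
    rfl

theorem mem_Rm {n : ℕ} {π : ZI} (h : π ∈ Rm n) : ∃ q : ℕ, q.Prime ∧ q ∣ n ∧ π ∈ Ip q := by
  have key : ∀ L : List ℕ, π ∈ (L.map (fun q => (Ip q).val)).sum → ∃ q ∈ L, π ∈ Ip q := by
    intro L
    induction L with
    | nil => intro h; simp at h
    | cons q L ih =>
      intro h
      rw [List.map_cons, List.sum_cons, Multiset.mem_add] at h
      rcases h with h | h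
      · exact ⟨q, List.mem_cons_self, h⟩
      · obtain ⟨q', h1, h2⟩ := ih h
        exact ⟨q', List.mem_cons_of_mem _ h1, h2⟩
  obtain ⟨q, h1, h2⟩ := key _ h
  exact ⟨q, Nat.prime_of_mem_primeFactorsList h1, Nat.dvd_of_mem_primeFactorsList h1, h2⟩

theorem PPs_Rm (n : ℕ) : PPs (Rm n) := by
  intro π h
  obtain ⟨q, h1, -, h2⟩ := mem_Rm h
  exact PP_ip h1 h2

theorem prod_Rm {n : ℕ} (hn : n % 2 = 1) : (Rm n).prod = ((s4 n * n : ℤ) : ZI) := by
  have key : ∀ L : List ℕ, (∀ q ∈ L, q.Prime ∧ q ≠ 2) → L.prod % 2 = 1 ∧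
      ((L.map (fun q => (Ip q).val)).sum).prod = ((s4 L.prod * L.prod : ℤ) : ZI) := by
    intro L
    induction L with
    | nil => intro _; refine ⟨rfl, ?_⟩; simp [s4]
    | cons q L ih =>
      intro hL
      obtain ⟨i1, i2⟩ := ih (fun q hq => hL q (List.mem_cons_of_mem _ hq))
      obtain ⟨a1, a2⟩ := hL q List.mem_cons_self
      have ho : q % 2 = 1 := by
        rcases a1.eq_two_or_odd with h | h
        · exact absurd h a2
        · exact h
      rw [List.map_cons, List.sum_cons, Multiset.prod_add, i2, List.prod_cons]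
      refine ⟨by rw [Nat.mul_mod, ho, i1], ?_⟩
      have e0 : (Ip q).val.prod = ((s4 q * q : ℤ) : ZI) := by
        by_cases h1 : q % 4 = 1
        · obtain ⟨x, hx, hxp, hxx, hn, hI⟩ := Ip_one a1 h1
          have : (Ip q).val.prod = ∏ z ∈ Ip q, z := by
            rw [Finset.prod_eq_multiset_prod, Multiset.map_id']
          rw [this, hI, Finset.prod_insert (by simpa using hx), Finset.prod_singleton, hxx]
          unfold s4
          rw [if_pos (by omega)]
          push_cast; ring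
        · have h3 : q % 4 = 3 := by omega
          rw [Ip_three h3]
          unfold s4
          rw [if_neg (by omega)]
          simp
      rw [e0]
      generalize L.prod = M at i1
      have e1 : s4 ((q * M : ℕ) : ℤ) = s4 q * s4 M := by
        rw [Nat.cast_mul]
        exact s4_mul (by omega) (by omega)
      rw [e1]
      push_cast
      ring
  have h2 := key n.primeFactorsList fun q hq => ⟨Nat.prime_of_mem_primeFactorsList hq, by
      rintro rfl
      have := Nat.dvd_of_mem_primeFactorsList hq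
      omega⟩
  have h3 := h2.2
  rw [Nat.prod_primeFactorsList (by omega)] at h3
  exact h3

/-- existence of a factorisation into primary primes -/
theorem exists_fac {z : ZI} (hz : prim z) : ∃ s : Multiset ZI, PPs s ∧ s.prod = z := by
  classical
  have hz0 : z ≠ 0 := prim_ne_zero hz
  obtain ⟨f, hf, hfz⟩ := UniqueFactorizationMonoid.exists_prime_factors z hz0
  have hodd : ∀ b ∈ f, b.norm % 2 = 1 := by
    intro b hb
    have h1 : b ∣ z := (Multiset.dvd_prod hb).trans hfz.dvd
    obtain ⟨c, hc⟩ := h1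
    have h2 := prim_norm_odd hz
    rw [hc, Zsqrtd.norm_mul, Int.mul_emod] at h2
    rcases Int.emod_two_eq_zero_or_one b.norm with h | h
    · rw [h] at h2; simp at h2
    · exact h
  have key : ∀ f : Multiset ZI, (∀ b ∈ f, Prime b) → (∀ b ∈ f, b.norm % 2 = 1) →
      ∃ s : Multiset ZI, PPs s ∧ Associated s.prod f.prod := by
    intro f
    induction f using Multiset.induction_on with
    | empty => intro _ _; exact ⟨0, fun π h => absurd h (Multiset.notMem_zero _), Associated.refl _⟩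
    | cons b f ih =>
      intro h1 h2
      obtain ⟨s, hs, hsf⟩ := ih (fun c hc => h1 c (Multiset.mem_cons_of_mem hc)) (fun c hc => h2 c (Multiset.mem_cons_of_mem hc))
      obtain ⟨u, v, huv, hp⟩ := exists_prim b (h2 b (Multiset.mem_cons_self _ _))
      have hu : IsUnit u := IsUnit.of_mul_eq_one _ huv
      have hb : Prime b := h1 b (Multiset.mem_cons_self _ _)
      have has : Associated (u * b) b := by
        obtain ⟨w, hw⟩ := hu
        rw [← hw, mul_comm]
        exact (associated_mul_unit_left b w w.isUnit)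
      refine ⟨(u * b) ::ₘ s, ?_, ?_⟩
      · intro π hπ
        rcases Multiset.mem_cons.1 hπ with h | h
        · rw [h]; exact ⟨has.symm.prime hb, hp⟩
        · exact hs π h
      · rw [Multiset.prod_cons, Multiset.prod_cons]
        exact has.mul_mul hsf
  obtain ⟨s, hs, hsf⟩ := key f hf hodd
  refine ⟨s, hs, ?_⟩
  have h1 : Associated s.prod z := hsf.trans hfz
  obtain ⟨w, hw⟩ := h1
  refine eq_of_dvd hs.prim hz ?_ ⟨w, hw.symm⟩
  rw [← hw, Zsqrtd.norm_mul, unit_norm w, mul_one]

/-! ### the symbol of `1 + i` -/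

theorem p1_sq : p1 ^ 2 = 2 * im1 := by decide

theorem p1_not_dvd {π : ZI} (h : PP π) : ¬ π ∣ p1 := by
  intro hd
  obtain ⟨c, hc⟩ := hd
  have h1 := congrArg Zsqrtd.norm hc
  rw [Zsqrtd.norm_mul] at h1
  have h2 : p1.norm = 2 := by decide
  rw [h2] at h1
  have h3 := h.five_le
  have h4 := GaussianInt.norm_nonneg c
  rcases (by omega : c.norm = 0 ∨ 1 ≤ c.norm) with h5 | h5
  · rw [h5] at h1; omega
  · nlinarith

theorem Cop_p1 (hs : PPs s) : Cop s p1 := fun π hπ => p1_not_dvd (hs π hπ)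

/-- the inert case -/
theorem q4_p1_inert {q : ℕ} (hq : q.Prime) (h3 : q % 4 = 3) :
    lg (q4 (-(q : ZI)) p1) = Wz (-(q : ZI)) := by
  have hP : PP (-(q : ZI)) := PP_ip hq (by rw [Ip_three h3]; simp)
  obtain ⟨k, hk, hk2⟩ := inert_quarter h3
  have hfact : Fact q.Prime := ⟨hq⟩
  -- Frobenius
  have h1 : (q : ZI) ∣ p1 ^ q - (1 + im1 ^ q) := by
    have e : p1 = 1 + im1 := by decide
    rw [e]
    obtain ⟨r, h2⟩ := exists_add_pow_prime_eq hq (1 : ZI) im1
    rw [h2, one_pow]
    exact ⟨im1 * r, by ring⟩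
  have h2 : im1 ^ q = -im1 := by
    rw [hk, pow_add, pow_mul]
    have : im1 ^ 4 = 1 := im1_four
    rw [this, one_pow, one_mul]
    decide
  rw [h2] at h1
  have h4 : (q : ZI) ∣ p1 * (p1 ^ (q - 1) + im1) := by
    have e : p1 * (p1 ^ (q - 1) + im1) = p1 ^ q - (1 + -im1) := by
      have : p1 ^ q = p1 * p1 ^ (q - 1) := by
        rw [← pow_succ']; congr 1; omega
      rw [this, mul_add]
      have : p1 * im1 = -(1 + -im1) := by decide
      rw [this]; ring
    rw [e]; exact h1
  have hPd : -(q : ZI) ∣ p1 * (p1 ^ (q - 1) + im1) := (neg_dvd).2 h4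
  have h5 : -(q : ZI) ∣ p1 ^ (q - 1) + im1 := by
    rcases hP.pr.dvd_or_dvd hPd with h | h
    · exact absurd h (p1_not_dvd hP)
    · exact h
  have h6 : q4 (-(q : ZI)) p1 = (-im1) ^ (k + 1) := by
    apply q4_eq hP
    · exact Val4.pow (Or.inr (by decide)) _
    · rw [nrm_inert, hk2]
      have e1 : q - 1 = 4 * k + 2 := by omega
      rw [pow_mul, ← e1]
      have h7 : -(q : ZI) ∣ p1 ^ (q - 1) - (-im1) := by rw [sub_neg_eq_add]; exact h5
      exact h7.trans (sub_dvd_pow_sub_pow _ _ _)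
  rw [h6, lg_pow (by decide)]
  have e2 : Wz (-(q : ZI)) = -((k : ZMod 4) + 1) := by
    unfold Wz
    have r1 : (-(q : ZI)).re = -(q : ℤ) := by simp
    have r2 : (-(q : ZI)).im = 0 := by simp
    rw [r1, r2]
    have : (-(q : ℤ) - 0 - 0 ^ 2 - 1) / 4 = -((k : ℤ) + 1) := by omega
    rw [this]
    push_cast; ring
  rw [e2]
  have : lg (-im1) = -1 := by decide
  rw [this]
  push_cast; ring

end Pool.Agent.V11294.Lu
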