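import Pool.Agent.V11294.Lu.Sup

/-!
# The supplementary law for `1 + i`
-/

set_option autoImplicit false
set_option linter.unusedSectionVars false

open H385 (ZI RQ im1 nrm)

namespace Pool.Agent.V11294.Lu

open Pool.Agent.Y699
open Pool.Agent.W164.RC (Ip Ip_spec Ip_exists Ip_one Ip_three dg unit_norm unit_cases)
open Pool.Agent.H304R2.EC.A1 (prim prim_mul prim_cancel prim_one prim_norm_odd prim_star eq_one_of_prim
  norm_def' re_mul' im_mul' eq_of_dvd prim_ne_zero exists_prim)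

variable {s t : Multiset ZI}

/-- the exponent of the symbol of `1 + i` over an odd natural number -/
def Tn (n : ℕ) : ZMod 4 := (((s4 n * n - 1) / 4 : ℤ) : ZMod 4)

theorem s4_mod {n : ℤ} (h : n % 2 = 1) : (s4 n * n) % 4 = 1 := by
  unfold s4
  split_ifs with h1
  · omega
  · omega

theorem Tn_mul {m n : ℕ} (hm : m % 2 = 1) (hn : n % 2 = 1) : Tn (m * n) = Tn m + Tn n := by
  unfold Tn
  have e1 : s4 ((m * n : ℕ) : ℤ) = s4 m * s4 n := by
    push_cast
    exact s4_mul (by omega) (by omega)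
  rw [e1]
  have h1 := s4_mod (n := (m : ℤ)) (by omega)
  have h2 := s4_mod (n := (n : ℤ)) (by omega)
  have e2 : s4 (m : ℤ) * s4 (n : ℤ) * ((m * n : ℕ) : ℤ) = (s4 (m : ℤ) * m) * (s4 (n : ℤ) * n) := by
    push_cast; ring
  rw [e2]
  obtain ⟨a, ha⟩ : ∃ a, s4 (m : ℤ) * m = 4 * a + 1 := ⟨(s4 (m : ℤ) * m) / 4, by omega⟩
  obtain ⟨b, hb⟩ : ∃ b, s4 (n : ℤ) * n = 4 * b + 1 := ⟨(s4 (n : ℤ) * n) / 4, by omega⟩
  rw [ha, hb]
  have e1 : ((4 * a + 1) * (4 * b + 1) - 1) / 4 = 4 * (a * b) + a + b := by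
    have : (4 * a + 1) * (4 * b + 1) - 1 = 4 * (4 * (a * b) + a + b) := by ring
    rw [this]; omega
  have e2 : (4 * a + 1 - 1) / 4 = a := by omega
  have e3 : (4 * b + 1 - 1) / 4 = b := by omega
  rw [e1, e2, e3]
  push_cast
  have : (4 : ZMod 4) = 0 := by decide
  rw [this]; ring

theorem Rp_p1 {q : ℕ} (hq : q.Prime) (h2 : q ≠ 2) : (Rp p1 q).norm = 1 ∧ lg (Rp p1 q) = Tn q := by
  have ho : q % 2 = 1 := by
    rcases hq.eq_two_or_odd with h | h
    · exact absurd h h2
    · exact h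
  unfold Rp
  by_cases h1 : q % 4 = 1
  · obtain ⟨x, hx, hxp, hxx, hn, hI⟩ := Ip_one hq h1
    rw [hI, Finset.prod_insert (by simpa using hx), Finset.prod_singleton]
    have hPx : PP x := PP_ip hq (by rw [hI]; simp)
    have e1 : q4 (star x) p1 = star (q4 x (-im1 * p1)) := by
      rw [← q4_star hPx]
      congr 1
    have e2 : q4 x (-im1 * p1) = (-im1) ^ (nrm x / 4) * q4 x p1 := by
      rw [q4_mul hPx, q4_unit hPx (by decide)]
    have u1 := q4_norm hPx (p1_not_dvd hPx)
    have u2 := unit_star_mul u1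
    have e3 : star ((-im1) ^ (nrm x / 4) : ZI) = im1 ^ (nrm x / 4) := by
      rw [star_pow]
      congr 1
    have e4 : q4 x p1 * q4 (star x) p1 = im1 ^ (nrm x / 4) := by
      rw [e1, e2, star_mul, e3]
      linear_combination im1 ^ (nrm x / 4) * u2
    rw [e4]
    refine ⟨norm_pow_one im1_n _, ?_⟩
    rw [lg_pow im1_n, lg_im, mul_one, hn]
    unfold Tn s4
    rw [if_pos (by omega)]
    have : (1 * (q : ℤ) - 1) / 4 = ((q / 4 : ℕ) : ℤ) := by omega
    rw [this]
    push_cast; rfl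
  · have h3 : q % 4 = 3 := by omega
    rw [Ip_three h3, Finset.prod_singleton]
    have hP : PP (-(q : ZI)) := PP_ip hq (by rw [Ip_three h3]; simp)
    refine ⟨q4_norm hP (p1_not_dvd hP), ?_⟩
    rw [q4_p1_inert hq h3]
    unfold Wz Tn s4
    rw [if_neg (by omega)]
    have r1 : (-(q : ZI)).re = -(q : ℤ) := by simp
    have r2 : (-(q : ZI)).im = 0 := by simp
    rw [r1, r2]
    congr 1
    congr 1
    ring

theorem Rs_p1 {n : ℕ} (hn : n % 2 = 1) : (Rs p1 n).norm = 1 ∧ lg (Rs p1 n) = Tn n := by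
  have key : ∀ L : List ℕ, (∀ q ∈ L, q.Prime ∧ q ≠ 2) → L.prod % 2 = 1 ∧
      ((L.map (Rp p1)).prod).norm = 1 ∧ lg (L.map (Rp p1)).prod = Tn L.prod := by
    intro L
    induction L with
    | nil => intro _; exact ⟨rfl, by decide, by simp [Tn, s4, lg_one]⟩
    | cons q L ih =>
      intro hL
      obtain ⟨i1, i2, i3⟩ := ih (fun q hq => hL q (List.mem_cons_of_mem _ hq))
      obtain ⟨a1, a2⟩ := hL q List.mem_cons_self
      have ho : q % 2 = 1 := by
        rcases a1.eq_two_or_odd with h | h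
        · exact absurd h a2
        · exact h
      obtain ⟨b1, b2⟩ := Rp_p1 a1 a2
      rw [List.map_cons, List.prod_cons, List.prod_cons]
      refine ⟨by rw [Nat.mul_mod, ho, i1], ?_, ?_⟩
      · rw [Zsqrtd.norm_mul, b1, i2, one_mul]
      · rw [lg_mul b1 i2, b2, i3, Tn_mul ho i1]
  have h2 := key n.primeFactorsList fun q hq => ⟨Nat.prime_of_mem_primeFactorsList hq, by
      rintro rfl
      have := Nat.dvd_of_mem_primeFactorsList hq
      omega⟩
  unfold Rs
  have h3 := h2.2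
  rw [Nat.prod_primeFactorsList (by omega)] at h3
  exact h3

theorem lg_e8 (n : ℕ) : lg ((e8 n : ℤ) : ZI) = if n % 8 = 1 ∨ n % 8 = 7 then 0 else 2 := by
  unfold e8
  split_ifs
  · simp [lg_one]
  · have : (((-1 : ℤ)) : ZI) = -1 := by push_cast; rfl
    rw [this, lg_neg_one]

theorem e8_norm (n : ℕ) : ((e8 n : ℤ) : ZI).norm = 1 := by
  unfold e8
  split_ifs <;> simp

/-- rational coprimality inside a split prime -/
theorem split_cop {π : ZI} (h : PP π) (hb : π.im ≠ 0) {q : ℕ} (hq : q.Prime) (h1 : (q : ℤ) ∣ π.re)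
    (h2 : (q : ℤ) ∣ π.im) : False := by
  have hd : (q : ZI) ∣ π := by
    obtain ⟨a, ha⟩ := h1
    obtain ⟨b, hb⟩ := h2
    refine ⟨⟨a, b⟩, ?_⟩
    ext
    · simp [ha]
    · simp [hb]
  rcases h.cases with ⟨p, hp, hp4, hpn⟩ | ⟨p, hp, hp4, hpn⟩
  · obtain ⟨c, hc⟩ := hd
    have h3 := congrArg Zsqrtd.norm hc
    rw [Zsqrtd.norm_mul, Zsqrtd.norm_natCast, hpn] at h3
    have h4 : (q : ℤ) * q ∣ p := ⟨_, h3⟩
    have h5 : q * q ∣ p := by exact_mod_cast h4
    have h6 := (Nat.dvd_prime hp).1 h5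
    rcases h6 with h6 | h6
    · have := hq.one_lt; nlinarith
    · have h7 := hp
      rw [← h6] at h7
      exact Nat.not_prime_mul hq.one_lt.ne' hq.one_lt.ne' h7
  · apply hb
    rw [hpn]; simp

theorem q4_p1_split {π : ZI} (h : PP π) (hb : π.im ≠ 0) : lg (q4 π p1) = Wz π := by
  obtain ⟨p, q, e1, e2⟩ := prim_param h.prm
  -- π ∣ p1 * re - (re + im)
  have hd : π ∣ ((π.re + π.im : ℤ) : ZI) - p1 * ((π.re : ℤ) : ZI) := by
    refine ⟨-im1, ?_⟩
    ext
    · simp [p1, im1]
    · simp [p1, im1]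
  have n1 := split_not_dvd_re h hb
  have n2 : ¬ π ∣ p1 * ((π.re : ℤ) : ZI) := by
    intro hh
    rcases h.pr.dvd_or_dvd hh with h3 | h3
    · exact p1_not_dvd h h3
    · exact n1 h3
  have n3 : ¬ π ∣ ((π.re + π.im : ℤ) : ZI) := by
    intro hh
    apply n2
    have := dvd_sub hh hd
    rwa [sub_sub_cancel] at this
  have k1 : lg (q4 π ((π.re + π.im : ℤ) : ZI)) = lg (q4 π p1) + lg (q4 π ((π.re : ℤ) : ZI)) := by
    rw [q4_per h hd, q4_mul h, lg_mul (q4_norm h (p1_not_dvd h)) (q4_norm h n1)]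
  have f1 := q4_int JJ_holds h (m := π.re) (by omega) n1
  have f2 := q4_int JJ_holds h (m := π.re + π.im) (by omega) n3
  have o1 : π.re.natAbs % 2 = 1 := by omega
  have o2 : (π.re + π.im).natAbs % 2 = 1 := by omega
  -- the rational symbols
  have g1 : Rs π π.re.natAbs = ((e8 π.re.natAbs : ℤ) : ZI) := by
    have hp : ((π.re.natAbs : ℕ) : ZI) ∣ π - ((π.im : ℤ) : ZI) * im1 := by
      have e : π - ((π.im : ℤ) : ZI) * im1 = ((π.re : ℤ) : ZI) := by
        ext <;> simp [im1]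
      rw [e]
      have : ((π.re.natAbs : ℕ) : ℤ) ∣ π.re := Int.natAbs_dvd.2 dvd_rfl
      have h5 := (Int.castRingHom ZI).map_dvd this
      simpa using h5
    rw [Rs_per hp, Rs_mul, Rs_im o1, Rs_rat, one_mul]
    intro q hq hqd hqm
    exact split_cop h hb hq (Int.natCast_dvd.2 hqd) hqm
  have g2 : Rs π (π.re + π.im).natAbs = ((e8 (π.re + π.im).natAbs : ℤ) : ZI) * Rs p1 (π.re + π.im).natAbs := by
    have hp : (((π.re + π.im).natAbs : ℕ) : ZI) ∣ π - ((π.im : ℤ) : ZI) * (im1 * p1) := by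
      have e : π - ((π.im : ℤ) : ZI) * (im1 * p1) = ((π.re + π.im : ℤ) : ZI) := by
        ext <;> simp [im1, p1]
      rw [e]
      have : (((π.re + π.im).natAbs : ℕ) : ℤ) ∣ (π.re + π.im) := Int.natAbs_dvd.2 dvd_rfl
      have h5 := (Int.castRingHom ZI).map_dvd this
      simpa using h5
    rw [Rs_per hp, Rs_mul, Rs_mul, Rs_im o2, Rs_rat, one_mul]
    intro q hq hqd hqm
    have h6 : (q : ℤ) ∣ π.re + π.im := Int.natCast_dvd.2 hqd
    have h7 : (q : ℤ) ∣ π.re := by
      have := dvd_sub h6 hqm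
      rwa [add_sub_cancel_right] at this
    exact split_cop h hb hq h7 hqm
  obtain ⟨w1, w2⟩ := Rs_p1 o2
  rw [f1, f2, g1, g2] at k1
  have m1 : (π.re + π.im) % 4 = 1 := by omega
  rw [if_pos m1, one_mul, lg_mul (e8_norm _) w1, w2, lg_e8] at k1
  have T1 : Tn (π.re + π.im).natAbs = (p : ZMod 4) := by
    unfold Tn
    have : s4 (((π.re + π.im).natAbs : ℕ) : ℤ) * (((π.re + π.im).natAbs : ℕ) : ℤ) = π.re + π.im := by
      unfold s4
      split_ifs <;> omega
    rw [this]
    have : (π.re + π.im - 1) / 4 = p := by omega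
    rw [this]
  rw [T1] at k1
  rw [Wz_param e1 e2]
  have hI := Iz_param e1 e2
  have k2 : lg ((if π.re % 4 = 1 then 1 else (-1) ^ (nrm π / 4)) * ((e8 π.re.natAbs : ℤ) : ZI)) =
      (if π.re % 4 = 1 then 0 else 2 * Iz π) + (if π.re.natAbs % 8 = 1 ∨ π.re.natAbs % 8 = 7 then 0 else 2) := by
    rw [lg_mul _ (e8_norm _), lg_e8]
    · congr 1
      split_ifs
      · exact lg_one
      · rw [lg_pow (by decide), lg_neg_one, nrm4 h]; ring
    · split_ifs
      · simp
      · exact norm_pow_one (by decide) _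
  rw [k2, hI] at k1
  -- finish by cases
  obtain ⟨p1', hp1⟩ : ∃ p', p = 2 * p' ∨ p = 2 * p' + 1 := ⟨p / 2, by omega⟩
  obtain ⟨q1, hq1⟩ : ∃ q', q = 4 * q' ∨ q = 4 * q' + 1 ∨ q = 4 * q' + 2 ∨ q = 4 * q' + 3 := ⟨q / 4, by omega⟩
  have h4 : (4 : ZMod 4) = 0 := by decide
  have k3 : lg (q4 π p1) = ((if (π.re + π.im).natAbs % 8 = 1 ∨ (π.re + π.im).natAbs % 8 = 7 then 0 else 2) + (p : ZMod 4)) -
      ((if π.re % 4 = 1 then 0 else 2 * (2 * (p : ZMod 4) - q + 2 * q ^ 2)) +
        (if π.re.natAbs % 8 = 1 ∨ π.re.natAbs % 8 = 7 then 0 else 2)) := by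
    linear_combination -k1
  rw [k3]
  rcases hp1 with hp1 | hp1 <;> rcases hq1 with hq1 | hq1 | hq1 | hq1
  · rw [if_pos (by omega), if_pos (by omega), if_pos (by omega), hp1, hq1]
    push_cast
    rw [h4]; ring
  · rw [if_pos (by omega), if_neg (by omega), if_pos (by omega), hp1, hq1]
    push_cast
    rw [h4]
    generalize (p1' : ZMod 4) = x
    generalize (q1 : ZMod 4) = y
    revert x y; decide
  · rw [if_pos (by omega), if_pos (by omega), if_neg (by omega), hp1, hq1]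
    push_cast
    rw [h4]
    generalize (p1' : ZMod 4) = x
    generalize (q1 : ZMod 4) = y
    revert x y; decide
  · rw [if_pos (by omega), if_neg (by omega), if_neg (by omega), hp1, hq1]
    push_cast
    rw [h4]
    generalize (p1' : ZMod 4) = x
    generalize (q1 : ZMod 4) = y
    revert x y; decide
  · rw [if_neg (by omega), if_pos (by omega), if_neg (by omega), hp1, hq1]
    push_cast
    rw [h4]
    generalize (p1' : ZMod 4) = x
    generalize (q1 : ZMod 4) = y
    revert x y; decide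
  · rw [if_neg (by omega), if_neg (by omega), if_neg (by omega), hp1, hq1]
    push_cast
    rw [h4]
    generalize (p1' : ZMod 4) = x
    generalize (q1 : ZMod 4) = y
    revert x y; decide
  · rw [if_neg (by omega), if_pos (by omega), if_pos (by omega), hp1, hq1]
    push_cast
    rw [h4]
    generalize (p1' : ZMod 4) = x
    generalize (q1 : ZMod 4) = y
    revert x y; decide
  · rw [if_neg (by omega), if_neg (by omega), if_pos (by omega), hp1, hq1]
    push_cast
    rw [h4]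
    generalize (p1' : ZMod 4) = x
    generalize (q1 : ZMod 4) = y
    revert x y; decide

theorem E_p1 (hs : PPs s) : E s p1 = Wz s.prod := by
  induction s using Multiset.induction_on with
  | empty =>
    rw [E_zero]
    decide
  | cons π s ih =>
    obtain ⟨h1, h2⟩ := hs.cons
    have hc := Cop_p1 hs
    rw [E_cons h1 h2 hc.cons.1 hc.cons.2, ih h2, Multiset.prod_cons, Wz_mul h1.prm h2.prim]
    congr 1
    by_cases hb : π.im = 0
    · rcases h1.cases with ⟨p, hp, hp4, hpn⟩ | ⟨p, hp, hp4, hpn⟩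
      · exfalso
        rw [norm_def', hb] at hpn
        have h3 : (p : ℤ) = π.re * π.re := by rw [← hpn]; ring
        have h4 : p = π.re.natAbs * π.re.natAbs := by
          have := congrArg Int.natAbs h3
          rwa [Int.natAbs_mul, Int.natAbs_natCast] at this
        rcases Nat.prime_mul_iff.1 (h4 ▸ hp) with ⟨h3, h4⟩ | ⟨h3, h4⟩
        · rw [h4] at h3; exact Nat.not_prime_one h3
        · rw [h4] at h3; exact Nat.not_prime_one h3
      · rw [hpn]; exact q4_p1_inert hp hp4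
    · exact q4_p1_split h1 hb

end Pool.Agent.V11294.Lu
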