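import Pool.Agent.Y699.Qj
import Pool.Agent.TH402.AK.Gauss

/-!
# Quartic residue symbols with composite denominators, as exponents in `ZMod 4`
-/

set_option autoImplicit false
set_option linter.unusedSectionVars false

open H385 (ZI RQ im1 nrm)

namespace Pool.Agent.V11294.Lu

open Pool.Agent.Y699
open Pool.Agent.W164.RC (Ip Ip_spec Ip_exists Ip_one Ip_three dg unit_norm unit_cases)
open Pool.Agent.H304R2.EC.A1 (prim prim_mul prim_cancel prim_one prim_norm_odd prim_star eq_one_of_prim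
  norm_def' re_mul' im_mul' eq_of_dvd prim_ne_zero exists_prim)

theorem JJ_holds : JJ := JJ_of Pool.Agent.TH402.AK.e

/-- all members are primary primes -/
def PPs (s : Multiset ZI) : Prop := ∀ π ∈ s, PP π

/-- the symbol -/
noncomputable def J (s : Multiset ZI) (β : ZI) : ZI := (s.map (fun π => q4 π β)).prod

/-- no member divides `β` -/
def Cop (s : Multiset ZI) (β : ZI) : Prop := ∀ π ∈ s, ¬ π ∣ β

variable {s t : Multiset ZI}

theorem J_mul (hs : PPs s) (a b : ZI) : J s (a * b) = J s a * J s b := by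
  unfold J
  rw [← Multiset.prod_map_mul]
  congr 1
  exact Multiset.map_congr rfl fun π hπ => q4_mul (hs π hπ) a b

theorem J_per (hs : PPs s) {a b : ZI} (h : s.prod ∣ a - b) : J s a = J s b := by
  unfold J
  congr 1
  exact Multiset.map_congr rfl fun π hπ => q4_per (hs π hπ) ((Multiset.dvd_prod hπ).trans h)

theorem J_add (s t : Multiset ZI) (b : ZI) : J (s + t) b = J s b * J t b := by
  unfold J
  rw [Multiset.map_add, Multiset.prod_add]

theorem J_zero (b : ZI) : J 0 b = 1 := rfl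

theorem J_cons (π : ZI) (s : Multiset ZI) (b : ZI) : J (π ::ₘ s) b = q4 π b * J s b := by
  unfold J
  rw [Multiset.map_cons, Multiset.prod_cons]

theorem J_norm (hs : PPs s) {a : ZI} (h : Cop s a) : (J s a).norm = 1 := by
  induction s using Multiset.induction_on with
  | empty => rw [J_zero]; decide
  | cons π s ih =>
    rw [J_cons, Zsqrtd.norm_mul, q4_norm (hs π (Multiset.mem_cons_self _ _)) (h π (Multiset.mem_cons_self _ _)),
      ih (fun κ hκ => hs κ (Multiset.mem_cons_of_mem hκ)) (fun κ hκ => h κ (Multiset.mem_cons_of_mem hκ)),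
      one_mul]

theorem Cop.mul (hs : PPs s) {a b : ZI} (ha : Cop s a) (hb : Cop s b) : Cop s (a * b) := by
  intro π hπ h
  rcases (hs π hπ).pr.dvd_or_dvd h with h | h
  · exact ha π hπ h
  · exact hb π hπ h

theorem Cop.left {a b : ZI} (h : Cop s (a * b)) : Cop s a := fun π hπ hd => h π hπ (hd.mul_right b)

theorem Cop.right {a b : ZI} (h : Cop s (a * b)) : Cop s b := fun π hπ hd => h π hπ (hd.mul_left a)

theorem Cop.pow (hs : PPs s) {a : ZI} (ha : Cop s a) (n : ℕ) : Cop s (a ^ n) := by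
  intro π hπ h
  exact ha π hπ ((hs π hπ).pr.dvd_of_dvd_pow h)

theorem Cop.unit (hs : PPs s) {u : ZI} (hu : u.norm = 1) : Cop s u := by
  intro π hπ h
  have h1 : IsUnit u := Zsqrtd.isUnit_iff_norm_isUnit u |>.2 (by rw [hu]; exact isUnit_one)
  exact (hs π hπ).pr.not_isUnit (isUnit_of_dvd_unit h h1)

/-- the logarithm of a fourth root of unity -/
def lg (u : ZI) : ZMod 4 := if u = 1 then 0 else if u = im1 then 1 else if u = -1 then 2 else 3

theorem units4 {u : ZI} (h : u.norm = 1) : u = 1 ∨ u = im1 ∨ u = -1 ∨ u = -im1 := by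
  rcases unit_cases h with h | h | h | h
  · exact Or.inl h
  · exact Or.inr (Or.inl h)
  · exact Or.inr (Or.inr (Or.inl (by rw [h]; decide)))
  · exact Or.inr (Or.inr (Or.inr (by rw [h]; decide)))

theorem lg_mul {u v : ZI} (hu : u.norm = 1) (hv : v.norm = 1) : lg (u * v) = lg u + lg v := by
  rcases units4 hu with rfl | rfl | rfl | rfl <;> rcases units4 hv with rfl | rfl | rfl | rfl <;> decide

theorem lg_one : lg 1 = 0 := rfl

theorem lg_im : lg im1 = 1 := by decide

theorem lg_neg_one : lg (-1) = 2 := by decide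

theorem im1_n : im1.norm = 1 := by decide

theorem norm_pow_one {u : ZI} (hu : u.norm = 1) (n : ℕ) : (u ^ n).norm = 1 := by
  induction n with
  | zero => simp
  | succ n ih => rw [pow_succ, Zsqrtd.norm_mul, ih, hu, one_mul]

theorem lg_pow {u : ZI} (hu : u.norm = 1) (n : ℕ) : lg (u ^ n) = n * lg u := by
  induction n with
  | zero => simp [lg_one]
  | succ n ih =>
    rw [pow_succ, lg_mul (norm_pow_one hu n) hu, ih]
    push_cast; ring

theorem lg_inj {u v : ZI} (hu : u.norm = 1) (hv : v.norm = 1) (h : lg u = lg v) : u = v := by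
  rcases units4 hu with rfl | rfl | rfl | rfl <;> rcases units4 hv with rfl | rfl | rfl | rfl <;>
    first | rfl | (exfalso; revert h; decide)

/-- the exponent of the symbol -/
noncomputable def E (s : Multiset ZI) (β : ZI) : ZMod 4 := lg (J s β)

theorem E_mul (hs : PPs s) {a b : ZI} (ha : Cop s a) (hb : Cop s b) : E s (a * b) = E s a + E s b := by
  unfold E
  rw [J_mul hs, lg_mul (J_norm hs ha) (J_norm hs hb)]

theorem E_per (hs : PPs s) {a b : ZI} (h : s.prod ∣ a - b) : E s a = E s b := by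
  unfold E; rw [J_per hs h]

theorem E_one (hs : PPs s) : E s 1 = 0 := by
  have h := E_mul (a := 1) (b := 1) hs (Cop.unit hs (by decide)) (Cop.unit hs (by decide))
  rw [mul_one] at h
  simpa using h

theorem E_pow (hs : PPs s) {a : ZI} (ha : Cop s a) (n : ℕ) : E s (a ^ n) = n * E s a := by
  induction n with
  | zero => simp [E_one hs]
  | succ n ih =>
    rw [pow_succ, E_mul hs (ha.pow hs n) ha, ih]
    push_cast; ring

theorem E_zero (b : ZI) : E 0 b = 0 := by unfold E; rw [J_zero]; rfl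

theorem E_cons {π : ZI} (h : PP π) (hs : PPs s) {b : ZI} (h1 : ¬ π ∣ b) (h2 : Cop s b) :
    E (π ::ₘ s) b = lg (q4 π b) + E s b := by
  unfold E
  rw [J_cons, lg_mul (q4_norm h h1) (J_norm hs h2)]

theorem E_add (hs : PPs s) (ht : PPs t) {b : ZI} (h1 : Cop s b) (h2 : Cop t b) :
    E (s + t) b = E s b + E t b := by
  unfold E
  rw [J_add, lg_mul (J_norm hs h1) (J_norm ht h2)]

/-- the exponent of `i` -/
def Iz (z : ZI) : ZMod 4 := (((z.norm - 1) / 4 : ℤ) : ZMod 4)

theorem Iz_mul {z w : ZI} (hz : z.norm % 4 = 1) (hw : w.norm % 4 = 1) : Iz (z * w) = Iz z + Iz w := by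
  unfold Iz
  rw [Zsqrtd.norm_mul]
  obtain ⟨a, ha⟩ : ∃ a, z.norm = 4 * a + 1 := ⟨z.norm / 4, by omega⟩
  obtain ⟨b, hb⟩ : ∃ b, w.norm = 4 * b + 1 := ⟨w.norm / 4, by omega⟩
  rw [ha, hb]
  have e1 : ((4 * a + 1) * (4 * b + 1) - 1) / 4 = 4 * (a * b) + a + b := by
    have : (4 * a + 1) * (4 * b + 1) - 1 = 4 * (4 * (a * b) + a + b) := by ring
    rw [this]; omega
  have e2 : (4 * a + 1 - 1) / 4 = a := by omega
  have e3 : (4 * b + 1 - 1) / 4 = b := by omega
  rw [e1, e2, e3]
  push_cast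
  have : (4 : ZMod 4) = 0 := by decide
  rw [this]; ring

theorem PPs.norm_mod (hs : PPs s) : s.prod.norm % 4 = 1 := by
  induction s using Multiset.induction_on with
  | empty => simp
  | cons π s ih =>
    rw [Multiset.prod_cons, Zsqrtd.norm_mul, Int.mul_emod, (hs π (Multiset.mem_cons_self _ _)).norm_mod,
      ih fun κ hκ => hs κ (Multiset.mem_cons_of_mem hκ)]
    rfl

theorem PPs.prim (hs : PPs s) : prim s.prod := by
  induction s using Multiset.induction_on with
  | empty => exact prim_one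
  | cons π s ih =>
    rw [Multiset.prod_cons]
    exact prim_mul (hs π (Multiset.mem_cons_self _ _)).prm (ih fun κ hκ => hs κ (Multiset.mem_cons_of_mem hκ))

theorem PPs.cons {π : ZI} (hs : PPs (π ::ₘ s)) : PP π ∧ PPs s :=
  ⟨hs π (Multiset.mem_cons_self _ _), fun κ hκ => hs κ (Multiset.mem_cons_of_mem hκ)⟩

theorem Cop.cons {π b : ZI} (hs : Cop (π ::ₘ s) b) : ¬ π ∣ b ∧ Cop s b :=
  ⟨hs π (Multiset.mem_cons_self _ _), fun κ hκ => hs κ (Multiset.mem_cons_of_mem hκ)⟩

theorem nrm4 {π : ZI} (h : PP π) : ((nrm π / 4 : ℕ) : ZMod 4) = Iz π := by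
  unfold Iz
  have h1 := h.nrm_mod
  have h2 := nrm_cast π
  have : (π.norm - 1) / 4 = ((nrm π / 4 : ℕ) : ℤ) := by omega
  rw [this]
  push_cast
  rfl

theorem E_im (hs : PPs s) : E s im1 = Iz s.prod := by
  induction s using Multiset.induction_on with
  | empty =>
    rw [E_zero]
    unfold Iz
    simp
  | cons π s ih =>
    obtain ⟨h1, h2⟩ := hs.cons
    have hc := Cop.unit hs im1_n
    rw [E_cons h1 h2 hc.cons.1 hc.cons.2, ih h2, Multiset.prod_cons, Iz_mul h1.norm_mod h2.norm_mod,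
      q4_unit h1 im1_n, lg_pow im1_n, lg_im, mul_one, nrm4 h1]

theorem E_neg_one (hs : PPs s) : E s (-1) = 2 * Iz s.prod := by
  have h : (-1 : ZI) = im1 ^ 2 := by decide
  rw [h, E_pow hs (Cop.unit hs im1_n), E_im hs]
  norm_num

theorem rec_one {π l : ZI} (hπ : PP π) (hl : PP l) (hne : π ≠ l) :
    lg (q4 π l) = lg (q4 l π) + 2 * Iz π * Iz l := by
  have h1 := q4_rec JJ_holds hπ hl hne
  have n1 : ¬ l ∣ π := fun h => hne (hl.eq_of_dvd hπ h).symm
  rw [h1, lg_mul (q4_norm hl n1) (norm_pow_one (by decide) _), lg_pow (by decide), lg_neg_one]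
  push_cast
  rw [nrm4 hπ, nrm4 hl]
  ring

theorem not_dvd_prod (hs : PPs s) (ht : PPs t) (hd : ∀ π ∈ s, ∀ κ ∈ t, π ≠ κ) : Cop s t.prod := by
  intro π hπ h
  obtain ⟨κ, hκ, h1⟩ := Prime.exists_mem_multiset_dvd (hs π hπ).pr h
  exact hd π hπ κ hκ ((hs π hπ).eq_of_dvd (ht κ hκ) h1)

theorem E_rec (hs : PPs s) (ht : PPs t) (hd : ∀ π ∈ s, ∀ κ ∈ t, π ≠ κ) :
    E s t.prod = E t s.prod + 2 * Iz s.prod * Iz t.prod := by
  -- a single prime against `t`
  have key : ∀ (t : Multiset ZI) (π : ZI), PP π → PPs t → (∀ κ ∈ t, π ≠ κ) →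
      lg (q4 π t.prod) = E t π + 2 * Iz π * Iz t.prod := by
    intro t π hπ ht hd
    induction t using Multiset.induction_on with
    | empty =>
      rw [E_zero, Multiset.prod_zero, q4_one hπ, lg_one]
      have : Iz 1 = 0 := by unfold Iz; simp
      rw [this]; ring
    | cons κ t ih =>
      obtain ⟨h1, h2⟩ := ht.cons
      have hne := hd κ (Multiset.mem_cons_self _ _)
      have n1 : ¬ π ∣ κ := fun h => hne (hπ.eq_of_dvd h1 h)
      have n2 : ¬ κ ∣ π := fun h => hne (h1.eq_of_dvd hπ h).symm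
      have hd' : ∀ κ ∈ t, π ≠ κ := fun κ' hκ' => hd κ' (Multiset.mem_cons_of_mem hκ')
      have n3 : ¬ π ∣ t.prod := by
        intro h
        obtain ⟨κ', hκ', h1'⟩ := Prime.exists_mem_multiset_dvd hπ.pr h
        exact hd' κ' hκ' (hπ.eq_of_dvd (h2 κ' hκ') h1')
      have n4 : Cop t π := fun κ' hκ' h => hd' κ' hκ' ((h2 κ' hκ').eq_of_dvd hπ h).symm
      rw [Multiset.prod_cons, q4_mul hπ, lg_mul (q4_norm hπ n1) (q4_norm hπ n3), ih h2 hd',
        E_cons h1 h2 n2 n4, rec_one hπ h1 hne, Iz_mul h1.norm_mod h2.norm_mod]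
      ring
  induction s using Multiset.induction_on with
  | empty =>
    rw [E_zero, Multiset.prod_zero, E_one ht]
    have : Iz 1 = 0 := by unfold Iz; simp
    rw [this]; ring
  | cons π s ih =>
    obtain ⟨h1, h2⟩ := hs.cons
    have hd1 : ∀ κ ∈ t, π ≠ κ := hd π (Multiset.mem_cons_self _ _)
    have hd2 : ∀ π ∈ s, ∀ κ ∈ t, π ≠ κ := fun π' hπ' => hd π' (Multiset.mem_cons_of_mem hπ')
    have c1 := not_dvd_prod hs ht hd
    have c2 : Cop t π := fun κ hκ h => hd1 κ hκ ((ht κ hκ).eq_of_dvd h1 h).symm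
    have c3 : Cop t s.prod := not_dvd_prod ht h2 fun κ hκ π' hπ' => (hd2 π' hπ' κ hκ).symm
    rw [E_cons h1 h2 c1.cons.1 c1.cons.2, key t π h1 ht hd1, ih h2 hd2, Multiset.prod_cons,
      E_mul ht c2 c3, Iz_mul h1.norm_mod h2.norm_mod]
    ring

end Pool.Agent.V11294.Lu
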